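import Pool.Agent.V8H81.Urp.Vol

/-!
# Almost all polygons are in general position
-/

set_option autoImplicit false

namespace Pool.Agent.V8H81.Urp

open Finset MeasureTheory

variable {n : ℕ} [NeZero n]

theorem shade_update_y (V : Fin n × Fin 3 → ℝ) (v : Fin n) (t : ℝ) (a : Fin n) :
    shade (Function.update V (v, 1) t) a = (V (a, 0), if a = v then t else V (a, 1)) := by
  unfold shade
  by_cases h : a = v
  · subst h
    rw [Function.update_self, Function.update_of_ne (by simp), if_pos rfl]
  · rw [Function.update_of_ne (by simp), Function.update_of_ne (by simp [h]), if_neg h]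

theorem shade_update_x (V : Fin n × Fin 3 → ℝ) (v : Fin n) (t : ℝ) (a : Fin n) :
    shade (Function.update V (v, 0) t) a = (if a = v then t else V (a, 0), V (a, 1)) := by
  unfold shade
  by_cases h : a = v
  · subst h
    rw [Function.update_self, Function.update_of_ne (by simp), if_pos rfl]
  · rw [Function.update_of_ne (by simp [h]), Function.update_of_ne (by simp), if_neg h]

theorem shade_update_z (V : Fin n × Fin 3 → ℝ) (v : Fin n) (t : ℝ) :
    shade (Function.update V (v, 2) t) = shade V := by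
  funext a
  unfold shade
  rw [Function.update_of_ne (by simp), Function.update_of_ne (by simp)]

theorem height_update_z (V : Fin n × Fin 3 → ℝ) (v : Fin n) (t : ℝ) (a : Fin n) :
    height (Function.update V (v, 2) t) a = if a = v then t else V (a, 2) := by
  unfold height
  by_cases h : a = v
  · subst h
    rw [Function.update_self, if_pos rfl]
  · rw [Function.update_of_ne (by simp [h]), if_neg h]

theorem par_congr' {P P' : Fin n → ℝ × ℝ} {a b : Fin n} (h1 : P a = P' a) (h2 : P (a + 1) = P' (a + 1))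
    (h3 : P b = P' b) (h4 : P (b + 1) = P' (b + 1)) : par P a b = par P' a b := by
  unfold par dir
  rw [h1, h2, h3, h4]

theorem par_update_y {V : Fin n × Fin 3 → ℝ} {v a b : Fin n} (t : ℝ) (h1 : a ≠ v) (h2 : a + 1 ≠ v) (h3 : b ≠ v)
    (h4 : b + 1 ≠ v) : par (shade (Function.update V (v, 1) t)) a b = par (shade V) a b := by
  apply par_congr' <;> rw [shade_update_y]
  · rw [if_neg h1]; rfl
  · rw [if_neg h2]; rfl
  · rw [if_neg h3]; rfl
  · rw [if_neg h4]; rfl

theorem par_update_x {V : Fin n × Fin 3 → ℝ} {v a b : Fin n} (t : ℝ) (h1 : a ≠ v) (h2 : a + 1 ≠ v) (h3 : b ≠ v)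
    (h4 : b + 1 ≠ v) : par (shade (Function.update V (v, 0) t)) a b = par (shade V) a b := by
  apply par_congr' <;> rw [shade_update_x]
  · rw [if_neg h1]; rfl
  · rw [if_neg h2]; rfl
  · rw [if_neg h3]; rfl
  · rw [if_neg h4]; rfl

theorem det_ne_of_cross {P : Fin n → ℝ × ℝ} {a b : Fin n} (h : Cross P a b) : det (dir P a) (dir P b) ≠ 0 := by
  intro h0
  have h1 := h.1.1
  unfold par at h1
  rw [h0, div_zero] at h1
  exact lt_irrefl _ h1

/-- the first coordinate of the crossing point -/
noncomputable def X1 (V : Fin n × Fin 3 → ℝ) (a b : Fin n) : ℝ :=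
  V (a, 0) + par (shade V) a b * (V (a + 1, 0) - V (a, 0))

/-- the second coordinate of the crossing point -/
noncomputable def X2 (V : Fin n × Fin 3 → ℝ) (a b : Fin n) : ℝ :=
  V (a, 1) + par (shade V) a b * (V (a + 1, 1) - V (a, 1))

theorem cramer (p1 p2 d1 d2 q1 q2 e1 e2 : ℝ) (hD : d1 * e2 - d2 * e1 ≠ 0) :
    p1 + ((q1 - p1) * e2 - (q2 - p2) * e1) / (d1 * e2 - d2 * e1) * d1 =
      q1 + ((p1 - q1) * d2 - (p2 - q2) * d1) / (e1 * d2 - e2 * d1) * e1 := by
  have e : e1 * d2 - e2 * d1 = -(d1 * e2 - d2 * e1) := by ring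
  rw [e, div_neg]
  generalize hg : d1 * e2 - d2 * e1 = D at hD ⊢
  field_simp
  rw [← hg]
  ring

theorem X1_eq {V : Fin n × Fin 3 → ℝ} {a b : Fin n} (h : Cross (shade V) a b) :
    X1 V a b = V (b, 0) + par (shade V) b a * (V (b + 1, 0) - V (b, 0)) :=
  cramer (V (a, 0)) (V (a, 1)) (V (a + 1, 0) - V (a, 0)) (V (a + 1, 1) - V (a, 1)) (V (b, 0)) (V (b, 1))
    (V (b + 1, 0) - V (b, 0)) (V (b + 1, 1) - V (b, 1)) (det_ne_of_cross h)

/-! ### null sets -/

theorem null1 {a b : Fin n} (hab : a ≠ b) : volume {V : Fin n × Fin 3 → ℝ | V (a, 0) = V (b, 0)} = 0 := by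
  apply null_of_coord (b, 0)
  · exact measurableSet_eq_fun (measurable_pi_apply _) (measurable_pi_apply _)
  · intro V t ht t' ht'
    simp only [Set.mem_ofPred_eq] at ht ht'
    have hne : ((a, 0) : Fin n × Fin 3) ≠ (b, 0) := by simp [hab]
    rw [Function.update_self, Function.update_of_ne hne] at ht ht'
    rw [← ht, ← ht']

theorem null2 {a b c : Fin n} (hac : a ≠ c) (hbc : b ≠ c) :
    volume {V : Fin n × Fin 3 → ℝ | V (a, 0) ≠ V (b, 0) ∧
      det (shade V b - shade V a) (shade V c - shade V a) = 0} = 0 := by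
  apply null_of_coord (c, 1)
  · have m1 : MeasurableSet {V : Fin n × Fin 3 → ℝ | V (a, 0) = V (b, 0)} :=
      measurableSet_eq_fun (measurable_pi_apply _) (measurable_pi_apply _)
    have m2 : Measurable (fun V : Fin n × Fin 3 → ℝ => det (shade V b - shade V a) (shade V c - shade V a)) :=
      meas_det (n := n) _ _ ((meas_shade b).sub (meas_shade a)) ((meas_shade c).sub (meas_shade a))
    have m3 : MeasurableSet {V : Fin n × Fin 3 → ℝ |
        det (shade V b - shade V a) (shade V c - shade V a) = 0} := measurableSet_eq_fun m2 measurable_const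
    exact m1.compl.inter m3
  · intro V t ht t' ht'
    simp only [Set.mem_ofPred_eq] at ht ht'
    rw [shade_update_y, shade_update_y, shade_update_y, if_pos rfl, if_neg hac, if_neg hbc,
      Function.update_of_ne (by simp), Function.update_of_ne (by simp)] at ht ht'
    unfold det at ht ht'
    simp only [Prod.mk_sub_mk] at ht ht'
    have h1 : (V (b, 0) - V (a, 0)) * (t - t') = 0 := by linear_combination ht.2 - ht'.2
    rcases mul_eq_zero.1 h1 with h2 | h2
    · exact absurd (sub_eq_zero.1 h2).symm ht.1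
    · exact sub_eq_zero.1 h2

theorem null3 (hn : 1 < n) (a b : Fin n) :
    volume {V : Fin n × Fin 3 → ℝ | Cross (shade V) a b ∧
      hgt (shade V) (height V) a b = hgt (shade V) (height V) b a} = 0 := by
  apply null_of_coord (a, 2)
  · exact (meas_cross a b).inter (measurableSet_eq_fun (meas_hgt _ _) (meas_hgt _ _))
  · intro V t ht t' ht'
    simp only [Set.mem_ofPred_eq] at ht ht'
    rw [shade_update_z] at ht ht'
    unfold hgt at ht ht'
    simp only [height_update_z] at ht ht'
    have hba : b ≠ a := ht.1.ne.symm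
    have hba1 : b + 1 ≠ a := by
      rintro rfl
      exact not_cross_succ (shade V) b ht.1.symm
    rw [if_neg (succ_ne hn), if_neg hba, if_neg hba1, if_pos trivial] at ht ht'
    have h1 : (1 - par (shade V) a b) * (t - t') = 0 := by linear_combination ht.2 - ht'.2
    rcases mul_eq_zero.1 h1 with h2 | h2
    · have := ht.1.1.2
      linarith
    · exact sub_eq_zero.1 h2

theorem meas_X1 (a b : Fin n) : Measurable (fun V : Fin n × Fin 3 → ℝ => X1 V a b) := by
  unfold X1
  exact (measurable_pi_apply _).add ((meas_par a b).mul ((measurable_pi_apply _).sub (measurable_pi_apply _)))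

theorem null5 {a b w : Fin n} (h1 : a ≠ w) (h2 : a + 1 ≠ w) (h3 : b ≠ w) (h4 : b + 1 ≠ w) :
    volume {V : Fin n × Fin 3 → ℝ | V (w, 0) = X1 V a b} = 0 := by
  apply null_of_coord (w, 0)
  · exact measurableSet_eq_fun (measurable_pi_apply _) (meas_X1 a b)
  · intro V t ht t' ht'
    simp only [Set.mem_ofPred_eq] at ht ht'
    unfold X1 at ht ht'
    rw [Function.update_self, par_update_x t h1 h2 h3 h4, Function.update_of_ne (by simp [h1]),
      Function.update_of_ne (by simp [h2])] at ht
    rw [Function.update_self, par_update_x t' h1 h2 h3 h4, Function.update_of_ne (by simp [h1]),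
      Function.update_of_ne (by simp [h2])] at ht'
    rw [ht, ht']

/-- three edges through one point -/
theorem concurrent {V : Fin n × Fin 3 → ℝ} {a b c : Fin n} (hc : Cross (shade V) a c)
    (h : par (shade V) a b = par (shade V) a c) :
    (V (c, 0) - X1 V a b) * (V (c + 1, 1) - V (c, 1)) - (V (c, 1) - X2 V a b) * (V (c + 1, 0) - V (c, 0)) = 0 := by
  have hD := det_ne_of_cross hc
  unfold X1 X2
  rw [h]
  have e : par (shade V) a c * det (dir (shade V) a) (dir (shade V) c) =
      det (shade V c - shade V a) (dir (shade V) c) := by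
    unfold par
    rw [div_mul_cancel₀ _ hD]
  unfold det dir at e
  simp only [shade, Prod.mk_sub_mk] at e
  unfold shade at hD
  linear_combination -e

theorem null4 {a b c : Fin n} (hn : 1 < n) (h1 : a ≠ c) (h2 : a + 1 ≠ c) (h3 : b ≠ c) (h4 : b + 1 ≠ c) :
    volume {V : Fin n × Fin 3 → ℝ | (Cross (shade V) a c ∧ par (shade V) a b = par (shade V) a c) ∧
      V (c + 1, 0) ≠ X1 V a b} = 0 := by
  apply null_of_coord (c, 1)
  · exact ((meas_cross a c).inter (measurableSet_eq_fun (meas_par _ _) (meas_par _ _))).inter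
      (measurableSet_eq_fun (measurable_pi_apply _) (meas_X1 a b)).compl
  · have key : ∀ (V : Fin n × Fin 3 → ℝ) (t : ℝ), Cross (shade (Function.update V (c, 1) t)) a c →
        par (shade (Function.update V (c, 1) t)) a b = par (shade (Function.update V (c, 1) t)) a c →
        (V (c, 0) - X1 V a b) * (V (c + 1, 1) - t) - (t - X2 V a b) * (V (c + 1, 0) - V (c, 0)) = 0 := by
      intro V t k1 k2
      have k3 := concurrent k1 k2
      unfold X1 X2 at k3 ⊢
      rw [par_update_y t h1 h2 h3 h4, Function.update_self, Function.update_of_ne (by simp),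
        Function.update_of_ne (by simp), Function.update_of_ne (by simp),
        Function.update_of_ne (by simp [succ_ne hn]), Function.update_of_ne (by simp [h1]),
        Function.update_of_ne (by simp [h2]), Function.update_of_ne (by simp)] at k3
      exact k3
    have key2 : ∀ (V : Fin n × Fin 3 → ℝ) (t : ℝ), X1 (Function.update V (c, 1) t) a b = X1 V a b := by
      intro V t
      unfold X1
      rw [par_update_y t h1 h2 h3 h4, Function.update_of_ne (by simp), Function.update_of_ne (by simp)]
    intro V t ht t' ht'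
    obtain ⟨⟨k1, k2⟩, k3⟩ := ht
    obtain ⟨⟨k1', k2'⟩, k3'⟩ := ht'
    rw [key2, Function.update_of_ne (by simp)] at k3
    have e1 := key V t k1 k2
    have e2 := key V t' k1' k2'
    have h5 : (V (c + 1, 0) - X1 V a b) * (t - t') = 0 := by linear_combination e2 - e1
    rcases mul_eq_zero.1 h5 with h6 | h6
    · exact absurd (sub_eq_zero.1 h6) k3
    · exact sub_eq_zero.1 h6

theorem null4' {a b c : Fin n} (hn : 1 < n) (h1 : a ≠ c + 1) (h2 : a + 1 ≠ c + 1) (h3 : b ≠ c + 1)
    (h4 : b + 1 ≠ c + 1) :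
    volume {V : Fin n × Fin 3 → ℝ | (Cross (shade V) a c ∧ par (shade V) a b = par (shade V) a c) ∧
      V (c, 0) ≠ X1 V a b} = 0 := by
  apply null_of_coord (c + 1, 1)
  · exact ((meas_cross a c).inter (measurableSet_eq_fun (meas_par _ _) (meas_par _ _))).inter
      (measurableSet_eq_fun (measurable_pi_apply _) (meas_X1 a b)).compl
  · have key : ∀ (V : Fin n × Fin 3 → ℝ) (t : ℝ), Cross (shade (Function.update V (c + 1, 1) t)) a c →
        par (shade (Function.update V (c + 1, 1) t)) a b = par (shade (Function.update V (c + 1, 1) t)) a c →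
        (V (c, 0) - X1 V a b) * (t - V (c, 1)) - (V (c, 1) - X2 V a b) * (V (c + 1, 0) - V (c, 0)) = 0 := by
      intro V t k1 k2
      have k3 := concurrent k1 k2
      unfold X1 X2 at k3 ⊢
      rw [par_update_y t h1 h2 h3 h4, Function.update_self, Function.update_of_ne (by simp),
        Function.update_of_ne (by simp), Function.update_of_ne (by simp),
        Function.update_of_ne (by simp [(succ_ne hn).symm]), Function.update_of_ne (by simp [h1]),
        Function.update_of_ne (by simp [h2]), Function.update_of_ne (by simp)] at k3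
      exact k3
    have key2 : ∀ (V : Fin n × Fin 3 → ℝ) (t : ℝ), X1 (Function.update V (c + 1, 1) t) a b = X1 V a b := by
      intro V t
      unfold X1
      rw [par_update_y t h1 h2 h3 h4, Function.update_of_ne (by simp), Function.update_of_ne (by simp)]
    intro V t ht t' ht'
    obtain ⟨⟨k1, k2⟩, k3⟩ := ht
    obtain ⟨⟨k1', k2'⟩, k3'⟩ := ht'
    rw [key2, Function.update_of_ne (by simp)] at k3
    have e1 := key V t k1 k2
    have e2 := key V t' k1' k2'
    have h5 : (V (c, 0) - X1 V a b) * (t - t') = 0 := by linear_combination e1 - e2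
    rcases mul_eq_zero.1 h5 with h6 | h6
    · exact absurd (sub_eq_zero.1 h6) k3
    · exact sub_eq_zero.1 h6

/-- Almost all polygons are in general position, and the edges have different heights over their crossings. -/
theorem ae_general (hn : 2 < n) : ∀ᵐ V : Fin n × Fin 3 → ℝ, General (shade V) ∧
    ∀ a b, Cross (shade V) a b → hgt (shade V) (height V) a b ≠ hgt (shade V) (height V) b a := by
  have n1 : 1 < n := by omega
  have a1 : ∀ᵐ V : Fin n × Fin 3 → ℝ, ∀ a b : Fin n, a ≠ b → V (a, 0) ≠ V (b, 0) := by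
    rw [ae_all_iff]; intro a; rw [ae_all_iff]; intro b
    by_cases h : a = b
    · exact Filter.Eventually.of_forall fun V hne => absurd h hne
    · have := null1 (n := n) h
      rw [ae_iff]
      refine measure_mono_null ?_ this
      intro V hV
      simp only [Set.mem_ofPred_eq] at hV ⊢
      push Not at hV
      exact hV.2
  have a2 : ∀ᵐ V : Fin n × Fin 3 → ℝ, ∀ a b c : Fin n, a ≠ c → b ≠ c →
      ¬ (V (a, 0) ≠ V (b, 0) ∧ det (shade V b - shade V a) (shade V c - shade V a) = 0) := by
    rw [ae_all_iff]; intro a; rw [ae_all_iff]; intro b; rw [ae_all_iff]; intro c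
    by_cases h : a ≠ c ∧ b ≠ c
    · have := null2 (n := n) h.1 h.2
      rw [ae_iff]
      refine measure_mono_null ?_ this
      intro V hV
      simp only [Set.mem_ofPred_eq] at hV ⊢
      push Not at hV
      exact hV.2.2
    · exact Filter.Eventually.of_forall fun V h1 h2 => absurd ⟨h1, h2⟩ h
  have a3 : ∀ᵐ V : Fin n × Fin 3 → ℝ, ∀ a b : Fin n,
      Cross (shade V) a b → hgt (shade V) (height V) a b ≠ hgt (shade V) (height V) b a := by
    rw [ae_all_iff]; intro a; rw [ae_all_iff]; intro b
    have := null3 n1 a b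
    rw [ae_iff]
    refine measure_mono_null ?_ this
    intro V hV
    simp only [Set.mem_ofPred_eq] at hV ⊢
    push Not at hV
    exact hV
  have a4 : ∀ᵐ V : Fin n × Fin 3 → ℝ, ∀ a b c : Fin n, a ≠ c → a + 1 ≠ c → b ≠ c → b + 1 ≠ c →
      ¬ ((Cross (shade V) a c ∧ par (shade V) a b = par (shade V) a c) ∧ V (c + 1, 0) ≠ X1 V a b) := by
    rw [ae_all_iff]; intro a; rw [ae_all_iff]; intro b; rw [ae_all_iff]; intro c
    by_cases h : a ≠ c ∧ a + 1 ≠ c ∧ b ≠ c ∧ b + 1 ≠ c
    · have := null4 (n := n) n1 h.1 h.2.1 h.2.2.1 h.2.2.2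
      rw [ae_iff]
      refine measure_mono_null ?_ this
      intro V hV
      simp only [Set.mem_ofPred_eq] at hV ⊢
      push Not at hV
      exact hV.2.2.2.2
    · exact Filter.Eventually.of_forall fun V h1 h2 h3 h4 => absurd ⟨h1, h2, h3, h4⟩ h
  have a4' : ∀ᵐ V : Fin n × Fin 3 → ℝ, ∀ a b c : Fin n, a ≠ c + 1 → a + 1 ≠ c + 1 → b ≠ c + 1 → b + 1 ≠ c + 1 →
      ¬ ((Cross (shade V) a c ∧ par (shade V) a b = par (shade V) a c) ∧ V (c, 0) ≠ X1 V a b) := by
    rw [ae_all_iff]; intro a; rw [ae_all_iff]; intro b; rw [ae_all_iff]; intro c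
    by_cases h : a ≠ c + 1 ∧ a + 1 ≠ c + 1 ∧ b ≠ c + 1 ∧ b + 1 ≠ c + 1
    · have := null4' (n := n) n1 h.1 h.2.1 h.2.2.1 h.2.2.2
      rw [ae_iff]
      refine measure_mono_null ?_ this
      intro V hV
      simp only [Set.mem_ofPred_eq] at hV ⊢
      push Not at hV
      exact hV.2.2.2.2
    · exact Filter.Eventually.of_forall fun V h1 h2 h3 h4 => absurd ⟨h1, h2, h3, h4⟩ h
  have a5 : ∀ᵐ V : Fin n × Fin 3 → ℝ, ∀ a b w : Fin n, a ≠ w → a + 1 ≠ w → b ≠ w → b + 1 ≠ w →
      V (w, 0) ≠ X1 V a b := by
    rw [ae_all_iff]; intro a; rw [ae_all_iff]; intro b; rw [ae_all_iff]; intro w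
    by_cases h : a ≠ w ∧ a + 1 ≠ w ∧ b ≠ w ∧ b + 1 ≠ w
    · have := null5 (n := n) h.1 h.2.1 h.2.2.1 h.2.2.2
      rw [ae_iff]
      refine measure_mono_null ?_ this
      intro V hV
      simp only [Set.mem_ofPred_eq] at hV ⊢
      push Not at hV
      exact hV.2.2.2.2
    · exact Filter.Eventually.of_forall fun V h1 h2 h3 h4 => absurd ⟨h1, h2, h3, h4⟩ h
  filter_upwards [a1, a2, a3, a4, a4', a5] with V b1 b2 b3 b4 b4' b5
  refine ⟨⟨fun a b c hab hac hbc h0 => b2 a b c hac hbc ⟨b1 a b hab, h0⟩, ?_⟩, b3⟩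
  intro a b c hab hac hbc hpar
  have k1 : a ≠ c := hac.ne
  have k2 : a + 1 ≠ c := by
    rintro rfl
    exact not_cross_succ _ a hac
  have k3 : a ≠ c + 1 := by
    rintro rfl
    exact not_cross_succ _ c hac.symm
  have k4 : a + 1 ≠ c + 1 := fun e => k1 (add_right_cancel e)
  have hX := X1_eq hab
  have hs := hab.2
  have hb := b1 b (b + 1) (succ_ne n1).symm
  by_cases h : b + 1 = c
  · refine b4' a b c k3 k4 ?_ ?_ ⟨⟨hac, hpar⟩, ?_⟩
    · rw [← h]
      exact (succ_succ_ne hn).symm
    · exact fun e => hbc (add_right_cancel e)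
    · rw [hX, ← h]
      intro e
      have e2 : (1 - par (shade V) b a) * (V (b + 1, 0) - V (b, 0)) = 0 := by linear_combination e
      rcases mul_eq_zero.1 e2 with h5 | h5
      · linarith
      · exact hb (sub_eq_zero.1 h5).symm
  · refine b4 a b c k1 k2 hbc h ⟨⟨hac, hpar⟩, ?_⟩
    by_cases h' : b = c + 1
    · rw [hX, ← h']
      intro e
      have e2 : par (shade V) b a * (V (b + 1, 0) - V (b, 0)) = 0 := by linear_combination -e
      rcases mul_eq_zero.1 e2 with h5 | h5
      · linarith
      · exact hb (sub_eq_zero.1 h5).symm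
    · exact b5 a b (c + 1) k3 k4 h' (fun e => hbc (add_right_cancel e))

end Pool.Agent.V8H81.Urp
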