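import Pool.Agent.V8H81.Urp.Near

/-!
# Special crossings are mostly isolated
-/

set_option autoImplicit false

namespace Pool.Agent.V8H81.Urp

open Finset

variable {n : ℕ} [NeZero n] {H : ℕ}

/-- there is another crossing with a static edge, on the edges at the vertex `i`, whose threshold is near -/
def Conf {ι : Type} (L : Lay n ι) (u : Co n → ℝ) (r : ℕ) (i j : Fin n) (ω : Co n → Fin H) : Prop :=
  ∃ e g, (e = i ∨ e + 1 = i) ∧ Cross (PP u ω) e g ∧ ¬ L.me g ∧ ¬ (e = i ∧ g = j) ∧
    |tau (PP u ω) (uz u) (kz ω) i e g - tau (PP u ω) (uz u) (kz ω) i i j| < 2 * r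

theorem thr_near {x y : ℝ} {r : ℕ} (h : |⌈x⌉ - ⌈y⌉| < (2 * r : ℤ)) : |x - y| < 2 * r + 1 := by
  have h1 : |((⌈x⌉ - ⌈y⌉ : ℤ) : ℝ)| < 2 * r := by
    have : ((|⌈x⌉ - ⌈y⌉| : ℤ) : ℝ) < ((2 * r : ℤ) : ℝ) := by exact_mod_cast h
    push_cast at this ⊢
    exact this
  push_cast at h1
  have h2 := Int.le_ceil x
  have h3 := Int.le_ceil y
  have h4 := Int.ceil_lt_add_one x
  have h5 := Int.ceil_lt_add_one y
  rw [abs_lt] at h1 ⊢
  constructor <;> linarith

theorem Pr_false {κ : Type} [Fintype κ] [DecidableEq κ] {A : (κ → Fin H) → Prop} (h : ∀ ω, ¬ A ω) : Pr A = 0 := by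
  classical
  unfold Pr
  rw [Finset.filter_false_of_mem (fun ω _ => h ω)]
  simp

variable {ι : Type} {L : Lay n ι} {u : Co n → ℝ} {r : ℕ} (hu : ∀ c, 0 ≤ u c ∧ u c < 1)

include hu

theorem Pr_conf (hn : 2 < n) (hH : 0 < H) (hr : 0 < r) {i j : Fin n} (hi : L.mo i) (hij : i ≠ j)
    (hij1 : i + 1 ≠ j) (hji1 : j + 1 ≠ i) (hfar : j + 1 + 1 ≠ i) :
    Pr (fun ω : Co n → Fin H => (Wp i ω ∧ Vp j ω) ∧ Conf L u r i j ω) ≤ 62 * n * r / H := by
  set E : Bool × Fin n → (Co n → Fin H) → Prop := fun x ω =>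
    (x.2 ≠ i ∧ x.2 + 1 ≠ i ∧ ¬ ((if x.1 then i else i - 1) = i ∧ x.2 = j)) ∧ (Wp i ω ∧ Vp j ω) ∧
      |thr (PP u ω) (uz u) (kz ω) i (if x.1 then i else i - 1) x.2 - thr (PP u ω) (uz u) (kz ω) i i j| <
        2 * r + 1 with hE
  have h1 : Pr (fun ω : Co n → Fin H => (Wp i ω ∧ Vp j ω) ∧ Conf L u r i j ω) ≤
      Pr (fun ω => ∃ x ∈ (Finset.univ : Finset (Bool × Fin n)), E x ω) := by
    apply Pr_mono
    rintro ω ⟨h2, e, g, h3, -, h4, h5, h6⟩
    have hgi : g ≠ i := by
      rintro rfl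
      exact h4 (Or.inl hi)
    have hgi1 : g + 1 ≠ i := by
      rintro rfl
      exact h4 (Or.inr hi)
    have h7 := thr_near h6
    by_cases he : e = i
    · refine ⟨(true, g), Finset.mem_univ _, ?_⟩
      rw [he] at h7 h5
      exact ⟨⟨hgi, hgi1, by simpa using h5⟩, h2, by simpa using h7⟩
    · refine ⟨(false, g), Finset.mem_univ _, ?_⟩
      have he1 : e = i - 1 := eq_sub_of_add_eq (h3.resolve_left he)
      rw [he1] at h7 h5
      exact ⟨⟨hgi, hgi1, by simpa using h5⟩, h2, by simpa using h7⟩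
  refine h1.trans ((Pr_exists _ _).trans ?_)
  have h2 : ∀ x ∈ (Finset.univ : Finset (Bool × Fin n)), Pr (E x) ≤ 31 * r / H := by
    rintro ⟨b, g⟩ -
    by_cases hs : g ≠ i ∧ g + 1 ≠ i ∧ ¬ ((if b = true then i else i - 1) = i ∧ g = j)
    · refine (Pr_mono (B := fun ω : Co n → Fin H => (Wp i ω ∧ Vp j ω) ∧
        |thr (PP u ω) (uz u) (kz ω) i (if b then i else i - 1) g - thr (PP u ω) (uz u) (kz ω) i i j| <
          2 * r + 1) ?_).trans
        (Pr_conf1 hu hn hH hr hij hij1 hji1 hfar ?_ hs.1 hs.2.1 hs.2.2)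
      · intro ω h3
        exact h3.2
      · cases b
        · right
          simp
        · left
          simp
    · have h3 : Pr (E (b, g)) = 0 := Pr_false (fun ω h4 => hs h4.1)
      rw [h3]
      positivity
  refine (Finset.sum_le_sum h2).trans (le_of_eq ?_)
  rw [Finset.sum_const, Finset.card_univ, Fintype.card_prod, Fintype.card_bool, Fintype.card_fin, nsmul_eq_mul]
  push_cast
  ring

theorem iso_special (hn : 1 < n) (hH : 128 ≤ H) (hr : 4 * r ≤ H) {i j : Fin n} (hpt : L.pt i j)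
    {ω : Co n → Fin H} (hW : Wp i ω) (hV : Vp j ω) (hC : ¬ Conf L u r i j ω) :
    Iso L (PP u ω) (uz u) r (kz ω) i j := by
  have h1 := special_thr hu hH (succ_ne hn) (succ_ne hn) hW hV
  have h2 : (4 * r : ℝ) ≤ H := by exact_mod_cast hr
  refine ⟨hpt, special_cross hu (by omega) (succ_ne hn) (succ_ne hn) hW hV, ?_, ?_, ?_⟩
  · have h3 : ((r : ℤ) : ℝ) ≤ ((tau (PP u ω) (uz u) (kz ω) i i j : ℤ) : ℝ) := by
      unfold tau
      have := Int.le_ceil (thr (PP u ω) (uz u) (kz ω) i i j)
      push_cast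
      linarith
    exact_mod_cast h3
  · have h3 : ((tau (PP u ω) (uz u) (kz ω) i i j + r : ℤ) : ℝ) ≤ ((H : ℤ) : ℝ) := by
      unfold tau
      have := Int.ceil_lt_add_one (thr (PP u ω) (uz u) (kz ω) i i j)
      push_cast
      linarith
    exact_mod_cast h3
  · intro e g h3 h4 h5 h6
    by_contra h7
    exact hC ⟨e, g, h3, h4, h5, h6, not_le.1 h7⟩

omit hu

section sums

variable {M m0 m1 : ℕ} (h : Siz n M m0 m1) (s : Bool)

open Classical in
/-- the number of the special edges at moving vertices -/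
noncomputable def AA (ω : Co n → Fin H) : ℕ := (Finset.univ.filter (fun a : Fin M => Wp (ii h s a) ω)).card

open Classical in
/-- the number of the special static edges -/
noncomputable def KK (ω : Co n → Fin H) : ℕ := (Finset.univ.filter (fun b : Fin m1 => Vp (jj h s b) ω)).card

open Classical in
/-- the number of the conflicts at one vertex -/
noncomputable def CC (u : Co n → ℝ) (r : ℕ) (a : Fin M) (ω : Co n → Fin H) : ℕ :=
  (Finset.univ.filter (fun b : Fin m1 => (Wp (ii h s a) ω ∧ Vp (jj h s b) ω) ∧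
    Conf (lay h) u r (ii h s a) (jj h s b) ω)).card

open Classical in
/-- the indicator of activity -/
noncomputable def ff (u : Co n → ℝ) (r : ℕ) (a : Fin M) (ω : Co n → Fin H) : ℝ :=
  if ∃ j, Act (lay h) (PP u ω) (uz u) r (kz ω) (ii h s a) j then 1 else 0

include hu in
open Classical in
theorem ff_sum (hn : 1 < n) (hH : 128 ≤ H) (hr : 4 * r ≤ H) (a : Fin M) (ω : Co n → Fin H) :
    2 * (r : ℝ) * ((if Wp (ii h s a) ω then (KK h s ω : ℝ) else 0) - CC h s u r a ω) ≤
      ∑ c : Fin H, ff h s u r a (Function.update ω (Sum.inr (ii h s a)) c) := by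
  have h0 : (0:ℝ) ≤ ∑ c : Fin H, ff h s u r a (Function.update ω (Sum.inr (ii h s a)) c) := by
    apply Finset.sum_nonneg
    intro c _
    unfold ff
    split_ifs <;> norm_num
  by_cases hW : Wp (ii h s a) ω
  · rw [if_pos hW]
    set J : Finset (Fin m1) := Finset.univ.filter (fun b : Fin m1 => Vp (jj h s b) ω ∧
      ¬ Conf (lay h) u r (ii h s a) (jj h s b) ω) with hJ
    have h1 : KK h s ω ≤ J.card + CC h s u r a ω := by
      unfold KK CC
      refine le_trans (Finset.card_le_card ?_) (Finset.card_union_le _ _)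
      intro b hb
      simp only [hJ, Finset.mem_filter, Finset.mem_univ, true_and, Finset.mem_union] at hb ⊢
      by_cases hc : Conf (lay h) u r (ii h s a) (jj h s b) ω
      · exact Or.inr ⟨⟨hW, hb⟩, hc⟩
      · exact Or.inl ⟨hb, hc⟩
    have h2 := card_act (L := lay h) (P := PP u ω) (u := uz u) (r := r) (k := kz ω) (i := ii h s a)
      (ii_mo h s a) (J.image (jj h s)) (by
        intro j hj
        obtain ⟨b, hb, rfl⟩ := Finset.mem_image.1 hj
        simp only [hJ, Finset.mem_filter, Finset.mem_univ, true_and] at hb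
        exact iso_special hu hn hH hr (pt_ij h s a b) hW hb.1 hb.2)
    rw [Finset.card_image_of_injective _ (jj_inj h s)] at h2
    have h3 : ∑ c : Fin H, ff h s u r a (Function.update ω (Sum.inr (ii h s a)) c) =
        ((Finset.univ.filter (fun c : Fin H => ∃ j, Act (lay h) (PP u ω) (uz u) r
          (Function.update (kz ω) (ii h s a) c) (ii h s a) j)).card : ℝ) := by
      rw [Finset.card_filter]
      push_cast
      refine Finset.sum_congr rfl fun c _ => ?_
      unfold ff
      rw [PP_update, kz_update]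
    rw [h3]
    have h4 : (KK h s ω : ℝ) - CC h s u r a ω ≤ J.card := by
      have : (KK h s ω : ℝ) ≤ ((J.card + CC h s u r a ω : ℕ) : ℝ) := by exact_mod_cast h1
      push_cast at this
      linarith
    calc 2 * (r : ℝ) * ((KK h s ω : ℝ) - CC h s u r a ω) ≤ 2 * r * J.card := by gcongr
      _ ≤ _ := by exact_mod_cast h2
  · rw [if_neg hW]
    have : (0:ℝ) ≤ 2 * (r : ℝ) * CC h s u r a ω := by positivity
    linarith

include hu in
theorem ff_total (hn : 1 < n) (hH : 128 ≤ H) (hr : 4 * r ≤ H) (ω : Co n → Fin H) :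
    2 * (r : ℝ) * ((AA h s ω : ℝ) * KK h s ω - ∑ a : Fin M, (CC h s u r a ω : ℝ)) / H ≤
      ∑ a : Fin M, (∑ c : Fin H, ff h s u r a (Function.update ω (Sum.inr (ii h s a)) c)) / H := by
  classical
  have h1 := Finset.sum_le_sum (fun a (_ : a ∈ (Finset.univ : Finset (Fin M))) =>
    ff_sum (u := u) hu h s hn hH hr a ω)
  rw [← Finset.mul_sum, Finset.sum_sub_distrib, ← Finset.sum_filter, Finset.sum_const, nsmul_eq_mul] at h1
  rw [← Finset.sum_div]
  apply div_le_div_of_nonneg_right _ (Nat.cast_nonneg _)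
  unfold AA
  exact h1

theorem ff_bounds (u : Co n → ℝ) (r : ℕ) (a : Fin M) (ω : Co n → Fin H) :
    0 ≤ ff h s u r a ω ∧ ff h s u r a ω ≤ 1 := by
  unfold ff
  split_ifs <;> norm_num

theorem ff_dep (u : Co n → ℝ) (r : ℕ) (a b : Fin M) (hab : a ≠ b) (ω : Co n → Fin H) (x : Fin H) :
    ff h s u r b (Function.update ω (Sum.inr (ii h s a)) x) = ff h s u r b ω := by
  have h1 : ∀ j, Act (lay h) (PP u ω) (uz u) r (Function.update (kz ω) (ii h s a) x) (ii h s b) j ↔
      Act (lay h) (PP u ω) (uz u) r (kz ω) (ii h s b) j := by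
    intro j
    apply act_dep
    · intro c hc
      rw [Function.update_of_ne]
      rintro rfl
      exact hc (ii_mo h s a)
    · exact ii_mo h s b
    · rw [Function.update_of_ne]
      exact fun e => hab (ii_inj h s e).symm
  have h2 := exists_congr h1
  unfold ff
  rw [PP_update, kz_update]
  by_cases h3 : ∃ j, Act (lay h) (PP u ω) (uz u) r (kz ω) (ii h s b) j
  · rw [if_pos h3, if_pos (h2.2 h3)]
  · rw [if_neg h3, if_neg (fun h4 => h3 (h2.1 h4))]

include hu in
theorem Ex_CC (hn : 2 < n) (hH : 0 < H) (hr : 0 < r) :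
    Ex (fun ω : Co n → Fin H => ∑ a : Fin M, (CC h s u r a ω : ℝ)) ≤ M * m1 * (62 * n * r / H) := by
  classical
  have e : ∀ a : Fin M, ∀ ω : Co n → Fin H, (CC h s u r a ω : ℝ) = ∑ b : Fin m1,
      if (Wp (ii h s a) ω ∧ Vp (jj h s b) ω) ∧ Conf (lay h) u r (ii h s a) (jj h s b) ω then (1:ℝ) else 0 := by
    intro a ω
    unfold CC
    rw [Finset.card_filter]
    push_cast
    refine Finset.sum_congr rfl fun b _ => ?_
    congr
  simp only [e]
  rw [Ex_sum]
  have h1 : ∀ a ∈ (Finset.univ : Finset (Fin M)), Ex (fun ω : Co n → Fin H => ∑ b : Fin m1,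
      if (Wp (ii h s a) ω ∧ Vp (jj h s b) ω) ∧ Conf (lay h) u r (ii h s a) (jj h s b) ω then (1:ℝ) else 0) ≤
        m1 * (62 * n * r / H) := by
    intro a _
    rw [Ex_sum]
    have h2 : ∀ b ∈ (Finset.univ : Finset (Fin m1)), Ex (fun ω : Co n → Fin H =>
      if (Wp (ii h s a) ω ∧ Vp (jj h s b) ω) ∧ Conf (lay h) u r (ii h s a) (jj h s b) ω then (1:ℝ) else 0) ≤
        62 * n * r / H := by
      intro b _
      rw [← Pr_eq]
      have hlt : ii h s a < jj h s b := (lay h).lt _ _ (pt_ij h s a b)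
      have hst := (lay h).sta _ _ (pt_ij h s a b) (knd M s a)
      apply Pr_conf hu hn hH hr (ii_mo h s a) hlt.ne
      · -- i + 1 ≠ j
        intro e
        have h5 := congrArg Fin.val e
        have h6 := ii_val h s a
        have h7 := jj_val h s b
        have h8 := (lay h).sta _ _ (pt_ij h s a b)
        have h9 := h.h1
        have h10 := h.h3
        have h11 := a.2
        have h12 := h.h4
        have h13 : ((ii h s a : Fin n) : ℕ) + 1 < n := by
          rw [h6]
          unfold mvn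
          cases s <;> simp <;> omega
        rw [succ_val h13, h6, h7] at h5
        unfold mvn ptn at h5
        cases s <;> simp at h5 <;> omega
      · exact fun e => hst.2 e.symm
      · exact jj_far h s a b
    refine (Finset.sum_le_sum h2).trans (le_of_eq ?_)
    rw [Finset.sum_const, Finset.card_univ, Fintype.card_fin, nsmul_eq_mul]
  refine (Finset.sum_le_sum h1).trans (le_of_eq ?_)
  rw [Finset.sum_const, Finset.card_univ, Fintype.card_fin, nsmul_eq_mul]
  ring

theorem Pr_AA (hH : 128 ≤ H) (hM : 0 < M) :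
    Pr (fun ω : Co n → Fin H => (AA h s ω : ℝ) < p0 * M / 2) ≤ 4 / (p0 * M) := by
  classical
  have key := chebyshev (κ := Co n) (H := H) (by omega) (fun a : Fin M => GW H (ii h s a)) ?_ p0_pos hM
    (fun a => Pr_W hH _)
  · unfold AA
    exact key
  · intro a b hab c
    have := cof_disj (i := ii h s a) (j := ii h s b) (fun e => hab (ii_inj h s e)) (ii_sep h s a b)
      (ii_sep h s b a) c
    rcases this with h1 | h1
    · exact Or.inl (GW_univ h1)
    · exact Or.inr (GW_univ h1)

theorem Pr_KK (hH : 128 ≤ H) (hm : 0 < m1) :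
    Pr (fun ω : Co n → Fin H => (KK h s ω : ℝ) < p0 * m1 / 2) ≤ 4 / (p0 * m1) := by
  classical
  have key := chebyshev (κ := Co n) (H := H) (by omega) (fun a : Fin m1 => GV H (jj h s a)) ?_ p0_pos hm
    (fun a => Pr_V hH _)
  · unfold KK
    exact key
  · intro a b hab c
    have := cof_disj (i := jj h s a) (j := jj h s b) (fun e => hab (jj_inj h s e)) (jj_sep h s a b)
      (jj_sep h s b a) c
    rcases this with h1 | h1
    · exact Or.inl (GV_univ h1)
    · exact Or.inr (GV_univ h1)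

end sums

end Pool.Agent.V8H81.Urp
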