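import Pool.Agent.V8H81.Urp.Move

/-!
# Counting the heights with a given value of the invariant
-/

set_option autoImplicit false

namespace Pool.Agent.V8H81.Urp

open Finset LaurentPolynomial Pool.Agent.H891R2.Jones Pool.Agent.H832R3.VJ Pool.Agent.R811
  Pool.Agent.V8H81.Rnd
open Pool.Agent.R811.Cross hiding sg

variable {n : ℕ} [NeZero n] {H : ℕ} {P : Fin n → ℝ × ℝ} {u : Fin n → ℝ} {r : ℕ}

section

variable {ι : Type} [DecidableEq ι] {L : Lay n ι}

theorem S_mov_update (h : General P) {k : Fin n → Fin H} (hk : NoNear L P u r k) (hr : 0 < r)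
    {t : ι} {j : Fin n} (hj : Act L P u r k (L.mv t) j) {x : Fin (dps P).card}
    (hx : dp P x = (L.mv t, j)) (ε : ι → Bool) (b : Bool) :
    S P h (zz u (mov L P u r (Function.update ε t b) k)) =
      Function.update (S P h (zz u (mov L P u r ε k))) x (xor (S P h (zz u k) x) b) := by
  classical
  funext y
  by_cases hy : y = x
  · subst hy
    rw [Function.update_self]
    have h1 := low_active (Function.update ε t b) hj
    rw [Function.update_self] at h1
    unfold S
    rw [hx]
    exact Layered.ite_flip _ _ _ _ h1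
  · rw [Function.update_of_ne hy]
    unfold S
    have key : (hgt P (zz u (mov L P u r (Function.update ε t b) k)) (dp P y).1 (dp P y).2 <
        hgt P (zz u (mov L P u r (Function.update ε t b) k)) (dp P y).2 (dp P y).1) ↔
        (hgt P (zz u (mov L P u r ε k)) (dp P y).1 (dp P y).2 <
        hgt P (zz u (mov L P u r ε k)) (dp P y).2 (dp P y).1) := by
      by_cases hs : ∃ s, Act L P u r k (L.mv s) (dp P y).2 ∧ (dp P y).1 = L.mv s
      · obtain ⟨s, hs1, hs2⟩ := hs
        have hst : s ≠ t := by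
          rintro rfl
          have := hs1.unique hj
          exact hy (dp_inj P (by rw [hx]; exact Prod.ext hs2 this))
        rw [hs2, low_active _ hs1, low_active _ hs1, Function.update_of_ne hst]
      · have hna : ∀ s, Act L P u r k (L.mv s) (dp P y).2 → (dp P y).1 ≠ L.mv s :=
          fun s h1 h2 => hs ⟨s, h1, h2⟩
        rw [low_same hk hr _ (dp_lt P y) (dp_cross P y) hna,
          low_same hk hr _ (dp_lt P y) (dp_cross P y) hna]
    simp only [key]

end

variable {M : ℕ}

/-- the order of the moving vertices and the used edges -/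
def Lay.Ordered (L : Lay n (Fin M ⊕ Fin M)) : Prop :=
  ∀ a b j j', L.pt (L.mv (Sum.inl a)) j → L.pt (L.mv (Sum.inr b)) j' →
    L.mv (Sum.inl a) < L.mv (Sum.inr b) ∧ L.mv (Sum.inr b) < j ∧ j < j'

variable {L : Lay n (Fin M ⊕ Fin M)}

open Classical in
/-- the active vertices of one kind -/
noncomputable def actives (L : Lay n (Fin M ⊕ Fin M)) (P : Fin n → ℝ × ℝ) (u : Fin n → ℝ) (r : ℕ)
    (s : Fin M → Fin M ⊕ Fin M) (k : Fin n → Fin H) : Finset (Fin M) :=
  Finset.univ.filter (fun a => ∃ j, Act L P u r k (L.mv (s a)) j)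

theorem F_lift (h : General P) (z : Fin n → ℝ) :
    F (layered P h).toShadow (S P h z) = moment 2 (lift P h z).fPoly := by
  unfold F
  rw [lift_eq]

theorem cube_bound (h : General P) (ho : L.Ordered) {k : Fin n → Fin H} (hk : NoNear L P u r k)
    (hr : 0 < r) {ν : ℕ} (h1 : ν ≤ (actives L P u r Sum.inl k).card)
    (h2 : ν ≤ (actives L P u r Sum.inr k).card) (c : ℤ) :
    (ν : ℤ) * ((Finset.univ.filter (fun ε : Fin M ⊕ Fin M → Bool =>
      F (layered P h).toShadow (S P h (zz u (mov L P u r ε k))) = c)).card : ℤ) ^ 4 ≤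
      162 * 16 ^ (2 * M) := by
  classical
  set fw : Fin ν ↪o Fin M := Finset.orderEmbOfCardLe _ h1 with hfw
  set fu : Fin ν ↪o Fin M := Finset.orderEmbOfCardLe _ h2 with hfu
  have mw : ∀ x, fw x ∈ actives L P u r Sum.inl k := fun x => Finset.orderEmbOfCardLe_mem _ _ x
  have mu : ∀ x, fu x ∈ actives L P u r Sum.inr k := fun x => Finset.orderEmbOfCardLe_mem _ _ x
  have aw : ∀ x, ∃ j, Act L P u r k (L.mv (Sum.inl (fw x))) j := fun x => (Finset.mem_filter.1 (mw x)).2
  have au : ∀ x, ∃ j, Act L P u r k (L.mv (Sum.inr (fu x))) j := fun x => (Finset.mem_filter.1 (mu x)).2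
  choose jw hjw using aw
  choose ju hju using au
  have ew : ∀ x, ∃ y, dp P y = (L.mv (Sum.inl (fw x)), jw x) := by
    intro x
    obtain ⟨y, hy⟩ := exists_dp P (hjw x).1.2.1
    refine ⟨y, ?_⟩
    have hlt := L.lt _ _ (hjw x).1.1
    rw [hy, min_eq_left hlt.le, max_eq_right hlt.le]
  have eu : ∀ x, ∃ y, dp P y = (L.mv (Sum.inr (fu x)), ju x) := by
    intro x
    obtain ⟨y, hy⟩ := exists_dp P (hju x).1.2.1
    refine ⟨y, ?_⟩
    have hlt := L.lt _ _ (hju x).1.1
    rw [hy, min_eq_left hlt.le, max_eq_right hlt.le]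
  choose iw hiw using ew
  choose iu hiu using eu
  have key := cube_abs (layered P h).toShadow
    (fun ε : Fin M ⊕ Fin M → Bool => S P h (zz u (mov L P u r ε k)))
    (fun x => Sum.inr (fu x)) (fun x => Sum.inl (fw x)) ?_ iu iw
    (fun x => S P h (zz u k) (iu x)) (fun x => S P h (zz u k) (iw x)) ?_ ?_ ?_ ?_ c
  · rw [Fintype.card_sum, Fintype.card_fin, ← two_mul] at key
    exact key
  · rintro (x | x) (y | y) hxy
    · simp only [Sum.elim_inl, Sum.inr.injEq] at hxy
      rw [fu.injective hxy]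
    · simp at hxy
    · simp at hxy
    · simp only [Sum.elim_inr, Sum.inl.injEq] at hxy
      rw [fw.injective hxy]
  · intro x ε b
    exact S_mov_update h hk hr (hju x) (hiu x) ε b
  · intro x ε b
    exact S_mov_update h hk hr (hjw x) (hiw x) ε b
  · rintro (x | x) (y | y) hxy
    · simp only [Sum.elim_inl] at hxy
      have := congrArg (dp P) hxy
      rw [hiu, hiu] at this
      have h3 := Sum.inr.inj (L.inj (congrArg Prod.fst this))
      rw [fu.injective h3]
    · simp only [Sum.elim_inl, Sum.elim_inr] at hxy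
      have := congrArg (dp P) hxy
      rw [hiu, hiw] at this
      have h3 := L.inj (congrArg Prod.fst this)
      simp at h3
    · simp only [Sum.elim_inl, Sum.elim_inr] at hxy
      have := congrArg (dp P) hxy
      rw [hiu, hiw] at this
      have h3 := L.inj (congrArg Prod.fst this)
      simp at h3
    · simp only [Sum.elim_inr] at hxy
      have := congrArg (dp P) hxy
      rw [hiw, hiw] at this
      have h3 := Sum.inl.inj (L.inj (congrArg Prod.fst this))
      rw [fw.injective h3]
  · intro x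
    obtain ⟨o1, o2, o3⟩ := ho (fw x) (fu x) (jw x) (ju x) (hjw x).1.1 (hju x).1.1
    refine (layered P h).interlaced_of_linked
      (a := L.mv (Sum.inl (fw x))) (b := jw x) (c := L.mv (Sum.inr (fu x))) (d := ju x)
      (Or.inl ⟨?_, ?_⟩) (Or.inl ⟨?_, ?_⟩) ?_
    · rw [strand_p, hiw]
    · rw [strand_q, hiw]
    · rw [strand_p, hiu]
    · rw [strand_q, hiu]
    · rw [Fin.lt_def] at o1 o2 o3
      unfold Linked Shadow.Between
      left
      refine ⟨⟨?_, ?_⟩, Or.inr ?_⟩
      · rw [min_eq_left (by omega)]; exact o1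
      · rw [max_eq_right (by omega)]; exact o2
      · rw [max_eq_right (by omega)]; exact o3

open Classical in
/-- the exceptional heights -/
noncomputable def bad (L : Lay n (Fin M ⊕ Fin M)) (P : Fin n → ℝ × ℝ) (u : Fin n → ℝ) (r ν H : ℕ) :
    Finset (Fin n → Fin H) :=
  Finset.univ.filter (fun k => ¬ (NoNear L P u r k ∧ ν ≤ (actives L P u r Sum.inl k).card ∧
    ν ≤ (actives L P u r Sum.inr k).card))

open Classical in
/-- Anticoncentration for one projection. -/
theorem count_heights (h : General P) (ho : L.Ordered) (hr : 0 < r) {ν : ℕ} (hν : 0 < ν) (c : ℤ) :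
    ((Finset.univ.filter (fun k : Fin n → Fin H => moment 2 (lift P h (zz u k)).fPoly = c)).card : ℝ) ≤
      (162 / ν : ℝ) ^ (1 / 4 : ℝ) * (H : ℝ) ^ n + ((bad L P u r ν H).card : ℝ) := by
  set m := 2 * M with hm
  set A : (Fin n → Fin H) → ℝ := fun k => ((Finset.univ.filter (fun ε : Fin M ⊕ Fin M → Bool =>
      moment 2 (lift P h (zz u (mov L P u r ε k))).fPoly = c)).card : ℝ) with hA
  have hcard : Fintype.card (Fin M ⊕ Fin M → Bool) = 2 ^ m := by
    rw [Fintype.card_fun, Fintype.card_bool, Fintype.card_sum, Fintype.card_fin, ← two_mul]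
  have h1 : ∑ k, A k = (2 : ℝ) ^ m *
      ((Finset.univ.filter (fun k : Fin n → Fin H => moment 2 (lift P h (zz u k)).fPoly = c)).card : ℝ) := by
    have e1 : ∀ k, A k = ∑ ε : Fin M ⊕ Fin M → Bool,
        if moment 2 (lift P h (zz u (mov L P u r ε k))).fPoly = c then (1 : ℝ) else 0 := by
      intro k
      simp only [hA]
      rw [Finset.card_filter]
      push_cast
      rfl
    simp only [e1]
    rw [Finset.sum_comm]
    have e2 : ∀ ε : Fin M ⊕ Fin M → Bool, ∑ k : Fin n → Fin H,
        (if moment 2 (lift P h (zz u (mov L P u r ε k))).fPoly = c then (1 : ℝ) else 0) =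
        ∑ k : Fin n → Fin H, (if moment 2 (lift P h (zz u k)).fPoly = c then (1 : ℝ) else 0) := by
      intro ε
      exact Equiv.sum_comp (movE L P u r ε)
        (fun k : Fin n → Fin H => if moment 2 (lift P h (zz u k)).fPoly = c then (1 : ℝ) else 0)
    rw [Finset.sum_congr rfl (fun ε _ => e2 ε), Finset.sum_const, Finset.card_univ, hcard,
      nsmul_eq_mul, Finset.card_filter]
    push_cast
    rfl
  have hpow : (16 : ℝ) ^ m = ((2 : ℝ) ^ m) ^ 4 := by
    rw [← pow_mul, mul_comm m 4, pow_mul (2 : ℝ) 4 m]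
    norm_num
  have h2 : ∀ k, A k ≤ (2 : ℝ) ^ m * ((162 / ν : ℝ) ^ (1 / 4 : ℝ) + if k ∈ bad L P u r ν H then 1 else 0) := by
    intro k
    have hA0 : 0 ≤ A k := by simp only [hA]; positivity
    by_cases hlt : k ∈ bad L P u r ν H
    · rw [if_pos hlt]
      have h3 : A k ≤ (2 : ℝ) ^ m := by
        simp only [hA]
        calc _ ≤ ((Finset.univ : Finset (Fin M ⊕ Fin M → Bool)).card : ℝ) := by
              exact_mod_cast Finset.card_filter_le _ _
          _ = (2 : ℝ) ^ m := by
              rw [Finset.card_univ, hcard]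
              push_cast
              rfl
      have h4 : (0 : ℝ) ≤ (162 / ν : ℝ) ^ (1 / 4 : ℝ) := by positivity
      have h5 : (0 : ℝ) < (2 : ℝ) ^ m := by positivity
      nlinarith
    · rw [if_neg hlt, add_zero]
      have hgood : NoNear L P u r k ∧ ν ≤ (actives L P u r Sum.inl k).card ∧
          ν ≤ (actives L P u r Sum.inr k).card := by
        by_contra hc
        exact hlt (by unfold bad; rw [Finset.mem_filter]; exact ⟨Finset.mem_univ _, hc⟩)
      have h3 := cube_bound h ho hgood.1 hr hgood.2.1 hgood.2.2 c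
      simp only [F_lift] at h3
      have h4 : (ν : ℝ) * (A k) ^ 4 ≤ 162 * ((2 : ℝ) ^ m) ^ 4 := by
        rw [← hpow]
        simp only [hA]
        exact_mod_cast h3
      have hν' : (0 : ℝ) < ν := by exact_mod_cast hν
      have h6 : (A k) ^ 4 ≤ (162 / ν) * ((2 : ℝ) ^ m) ^ 4 := by
        rw [div_mul_eq_mul_div, le_div_iff₀ hν']
        linarith
      have h7 : (2 : ℝ) ^ m * (162 / ν : ℝ) ^ (1 / 4 : ℝ) =
          ((162 / ν) * ((2 : ℝ) ^ m) ^ 4) ^ (1 / 4 : ℝ) := by
        rw [Real.mul_rpow (by positivity) (by positivity), ← Real.rpow_natCast ((2 : ℝ) ^ m) 4,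
          ← Real.rpow_mul (by positivity)]
        have e4 : ((4 : ℕ) : ℝ) * (1 / 4) = 1 := by norm_num
        rw [e4, Real.rpow_one]
        ring
      rw [h7]
      have h8 : A k = ((A k) ^ 4) ^ (1 / 4 : ℝ) := by
        rw [← Real.rpow_natCast (A k) 4, ← Real.rpow_mul hA0]
        have e4 : ((4 : ℕ) : ℝ) * (1 / 4) = 1 := by norm_num
        rw [e4, Real.rpow_one]
      rw [h8]
      exact Real.rpow_le_rpow (pow_nonneg hA0 4) h6 (by norm_num)
  have h3 : ∑ k, A k ≤ (2 : ℝ) ^ m * ((162 / ν : ℝ) ^ (1 / 4 : ℝ) * (H : ℝ) ^ n +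
        ((bad L P u r ν H).card : ℝ)) := by
    refine (Finset.sum_le_sum fun k _ => h2 k).trans (le_of_eq ?_)
    rw [← Finset.mul_sum, Finset.sum_add_distrib, Finset.sum_const, Finset.card_univ,
      Fintype.card_fun, Fintype.card_fin, Fintype.card_fin, nsmul_eq_mul]
    have e5 : ∑ x, (if x ∈ bad L P u r ν H then (1:ℝ) else 0) = ((bad L P u r ν H).card : ℝ) := by
      rw [Finset.sum_ite_mem, Finset.univ_inter, Finset.sum_const, nsmul_eq_mul, mul_one]
    rw [e5]
    push_cast
    ring
  rw [h1] at h3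
  exact le_of_mul_le_mul_left h3 (by positivity)

end Pool.Agent.V8H81.Urp
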