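import Pool.Agent.V8H81.Urp.Defs

/-!
# Cubes of crossing changes
-/

set_option autoImplicit false

namespace Pool.Agent.V8H81.Urp

open Finset LaurentPolynomial Pool.Agent.H891R2.Jones Pool.Agent.H832R3.VJ Pool.Agent.R811
  Pool.Agent.V8H81.Rnd
open Pool.Agent.R811.Cross hiding sg

variable {N : ℕ} {ι : Type} [Fintype ι] [DecidableEq ι]

theorem D_abs {B : (ι → Bool) → (Fin N → Bool)} {k : ι} {i : Fin N} {s : Bool}
    (h : ∀ ε b, B (Function.update ε k b) = Function.update (B ε) i (xor s b))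
    (H : (Fin N → Bool) → ℤ) :
    D k (fun ε => H (B ε)) = fun ε => Cross.sg (!s) * D i H (B ε) := by
  funext ε
  unfold D
  simp only
  rw [h, h]
  cases s
  · simp [Cross.sg]
  · simp [Cross.sg]

theorem cube_abs (G : Shadow N) (B : (ι → Bool) → (Fin N → Bool)) {ν : ℕ} (u w : Fin ν → ι)
    (hinj : Function.Injective (Sum.elim u w)) (iu iw : Fin ν → Fin N) (su sw : Fin ν → Bool)
    (hu : ∀ k ε b, B (Function.update ε (u k) b) = Function.update (B ε) (iu k) (xor (su k) b))
    (hw : ∀ k ε b, B (Function.update ε (w k) b) = Function.update (B ε) (iw k) (xor (sw k) b))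
    (hne : Function.Injective (Sum.elim iu iw))
    (hint : ∀ k, G.Interlaced (iw k) (iu k)) (c : ℤ) :
    (ν : ℤ) * ((Finset.univ.filter (fun ε : ι → Bool => F G (B ε) = c)).card : ℤ) ^ 4 ≤
      162 * 16 ^ Fintype.card ι := by
  refine level' (fun ε : ι → Bool => F G (B ε)) c u w hinj ?_ ?_
  · rintro i j ⟨k, hk⟩ ⟨l, hl⟩ hij x y
    have hex : ∀ k : Fin ν ⊕ Fin ν, ∃ s, ∀ ε b, B (Function.update ε (Sum.elim u w k) b) =
        Function.update (B ε) (Sum.elim iu iw k) (xor s b) := by
      rintro (k | k)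
      · exact ⟨su k, hu k⟩
      · exact ⟨sw k, hw k⟩
    obtain ⟨s, hs⟩ := hex k
    obtain ⟨s', hs'⟩ := hex l
    have hkl : k ≠ l := by
      rintro rfl
      exact hij (hk.symm.trans hl)
    have hne' : Sum.elim iu iw k ≠ Sum.elim iu iw l := fun e => hkl (hne e)
    rw [hk] at hs
    rw [hl] at hs'
    rw [D_abs hs]
    have e := D_abs hs' (fun x => Cross.sg (!s) * D (Sum.elim iu iw k) (F G) x)
    rw [congrFun e x, congrFun e y]
    have e2 : ∀ x, D (Sum.elim iu iw l) (fun x => Cross.sg (!s) * D (Sum.elim iu iw k) (F G) x) x =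
        Cross.sg (!s) * D (Sum.elim iu iw l) (D (Sum.elim iu iw k) (F G)) x := by
      intro x
      unfold D
      ring
    rw [e2, e2, D2_const G hne' _ (B y)]
  · intro k x
    rw [D_abs (hw k)]
    have e := congrFun (D_abs (hu k) (fun x => Cross.sg (!(sw k)) * D (iw k) (F G) x)) x
    rw [e]
    have e2 : ∀ x, D (iu k) (fun x => Cross.sg (!(sw k)) * D (iw k) (F G) x) x =
        Cross.sg (!(sw k)) * D (iu k) (D (iw k) (F G)) x := by
      intro x
      unfold D
      ring
    rw [e2]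
    have h1 : ∀ b, Cross.sg b ≠ 0 := by intro b; cases b <;> decide
    exact mul_ne_zero (h1 _) (mul_ne_zero (h1 _) (D2 G (hint k) _))

end Pool.Agent.V8H81.Urp
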