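import Pool.Agent.V8H81.Rnd.Blocks

/-!
# Closed polygons in space and their diagrams
-/

set_option autoImplicit false

namespace Pool.Agent.V8H81.Urp

open Finset Pool.Agent.H891R2.Jones Pool.Agent.H832R3.VJ Pool.Agent.R811 Pool.Agent.V8H81.Rnd
open Pool.Agent.R811.Cross hiding sg

/-- the determinant of two vectors in the plane -/
def det (p q : ℝ × ℝ) : ℝ := p.1 * q.2 - p.2 * q.1

variable {n : ℕ} [NeZero n]

/-- the direction of the edge `a` of the closed polygon with the vertices `P 0, …, P (n - 1)` in the plane; this
edge runs from `P a` to `P (a + 1)`, where the indices are read modulo `n` -/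
def dir (P : Fin n → ℝ × ℝ) (a : Fin n) : ℝ × ℝ := P (a + 1) - P a

/-- the parameter `t` at which the line `P a + t (P (a + 1) - P a)` through the edge `a` meets the line through
the edge `b` -/
noncomputable def par (P : Fin n → ℝ × ℝ) (a b : Fin n) : ℝ :=
  det (P b - P a) (dir P b) / det (dir P a) (dir P b)

/-- the edges `a` and `b` cross in interior points -/
def Cross (P : Fin n → ℝ × ℝ) (a b : Fin n) : Prop :=
  (0 < par P a b ∧ par P a b < 1) ∧ (0 < par P b a ∧ par P b a < 1)

/-- general position of a closed polygon in the plane: no three vertices are on a line, and no three edges cross in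
one point -/
structure General (P : Fin n → ℝ × ℝ) : Prop where
  line : ∀ a b c, a ≠ b → a ≠ c → b ≠ c → det (P b - P a) (P c - P a) ≠ 0
  triple : ∀ a b c, Cross P a b → Cross P a c → b ≠ c → par P a b ≠ par P a c

open Classical in
/-- the passages through the double points of the polygon: a passage on the edge `a` at the parameter `t` is
`(a, t)`; the passages are ordered along the polygon, i.e. lexicographically -/
noncomputable def passages (P : Fin n → ℝ × ℝ) : Finset (Fin n ×ₗ ℝ) :=
  (Finset.univ.filter (fun x : Fin n × Fin n => Cross P x.1 x.2)).image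
    (fun x => toLex (x.1, par P x.1 x.2))

open Classical in
/-- the double points: the pairs `a < b` of edges which cross -/
noncomputable def dps (P : Fin n → ℝ × ℝ) : Finset (Fin n × Fin n) :=
  Finset.univ.filter (fun x => x.1 < x.2 ∧ Cross P x.1 x.2)

theorem Cross.symm {P : Fin n → ℝ × ℝ} {a b : Fin n} (h : Cross P a b) : Cross P b a := ⟨h.2, h.1⟩

theorem par_self (P : Fin n → ℝ × ℝ) (a : Fin n) : par P a a = 0 := by
  unfold par det
  simp

theorem Cross.ne {P : Fin n → ℝ × ℝ} {a b : Fin n} (h : Cross P a b) : a ≠ b := by
  rintro rfl
  have := h.1.1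
  rw [par_self] at this
  exact lt_irrefl _ this

theorem mem_passages {P : Fin n → ℝ × ℝ} {a b : Fin n} (h : Cross P a b) :
    toLex (a, par P a b) ∈ passages P := by
  classical
  unfold passages
  exact Finset.mem_image.2 ⟨(a, b), Finset.mem_filter.2 ⟨Finset.mem_univ _, h⟩, rfl⟩

theorem card_passages {P : Fin n → ℝ × ℝ} (h : General P) : (passages P).card = 2 * (dps P).card := by
  classical
  unfold passages
  rw [Finset.card_image_of_injOn]
  · have e : (Finset.univ.filter (fun x : Fin n × Fin n => Cross P x.1 x.2)) =
        dps P ∪ (dps P).image Prod.swap := by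
      ext x
      rw [Finset.mem_union, Finset.mem_image]
      unfold dps
      simp only [Finset.mem_filter, Finset.mem_univ, true_and]
      constructor
      · intro hx
        rcases lt_or_gt_of_ne hx.ne with h1 | h1
        · exact Or.inl ⟨h1, hx⟩
        · exact Or.inr ⟨x.swap, ⟨h1, hx.symm⟩, Prod.swap_swap x⟩
      · rintro (⟨_, hx⟩ | ⟨y, ⟨_, hy⟩, rfl⟩)
        · exact hx
        · exact hy.symm
    rw [e, Finset.card_union_of_disjoint, Finset.card_image_of_injective _ Prod.swap_injective]
    · ring
    · rw [Finset.disjoint_left]
      intro x hx hx'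
      obtain ⟨y, hy, rfl⟩ := Finset.mem_image.1 hx'
      unfold dps at hx hy
      simp only [Finset.mem_filter, Finset.mem_univ, true_and, Prod.fst_swap, Prod.snd_swap] at hx hy
      exact absurd hx.1 (not_lt.2 hy.1.le)
  · intro x hx y hy hxy
    rw [Finset.mem_coe, Finset.mem_filter] at hx hy
    have h1 : x.1 = y.1 := congrArg (fun z => (ofLex z).1) hxy
    have h2 : par P x.1 x.2 = par P y.1 y.2 := congrArg (fun z => (ofLex z).2) hxy
    refine Prod.ext h1 ?_
    by_contra hne
    rw [← h1] at h2 hy
    exact h.triple x.1 x.2 y.2 hx.2 hy.2 hne h2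

/-- the number of the passage `(a, t)` in the order of the passages along the polygon -/
noncomputable def number {P : Fin n → ℝ × ℝ} (h : General P) (a b : Fin n) (hab : Cross P a b) :
    Fin (2 * (dps P).card) :=
  ((passages P).orderIsoOfFin (card_passages h)).symm ⟨toLex (a, par P a b), mem_passages hab⟩

/-- the double points are numbered in some order -/
noncomputable def dp (P : Fin n → ℝ × ℝ) (i : Fin (dps P).card) : Fin n × Fin n :=
  ((dps P).equivFin.symm i : Fin n × Fin n)

theorem dp_mem (P : Fin n → ℝ × ℝ) (i : Fin (dps P).card) : dp P i ∈ dps P :=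
  ((dps P).equivFin.symm i).2

theorem dp_lt (P : Fin n → ℝ × ℝ) (i : Fin (dps P).card) : (dp P i).1 < (dp P i).2 := by
  classical
  have := dp_mem P i
  unfold dps at this
  exact (Finset.mem_filter.1 this).2.1

theorem dp_cross (P : Fin n → ℝ × ℝ) (i : Fin (dps P).card) : Cross P (dp P i).1 (dp P i).2 := by
  classical
  have := dp_mem P i
  unfold dps at this
  exact (Finset.mem_filter.1 this).2.2

theorem dp_inj (P : Fin n → ℝ × ℝ) {i j : Fin (dps P).card} (h : dp P i = dp P j) : i = j :=
  (dps P).equivFin.symm.injective (Subtype.ext h)

theorem number_inj {P : Fin n → ℝ × ℝ} (h : General P) {a b c d : Fin n} (hab : Cross P a b)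
    (hcd : Cross P c d) (e : number h a b hab = number h c d hcd) : a = c ∧ b = d := by
  have h1 := ((passages P).orderIsoOfFin (card_passages h)).symm.injective e
  have h2 : toLex (a, par P a b) = toLex (c, par P c d) := congrArg Subtype.val h1
  have h3 : a = c := congrArg (fun z => (ofLex z).1) h2
  have h4 : par P a b = par P c d := congrArg (fun z => (ofLex z).2) h2
  subst h3
  refine ⟨rfl, ?_⟩
  by_contra hne
  exact h.triple a b d hab hcd hne h4

/-- the Gauss code of the polygon: the double point `{a, b}`, `a < b`, has the passages `p` on the edge `a` and `q`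
on the edge `b`; seen in the direction of the edge `a`, the edge `b` crosses it from the right to the left if
`left` is true -/
noncomputable def layered (P : Fin n → ℝ × ℝ) (h : General P) : Layered n (dps P).card where
  p i := number h (dp P i).1 (dp P i).2 (dp_cross P i)
  q i := number h (dp P i).2 (dp P i).1 (dp_cross P i).symm
  bij := by
    rw [Fintype.bijective_iff_injective_and_card]
    constructor
    · rintro (i | i) (j | j) hij
      · have h1 := number_inj h (dp_cross P i) (dp_cross P j) hij
        rw [dp_inj P (Prod.ext h1.1 h1.2)]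
      · have h1 := number_inj h (dp_cross P i) (dp_cross P j).symm hij
        have h2 := dp_lt P i
        have h3 := dp_lt P j
        rw [h1.1, h1.2] at h2
        exact absurd h2 (not_lt.2 h3.le)
      · have h1 := number_inj h (dp_cross P i).symm (dp_cross P j) hij
        have h2 := dp_lt P i
        have h3 := dp_lt P j
        rw [h1.1, h1.2] at h2
        exact absurd h2 (not_lt.2 h3.le)
      · have h1 := number_inj h (dp_cross P i).symm (dp_cross P j).symm hij
        rw [dp_inj P (Prod.ext h1.2 h1.1)]
    · rw [Fintype.card_sum, Fintype.card_fin, Fintype.card_fin]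
      ring
  left i := decide (0 < det (dir P (dp P i).1) (dir P (dp P i).2))
  strand e := (ofLex ((passages P).orderIsoOfFin (card_passages h) e : Fin n ×ₗ ℝ)).1
  mono e e' hee := by
    have h1 : ((passages P).orderIsoOfFin (card_passages h) e : Fin n ×ₗ ℝ) ≤
        ((passages P).orderIsoOfFin (card_passages h) e' : Fin n ×ₗ ℝ) :=
      ((passages P).orderIsoOfFin (card_passages h)).monotone hee
    rcases Prod.Lex.le_iff.1 h1 with h2 | h2
    · exact h2.le
    · exact h2.1.le
  ne i := by
    unfold number
    rw [OrderIso.apply_symm_apply, OrderIso.apply_symm_apply]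
    exact (dp_lt P i).ne

theorem strand_p (P : Fin n → ℝ × ℝ) (h : General P) (i : Fin (dps P).card) :
    (layered P h).strand ((layered P h).p i) = (dp P i).1 := by
  show (ofLex ((passages P).orderIsoOfFin (card_passages h)
    (number h (dp P i).1 (dp P i).2 (dp_cross P i)) : Fin n ×ₗ ℝ)).1 = _
  unfold number
  rw [OrderIso.apply_symm_apply]
  rfl

theorem strand_q (P : Fin n → ℝ × ℝ) (h : General P) (i : Fin (dps P).card) :
    (layered P h).strand ((layered P h).q i) = (dp P i).2 := by
  show (ofLex ((passages P).orderIsoOfFin (card_passages h)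
    (number h (dp P i).2 (dp P i).1 (dp_cross P i).symm) : Fin n ×ₗ ℝ)).1 = _
  unfold number
  rw [OrderIso.apply_symm_apply]
  rfl

/-! ### heights -/

/-- the height of the edge `a` over its crossing with the edge `b`, if the vertices are at the heights `z` -/
noncomputable def hgt (P : Fin n → ℝ × ℝ) (z : Fin n → ℝ) (a b : Fin n) : ℝ :=
  (1 - par P a b) * z a + par P a b * z (a + 1)

open Classical in
/-- the crossing of the polygon with the vertices `(P a, z a)` at the double point `i`, seen from above -/
noncomputable def crossingAt (P : Fin n → ℝ × ℝ) (h : General P) (z : Fin n → ℝ)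
    (i : Fin (dps P).card) : Crossing (Fin (2 * (dps P).card)) :=
  if hgt P z (dp P i).1 (dp P i).2 < hgt P z (dp P i).2 (dp P i).1 then (layered P h).crossing i
  else switch ((layered P h).crossing i)

/-- the diagram of the closed polygon with the vertices `(P a, z a)`, seen from above -/
noncomputable def lift (P : Fin n → ℝ × ℝ) (h : General P) (z : Fin n → ℝ) :
    Diagram (Fin (2 * (dps P).card)) :=
  ⟨[], (List.finRange (dps P).card).map (crossingAt P h z)⟩

open Classical in
/-- the signs of the crossings -/
noncomputable def S (P : Fin n → ℝ × ℝ) (h : General P) (z : Fin n → ℝ) (i : Fin (dps P).card) : Bool :=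
  if hgt P z (dp P i).1 (dp P i).2 < hgt P z (dp P i).2 (dp P i).1 then
    decide (((layered P h).crossing i).sign = 1)
  else !decide (((layered P h).crossing i).sign = 1)

theorem choice_S (P : Fin n → ℝ × ℝ) (h : General P) (z : Fin n → ℝ) (i : Fin (dps P).card) :
    (layered P h).choice i (S P h z i) = crossingAt P h z i := by
  classical
  unfold Shadow.choice S crossingAt positive negative
  by_cases h1 : hgt P z (dp P i).1 (dp P i).2 < hgt P z (dp P i).2 (dp P i).1 <;>
    by_cases h2 : ((layered P h).crossing i).sign = 1 <;> simp [h1, h2]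

theorem lift_eq (P : Fin n → ℝ × ℝ) (h : General P) (z : Fin n → ℝ) :
    lift P h z = (layered P h).diagram (S P h z) := by
  unfold lift Shadow.diagram
  congr 1
  apply List.map_congr_left
  intro i _
  exact (choice_S P h z i).symm

/-- the number of the double point of the edges `a` and `b` -/
theorem exists_dp (P : Fin n → ℝ × ℝ) {a b : Fin n} (h : Cross P a b) :
    ∃ i, dp P i = (min a b, max a b) := by
  classical
  have hm : (min a b, max a b) ∈ dps P := by
    unfold dps
    rw [Finset.mem_filter]
    refine ⟨Finset.mem_univ _, ?_, ?_⟩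
    · exact min_lt_max.2 h.ne
    · rcases le_total a b with h1 | h1
      · simp only [min_eq_left h1, max_eq_right h1]; exact h
      · simp only [min_eq_right h1, max_eq_left h1]; exact h.symm
  refine ⟨(dps P).equivFin ⟨_, hm⟩, ?_⟩
  unfold dp
  rw [Equiv.symm_apply_apply]

end Pool.Agent.V8H81.Urp
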