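import Pool.Agent.V8H81.Urp.Lay

/-!
# The probability that a vertex is active
-/

set_option autoImplicit false

namespace Pool.Agent.V8H81.Urp

open Finset

variable {n : ℕ} [NeZero n] {H : ℕ} {ι : Type} {L : Lay n ι} {P : Fin n → ℝ × ℝ} {u : Fin n → ℝ} {r : ℕ}

theorem tau_dep {k k' : Fin n → Fin H} (hk : ∀ a, ¬ L.mo a → k a = k' a) {i e g : Fin n} (hi : L.mo i)
    (he : e = i ∨ e + 1 = i) (hg : ¬ L.me g) : tau P u k i e g = tau P u k' i e g := by
  unfold tau
  rw [thr_congr (hk _ (fun h => hg (Or.inl h))) (hk _ (fun h => hg (Or.inr h))) (hk _ (mo_oth hi he))]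

theorem iso_dep {k k' : Fin n → Fin H} (hk : ∀ a, ¬ L.mo a → k a = k' a) {i j : Fin n} (hi : L.mo i) :
    Iso L P u r k i j ↔ Iso L P u r k' i j := by
  unfold Iso
  by_cases hp : L.pt i j
  · have e1 : tau P u k i i j = tau P u k' i i j := tau_dep hk hi (Or.inl rfl) (not_me_of_pt hp)
    rw [e1]
    refine and_congr_right fun _ => and_congr_right fun _ => and_congr_right fun _ =>
      and_congr_right fun _ => ?_
    constructor
    · intro h e g h1 h2 h3 h4
      have := h e g h1 h2 h3 h4
      rwa [tau_dep hk hi h1 h3] at this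
    · intro h e g h1 h2 h3 h4
      rw [tau_dep hk hi h1 h3]
      exact h e g h1 h2 h3 h4
  · simp [hp]

theorem act_dep {k k' : Fin n → Fin H} (hk : ∀ a, ¬ L.mo a → k a = k' a) {i j : Fin n} (hi : L.mo i)
    (hki : k i = k' i) : Act L P u r k i j ↔ Act L P u r k' i j := by
  unfold Act
  rw [iso_dep hk hi]
  constructor
  · rintro ⟨h1, h2⟩
    rw [tau_dep hk hi (Or.inl rfl) (not_me_of_pt h1.1), hki] at h2
    exact ⟨h1, h2⟩
  · rintro ⟨h1, h2⟩
    rw [← tau_dep hk hi (Or.inl rfl) (not_me_of_pt h1.1), ← hki] at h2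
    exact ⟨h1, h2⟩

/-- an interval of places -/
theorem card_fin_Ico {lo hi : ℕ} (h : hi ≤ H) :
    (Finset.univ.filter (fun c : Fin H => lo ≤ (c : ℕ) ∧ (c : ℕ) < hi)).card = hi - lo := by
  rw [← Finset.card_map Fin.valEmbedding, ← Nat.card_Ico]
  congr 1
  ext x
  simp only [Finset.mem_map, Finset.mem_filter, Finset.mem_univ, true_and, Fin.valEmbedding_apply,
    Finset.mem_Ico]
  constructor
  · rintro ⟨c, hc, rfl⟩
    exact hc
  · intro hx
    exact ⟨⟨x, by omega⟩, hx, rfl⟩

open Classical in
theorem card_act {k : Fin n → Fin H} {i : Fin n} (hi : L.mo i) (I : Finset (Fin n))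
    (hI : ∀ j ∈ I, Iso L P u r k i j) :
    2 * r * I.card ≤ (Finset.univ.filter (fun c : Fin H =>
      ∃ j, Act L P u r (Function.update k i c) i j)).card := by
  set T : Fin n → Finset (Fin H) := fun j => Finset.univ.filter (fun c : Fin H =>
    (tau P u k i i j).toNat - r ≤ (c : ℕ) ∧ (c : ℕ) < (tau P u k i i j).toNat + r) with hT
  have hcard : ∀ j ∈ I, (T j).card = 2 * r := by
    intro j hj
    have h1 := (hI j hj).2.2.1
    have h2 := (hI j hj).2.2.2.1
    simp only [hT]
    rw [card_fin_Ico (by omega)]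
    omega
  have hdis : ∀ j ∈ I, ∀ j' ∈ I, j ≠ j' → Disjoint (T j) (T j') := by
    intro j hj j' hj' hne
    have h1 := (hI j hj).2.2.2.2 i j' (Or.inl rfl) (hI j' hj').2.1 (not_me_of_pt (hI j' hj').1)
      (fun c => hne c.2.symm)
    have h2 := (hI j hj).2.2.1
    have h3 := (hI j' hj').2.2.1
    rw [Finset.disjoint_left]
    intro c hc hc'
    simp only [hT, Finset.mem_filter, Finset.mem_univ, true_and] at hc hc'
    rw [le_abs] at h1
    omega
  calc 2 * r * I.card = ∑ j ∈ I, (T j).card := by
        rw [Finset.sum_congr rfl hcard, Finset.sum_const, smul_eq_mul, mul_comm]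
    _ = (I.biUnion T).card := (Finset.card_biUnion hdis).symm
    _ ≤ _ := by
        apply Finset.card_le_card
        intro c hc
        obtain ⟨j, hj, hc⟩ := Finset.mem_biUnion.1 hc
        simp only [hT, Finset.mem_filter, Finset.mem_univ, true_and] at hc
        have h1 := (hI j hj).2.2.1
        have hk : ∀ a, ¬ L.mo a → Function.update k i c a = k a := by
          intro a ha
          rw [Function.update_of_ne]
          rintro rfl
          exact ha hi
        rw [Finset.mem_filter]
        refine ⟨Finset.mem_univ _, j, ?_⟩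
        unfold Act
        rw [iso_dep hk hi, tau_dep hk hi (Or.inl rfl) (not_me_of_pt (hI j hj).1), Function.update_self]
        exact ⟨hI j hj, by omega, by omega⟩

end Pool.Agent.V8H81.Urp
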