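import Pool.Agent.V8H81.Urp.Main

/-!
# The probability that a random polygon has a given second moment
-/

set_option autoImplicit false

namespace Pool.Agent.V8H81.Urp

open Finset LaurentPolynomial Pool.Agent.H891R2.Jones Pool.Agent.H832R3.VJ Pool.Agent.R811
  Pool.Agent.V8H81.Rnd
open Pool.Agent.R811.Cross hiding sg

theorem Pr_le_one {κ : Type} [Fintype κ] [DecidableEq κ] {H : ℕ} (hH : 0 < H) (A : (κ → Fin H) → Prop) :
    Pr A ≤ 1 := by
  classical
  have hH' : (0:ℝ) < H := by exact_mod_cast hH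
  unfold Pr
  rw [div_le_one (by positivity)]
  have h1 := Finset.card_filter_le (Finset.univ : Finset (κ → Fin H)) A
  rw [Finset.card_univ, Fintype.card_fun, Fintype.card_fin] at h1
  exact_mod_cast h1

/-- the constant -/
noncomputable def C0 : ℝ := 15 / p0 + 544 + 2 * (4 / p0 + 4 / p0 + 496 / p0 ^ 2 + 65536 / p0 ^ 4)

theorem C0_pos : 0 < C0 := by
  have := p0_pos
  unfold C0
  positivity

theorem p0_le : p0 ≤ 1 := by unfold p0; norm_num

theorem moment_t {n : ℕ} [NeZero n] {H t : ℕ} (ht : 2 ≤ t) (htn : t ^ 10 ≤ n) (hH : n ^ 2 ≤ H) {u : Co n → ℝ}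
    (hu : ∀ c, 0 ≤ u c ∧ u c < 1) (c : ℤ) :
    Pr (fun ω : Co n → Fin H => ∃ hg : General (PP u ω), moment 2 (lift (PP u ω) hg (zz (uz u) (kz ω))).fPoly = c) ≤
      C0 / t := by
  have hp := p0_pos
  have hp1 := p0_le
  -- natural numbers
  have h32 : 32 ≤ t ^ 5 := by
    calc 32 = 2 ^ 5 := by norm_num
      _ ≤ t ^ 5 := Nat.pow_le_pow_left ht 5
  have h10 : t ^ 10 = t ^ 5 * t ^ 5 := by ring
  have hn1 : 32 * t ^ 5 ≤ n := by
    calc 32 * t ^ 5 ≤ t ^ 5 * t ^ 5 := Nat.mul_le_mul_right _ h32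
      _ ≤ n := by rw [← h10]; exact htn
  have ht5 : 16 * t ≤ t ^ 5 := by
    calc 16 * t = 2 ^ 4 * t := by norm_num
      _ ≤ t ^ 4 * t := Nat.mul_le_mul_right _ (Nat.pow_le_pow_left ht 4)
      _ = t ^ 5 := by ring
  have hn2 : 1024 ≤ n := by omega
  have h2tn : 2 * (t * n) ≤ H := by
    calc 2 * (t * n) = (2 * t) * n := by ring
      _ ≤ n * n := Nat.mul_le_mul_right _ (by omega)
      _ = n ^ 2 := by ring
      _ ≤ H := hH
  have htn0 : 0 < t * n := Nat.mul_pos (by omega) (by omega)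
  have htn4 : 4 ≤ t * n := by nlinarith
  have hH128 : 128 ≤ H := by nlinarith
  set M := t ^ 5 with hM
  set m0 := n / 4 with hm0
  set m1 := m0 / 2 with hm1
  have hs : Siz n M m0 m1 := ⟨by omega, by omega, by omega, by omega⟩
  set r := H / (t * n) with hr
  have hr0 : 0 < r := Nat.div_pos (by omega) htn0
  have hr4 : 4 * r ≤ H := by
    have h1 : r ≤ H / 4 := Nat.div_le_div_left htn4 (by norm_num)
    omega
  have hM0 : 0 < M := by omega
  have hm10 : 0 < m1 := by omega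
  -- real numbers
  have tR : (2:ℝ) ≤ t := by exact_mod_cast ht
  have t0 : (0:ℝ) < t := by linarith
  have nR : (1024:ℝ) ≤ n := by exact_mod_cast hn2
  have n0 : (0:ℝ) < n := by linarith
  have H0 : (0:ℝ) < H := by
    have : (128:ℝ) ≤ H := by exact_mod_cast hH128
    linarith
  have MR : (M:ℝ) = (t:ℝ) ^ 5 := by rw [hM]; push_cast; ring
  have M0 : (0:ℝ) < M := by exact_mod_cast hM0
  have m10 : (0:ℝ) < m1 := by exact_mod_cast hm10
  have htnR : (t:ℝ) ^ 10 ≤ n := by exact_mod_cast htn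
  have r1 : (r:ℝ) / H ≤ 1 / (t * n) := by
    rw [div_le_div_iff₀ H0 (by positivity)]
    have : r * (t * n) ≤ H := Nat.div_mul_le_self _ _
    have h1 : (r:ℝ) * (t * n) ≤ H := by exact_mod_cast this
    linarith
  have r2 : 1 / (2 * (t * n)) ≤ (r:ℝ) / H := by
    rw [div_le_div_iff₀ (by positivity) H0]
    have h1 : H < (r + 1) * (t * n) := by
      have := Nat.lt_div_mul_add htn0 (a := H)
      rw [← hr] at this
      calc H < r * (t * n) + t * n := this
        _ = _ := by ring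
    have h2 : (t * n) ≤ r * (t * n) := Nat.le_mul_of_pos_left _ hr0
    have h3 : H ≤ r * (2 * (t * n)) := by nlinarith
    have h4 : (H:ℝ) ≤ r * (2 * (t * n)) := by exact_mod_cast h3
    linarith
  have m1R : (n:ℝ) / 16 ≤ m1 := by
    have : n ≤ 16 * m1 := by omega
    have h1 : (n:ℝ) ≤ 16 * m1 := by exact_mod_cast this
    linarith
  have Mt : (t:ℝ) ≤ M := by
    have : t ≤ M := by omega
    exact_mod_cast this
  have m1t : (t:ℝ) ≤ m1 := by
    have : t ≤ m1 := by omega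
    exact_mod_cast this
  set Q : ℝ := p0 ^ 2 * M / (128 * t) with hQ
  have hQ0 : 0 < Q := by rw [hQ]; positivity
  have hQ' : Q ≤ 2 * r / H * (p0 ^ 2 * M * m1 / 8) := by
    calc Q = 2 * (1 / (2 * (t * n))) * (p0 ^ 2 * M * (n / 16) / 8) := by
          rw [hQ]
          field_simp
          ring
      _ ≤ 2 * ((r:ℝ) / H) * (p0 ^ 2 * M * m1 / 8) := by gcongr
      _ = _ := by ring
  have hν : 0 < ⌈Q / 2⌉₊ := Nat.ceil_pos.2 (by positivity)
  have key1 := Pr_moment (H := H) (u := u) (r := r) hs (by omega) hr0 hν c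
  have key2 := Pr_bad (H := H) (u := u) (r := r) hu hs (by omega) hH128 hr0 hr4 hM0 hm10 hQ0 hQ'
  -- the main term
  have b0 : ((162 : ℝ) / (⌈Q / 2⌉₊ : ℝ)) ^ (1 / 4 : ℝ) ≤ 15 / p0 / t := by
    have h1 : (162 : ℝ) / (⌈Q / 2⌉₊ : ℝ) ≤ (15 / p0 / t) ^ 4 := by
      have h2 : Q / 2 ≤ (⌈Q / 2⌉₊ : ℝ) := Nat.le_ceil _
      calc (162 : ℝ) / (⌈Q / 2⌉₊ : ℝ) ≤ 162 / (Q / 2) := by gcongr
        _ = 41472 / (p0 ^ 2 * t ^ 4) := by
            rw [hQ, MR]
            field_simp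
            ring
        _ ≤ 50625 / (p0 ^ 4 * t ^ 4) := by
            rw [div_le_div_iff₀ (by positivity) (by positivity)]
            have h3 : p0 ^ 4 ≤ p0 ^ 2 := pow_le_pow_of_le_one hp.le hp1 (by norm_num)
            have h4 : (0:ℝ) < t ^ 4 := by positivity
            have h5 : (0:ℝ) < p0 ^ 2 := by positivity
            nlinarith [mul_le_mul_of_nonneg_right h3 h4.le, mul_pos h5 h4]
        _ = (15 / p0 / t) ^ 4 := by
            field_simp
            ring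
    calc ((162 : ℝ) / (⌈Q / 2⌉₊ : ℝ)) ^ (1 / 4 : ℝ) ≤ ((15 / p0 / t) ^ 4) ^ (1 / 4 : ℝ) :=
          Real.rpow_le_rpow (by positivity) h1 (by norm_num)
      _ = 15 / p0 / t := by
          rw [← Real.rpow_natCast (15 / p0 / t) 4, ← Real.rpow_mul (by positivity)]
          have e4 : ((4 : ℕ) : ℝ) * (1 / 4) = 1 := by norm_num
          rw [e4, Real.rpow_one]
  have b1 : 16 * (M : ℝ) ^ 2 * (34 * r / H) ≤ 544 / t := by
    calc 16 * (M : ℝ) ^ 2 * (34 * r / H) = 544 * (M:ℝ) ^ 2 * (r / H) := by ring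
      _ ≤ 544 * (n:ℝ) * (1 / (t * n)) := by
          gcongr
          rw [MR, ← pow_mul]
          exact htnR
      _ = 544 / t := by field_simp
  have b2 : 4 / (p0 * M) ≤ 4 / p0 / t := by
    rw [div_div]
    gcongr
  have b3 : 4 / (p0 * m1) ≤ 4 / p0 / t := by
    rw [div_div]
    gcongr
  have b4 : (62 * n * r / H) * 8 / p0 ^ 2 ≤ 496 / p0 ^ 2 / t := by
    calc (62 * n * r / H) * 8 / p0 ^ 2 = 496 * n / p0 ^ 2 * (r / H) := by ring
      _ ≤ 496 * n / p0 ^ 2 * (1 / (t * n)) := by gcongr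
      _ = _ := by field_simp
  have b5 : 4 * M / Q ^ 2 ≤ 65536 / p0 ^ 4 / t := by
    have h1 : 4 * (M:ℝ) / Q ^ 2 = 65536 / p0 ^ 4 / t ^ 3 := by
      rw [hQ, MR]
      field_simp
      ring
    rw [h1]
    have h2 : (t:ℝ) ≤ t ^ 3 := by nlinarith [mul_pos t0 t0]
    gcongr
  calc _ ≤ 15 / p0 / t + (544 / t + 2 * (4 / p0 / t + 4 / p0 / t + 496 / p0 ^ 2 / t + 65536 / p0 ^ 4 / t)) := by
        linarith
    _ = C0 / t := by unfold C0; ring

theorem moment_n {n : ℕ} [NeZero n] {H : ℕ} (hH : n ^ 2 ≤ H) {u : Co n → ℝ}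
    (hu : ∀ c, 0 ≤ u c ∧ u c < 1) (c : ℤ) :
    Pr (fun ω : Co n → Fin H => ∃ hg : General (PP u ω), moment 2 (lift (PP u ω) hg (zz (uz u) (kz ω))).fPoly = c) ≤
      (2 * C0 + 2) * (n : ℝ) ^ (-(1 / 10) : ℝ) := by
  have hC := C0_pos
  have hn0 : 0 < n := Nat.pos_of_ne_zero (NeZero.ne n)
  have n0 : (0:ℝ) < n := by exact_mod_cast hn0
  have hneg : (n : ℝ) ^ (-(1 / 10) : ℝ) = 1 / (n : ℝ) ^ (1 / 10 : ℝ) := by
    rw [Real.rpow_neg n0.le]
    exact (one_div _).symm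
  have hpos : (0:ℝ) < (n : ℝ) ^ (1 / 10 : ℝ) := by positivity
  rcases Nat.lt_or_ge n 1024 with h1 | h1
  · have h2 : (n : ℝ) ^ (1 / 10 : ℝ) ≤ 2 := by
      calc (n : ℝ) ^ (1 / 10 : ℝ) ≤ ((2:ℝ) ^ 10) ^ (1 / 10 : ℝ) := by
            apply Real.rpow_le_rpow n0.le _ (by norm_num)
            have : n ≤ 1024 := by omega
            have h3 : (n:ℝ) ≤ 1024 := by exact_mod_cast this
            linarith
        _ = 2 := by
            rw [← Real.rpow_natCast 2 10, ← Real.rpow_mul (by norm_num)]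
            norm_num
    have hH0 : 0 < H := lt_of_lt_of_le (by positivity) hH
    refine (Pr_le_one hH0 _).trans ?_
    rw [hneg, mul_one_div, le_div_iff₀ hpos]
    linarith
  · set t := ⌊(n : ℝ) ^ (1 / 10 : ℝ)⌋₊ with ht
    have h2 : (2:ℝ) ≤ (n : ℝ) ^ (1 / 10 : ℝ) := by
      calc (2:ℝ) = ((2:ℝ) ^ 10) ^ (1 / 10 : ℝ) := by
            rw [← Real.rpow_natCast 2 10, ← Real.rpow_mul (by norm_num)]
            norm_num
        _ ≤ (n : ℝ) ^ (1 / 10 : ℝ) := by
            apply Real.rpow_le_rpow (by norm_num) _ (by norm_num)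
            have h3 : (1024:ℝ) ≤ n := by exact_mod_cast h1
            linarith
    have ht2 : 2 ≤ t := Nat.le_floor (by exact_mod_cast h2)
    have ht10 : t ^ 10 ≤ n := by
      have h3 : (t : ℝ) ≤ (n : ℝ) ^ (1 / 10 : ℝ) := Nat.floor_le hpos.le
      have h4 : (t : ℝ) ^ 10 ≤ n := by
        calc (t : ℝ) ^ 10 ≤ ((n : ℝ) ^ (1 / 10 : ℝ)) ^ 10 := pow_le_pow_left₀ (Nat.cast_nonneg _) h3 10
          _ = n := by
              rw [← Real.rpow_natCast ((n : ℝ) ^ (1 / 10 : ℝ)) 10, ← Real.rpow_mul n0.le]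
              norm_num
      exact_mod_cast h4
    refine (moment_t ht2 ht10 hH hu c).trans ?_
    have h5 : (n : ℝ) ^ (1 / 10 : ℝ) < t + 1 := Nat.lt_floor_add_one _
    have h6 : (2:ℝ) ≤ t := by exact_mod_cast ht2
    rw [hneg, mul_one_div, div_le_div_iff₀ (by linarith) hpos]
    nlinarith

end Pool.Agent.V8H81.Urp
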