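import Mathlib

/-!
# Finite product probability spaces
-/

set_option autoImplicit false

namespace Pool.Agent.V8H81.Urp

open Finset

variable {κ : Type} [Fintype κ] [DecidableEq κ] {H : ℕ}

/-- the mean value -/
noncomputable def Ex (f : (κ → Fin H) → ℝ) : ℝ := (∑ ω, f ω) / (H : ℝ) ^ Fintype.card κ

open Classical in
/-- the probability -/
noncomputable def Pr (A : (κ → Fin H) → Prop) : ℝ :=
  ((Finset.univ.filter A).card : ℝ) / (H : ℝ) ^ Fintype.card κ

theorem Pr_eq (A : (κ → Fin H) → Prop) [DecidablePred A] : Pr A = Ex (fun ω => if A ω then 1 else 0) := by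
  unfold Pr Ex
  congr 1
  rw [Finset.card_filter]
  push_cast
  exact Finset.sum_congr rfl fun x _ => by by_cases h : A x <;> simp [h]

theorem Pr_nonneg (A : (κ → Fin H) → Prop) : 0 ≤ Pr A := by unfold Pr; positivity

theorem Pr_mono {A B : (κ → Fin H) → Prop} (h : ∀ ω, A ω → B ω) : Pr A ≤ Pr B := by
  classical
  unfold Pr
  apply div_le_div_of_nonneg_right _ (by positivity)
  have h1 : (Finset.univ.filter A).card ≤ (Finset.univ.filter B).card := by
    apply Finset.card_le_card
    intro ω hω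
    rw [Finset.mem_filter] at hω ⊢
    exact ⟨hω.1, h ω hω.2⟩
  exact_mod_cast h1

theorem Ex_mono {f g : (κ → Fin H) → ℝ} (h : ∀ ω, f ω ≤ g ω) : Ex f ≤ Ex g := by
  unfold Ex
  gcongr
  exact h _

theorem Ex_add (f g : (κ → Fin H) → ℝ) : Ex (fun ω => f ω + g ω) = Ex f + Ex g := by
  unfold Ex
  rw [Finset.sum_add_distrib, add_div]

theorem Ex_sub (f g : (κ → Fin H) → ℝ) : Ex (fun ω => f ω - g ω) = Ex f - Ex g := by
  unfold Ex
  rw [Finset.sum_sub_distrib, sub_div]

theorem Ex_mul_left (c : ℝ) (f : (κ → Fin H) → ℝ) : Ex (fun ω => c * f ω) = c * Ex f := by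
  unfold Ex
  rw [← Finset.mul_sum, mul_div_assoc]

theorem Ex_sum {α : Type*} (s : Finset α) (f : α → (κ → Fin H) → ℝ) :
    Ex (fun ω => ∑ a ∈ s, f a ω) = ∑ a ∈ s, Ex (f a) := by
  unfold Ex
  rw [Finset.sum_comm, Finset.sum_div]

theorem Ex_nonneg {f : (κ → Fin H) → ℝ} (h : ∀ ω, 0 ≤ f ω) : 0 ≤ Ex f := by
  unfold Ex
  exact div_nonneg (Finset.sum_nonneg fun ω _ => h ω) (by positivity)

theorem Ex_const (hH : 0 < H) (c : ℝ) : Ex (fun _ : κ → Fin H => c) = c := by
  unfold Ex
  rw [Finset.sum_const, Finset.card_univ, Fintype.card_fun, Fintype.card_fin, nsmul_eq_mul]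
  have : (0:ℝ) < H := by exact_mod_cast hH
  push_cast
  field_simp

theorem Pr_or {A B : (κ → Fin H) → Prop} : Pr (fun ω => A ω ∨ B ω) ≤ Pr A + Pr B := by
  classical
  unfold Pr
  rw [← add_div]
  apply div_le_div_of_nonneg_right _ (by positivity)
  rw [← Nat.cast_add, Nat.cast_le]
  refine le_trans (Finset.card_le_card ?_) (Finset.card_union_le _ _)
  intro ω hω
  simp only [Finset.mem_filter, Finset.mem_union, Finset.mem_univ, true_and] at hω ⊢
  exact hω

theorem Pr_exists {α : Type*} (s : Finset α) (A : α → (κ → Fin H) → Prop) :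
    Pr (fun ω => ∃ a ∈ s, A a ω) ≤ ∑ a ∈ s, Pr (A a) := by
  classical
  have h1 : Pr (fun ω => ∃ a ∈ s, A a ω) ≤ Ex (fun ω => ∑ a ∈ s, if A a ω then (1:ℝ) else 0) := by
    rw [Pr_eq]
    apply Ex_mono
    intro ω
    split_ifs with h
    · obtain ⟨a, ha, h1⟩ := h
      have h2 := Finset.single_le_sum (f := fun a => if A a ω then (1:ℝ) else 0)
        (fun b _ => by split_ifs <;> norm_num) ha
      simpa [h1] using h2
    · exact Finset.sum_nonneg fun b _ => by split_ifs <;> norm_num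
  refine h1.trans (le_of_eq ?_)
  rw [Ex_sum]
  exact Finset.sum_congr rfl fun a _ => (Pr_eq (A a)).symm

/-- Markov's inequality -/
theorem markov {f : (κ → Fin H) → ℝ} (h : ∀ ω, 0 ≤ f ω) {c : ℝ} (hc : 0 < c) :
    Pr (fun ω => c ≤ f ω) ≤ Ex f / c := by
  classical
  rw [le_div_iff₀ hc, mul_comm, Pr_eq, ← Ex_mul_left]
  apply Ex_mono
  intro ω
  split_ifs with h1
  · rw [mul_one]; exact h1
  · rw [mul_zero]; exact h ω

/-- averaging over one coordinate -/
theorem Ex_coord (hH : 0 < H) (i : κ) (F : (κ → Fin H) → ℝ) :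
    Ex F = Ex (fun ω => (∑ c : Fin H, F (Function.update ω i c)) / H) := by
  have hH' : (H : ℝ) ≠ 0 := by exact_mod_cast hH.ne'
  set e : ((κ → Fin H) × Fin H) ≃ ((κ → Fin H) × Fin H) :=
    { toFun := fun z => (Function.update z.1 i z.2, z.1 i)
      invFun := fun z => (Function.update z.1 i z.2, z.1 i)
      left_inv := fun z => by simp
      right_inv := fun z => by simp } with he
  have h1 : ∑ ω : κ → Fin H, ∑ c : Fin H, F (Function.update ω i c) = (H : ℝ) * ∑ ω, F ω := by
    have h2 : ∑ ω : κ → Fin H, ∑ c : Fin H, F (Function.update ω i c) =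
        ∑ z : (κ → Fin H) × Fin H, F (e z).1 := by
      rw [Fintype.sum_prod_type]
      rfl
    have h3 : ∑ z : (κ → Fin H) × Fin H, F (e z).1 = ∑ z : (κ → Fin H) × Fin H, F z.1 :=
      e.sum_comp (fun z => F z.1)
    rw [h2, h3, Fintype.sum_prod_type]
    simp [Finset.mul_sum]
  unfold Ex
  congr 1
  rw [← Finset.sum_div, h1]
  field_simp

/-- anticoncentration in one coordinate -/
theorem Pr_coord (hH : 0 < H) (i : κ) (A : (κ → Fin H) → Prop) (m : ℝ)
    (h : ∀ ω, ∀ s : Finset (Fin H), (∀ c ∈ s, A (Function.update ω i c)) → (s.card : ℝ) ≤ m) :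
    Pr A ≤ m / H := by
  classical
  have hH' : (0 : ℝ) < H := by exact_mod_cast hH
  rw [Pr_eq, Ex_coord hH i]
  have h1 : ∀ ω : κ → Fin H, (∑ c : Fin H, if A (Function.update ω i c) then (1:ℝ) else 0) / H ≤ m / H := by
    intro ω
    gcongr
    have := h ω (Finset.univ.filter (fun c => A (Function.update ω i c)))
      (fun c hc => (Finset.mem_filter.1 hc).2)
    rw [Finset.card_filter] at this
    push_cast at this
    exact this
  exact (Ex_mono h1).trans (le_of_eq (Ex_const hH _))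

/-- a set of places whose images under an expanding function are in an interval -/
theorem card_expanding (g : Fin H → ℝ) (α η : ℝ) (hα : 0 < α) (hη : 0 ≤ η)
    (hg : ∀ c c' : Fin H, α * |((c : ℕ) : ℝ) - ((c' : ℕ) : ℝ)| ≤ |g c - g c'|)
    (s : Finset (Fin H)) (hs : ∀ c ∈ s, |g c| < η) : (s.card : ℝ) ≤ 2 * η / α + 1 := by
  rcases s.eq_empty_or_nonempty with h0 | h0
  · subst h0
    simp
    positivity
  · set a := s.min' h0 with ha
    set b := s.max' h0 with hb
    have h1 : s.card ≤ (b : ℕ) - a + 1 := by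
      have h2 : s ⊆ Finset.Icc a b := by
        intro c hc
        exact Finset.mem_Icc.2 ⟨s.min'_le c hc, s.le_max' c hc⟩
      have h3 := Finset.card_le_card h2
      rw [Fin.card_Icc] at h3
      omega
    have hab : (a : ℕ) ≤ b := by
      have : a ≤ b := s.min'_le b (s.max'_mem h0)
      exact this
    have h4 := hg b a
    have h5 := hs a (s.min'_mem h0)
    have h6 := hs b (s.max'_mem h0)
    rw [abs_lt] at h5 h6
    have h7 : |g b - g a| ≤ 2 * η := by
      rw [abs_le]; constructor <;> linarith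
    have h8 : α * (((b : ℕ) : ℝ) - ((a : ℕ) : ℝ)) ≤ 2 * η := by
      refine le_trans ?_ (h4.trans h7)
      gcongr
      exact le_abs_self _
    have h9 : ((b : ℕ) : ℝ) - ((a : ℕ) : ℝ) ≤ 2 * η / α := by
      rw [le_div_iff₀ hα]; linarith
    have h10 : (s.card : ℝ) ≤ ((b : ℕ) : ℝ) - ((a : ℕ) : ℝ) + 1 := by
      have : ((s.card : ℕ) : ℝ) ≤ (((b : ℕ) - a + 1 : ℕ) : ℝ) := by exact_mod_cast h1
      rw [Nat.cast_add, Nat.cast_sub hab] at this
      simpa using this
    linarith

/-! ### boxes -/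

/-- the configurations all of whose coordinates are in the prescribed sets -/
def Bx (G : κ → Finset (Fin H)) (ω : κ → Fin H) : Prop := ∀ c, ω c ∈ G c

theorem Pr_Bx (G : κ → Finset (Fin H)) : Pr (Bx G) = ∏ c, ((G c).card : ℝ) / H := by
  classical
  unfold Pr
  have h : (Finset.univ.filter (Bx G)) = Fintype.piFinset G := by
    ext ω
    rw [Finset.mem_filter, Fintype.mem_piFinset]
    simp [Bx]
  rw [h, Fintype.card_piFinset, Finset.prod_div_distrib, Finset.prod_const, Finset.card_univ]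
  push_cast
  rfl

theorem Pr_Bx_and (hH : 0 < H) (G G' : κ → Finset (Fin H)) (h : ∀ c, G c = univ ∨ G' c = univ) :
    Pr (fun ω => Bx G ω ∧ Bx G' ω) = Pr (Bx G) * Pr (Bx G') := by
  classical
  have hH' : (0 : ℝ) < H := by exact_mod_cast hH
  have e : (fun ω : κ → Fin H => Bx G ω ∧ Bx G' ω) = Bx (fun c => G c ∩ G' c) := by
    funext ω
    unfold Bx
    simp only [Finset.mem_inter, forall_and]
  rw [e, Pr_Bx, Pr_Bx, Pr_Bx, ← Finset.prod_mul_distrib]
  refine Finset.prod_congr rfl fun c _ => ?_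
  rcases h c with h1 | h1
  · rw [h1, Finset.univ_inter, Finset.card_univ, Fintype.card_fin]
    field_simp
  · rw [h1, Finset.inter_univ, Finset.card_univ, Fintype.card_fin]
    field_simp

theorem Pr_Bx_ge (hH : 0 < H) (G : κ → Finset (Fin H)) (s : Finset κ) (g : ℝ) (hg : 0 ≤ g)
    (h1 : ∀ c ∉ s, G c = univ) (h2 : ∀ c ∈ s, g * H ≤ (G c).card) (m : ℕ) (hs : s.card ≤ m)
    (hg1 : g ≤ 1) : g ^ m ≤ Pr (Bx G) := by
  have hH' : (0 : ℝ) < H := by exact_mod_cast hH
  rw [Pr_Bx, ← Finset.prod_subset (Finset.subset_univ s)]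
  · calc g ^ m ≤ g ^ s.card := pow_le_pow_of_le_one hg hg1 hs
      _ = ∏ _c ∈ s, g := by rw [Finset.prod_const]
      _ ≤ _ := by
        apply Finset.prod_le_prod (fun c _ => hg)
        intro c hc
        rw [le_div_iff₀ hH']
        exact h2 c hc
  · intro c _ hc
    rw [h1 c hc, Finset.card_univ, Fintype.card_fin]
    field_simp

open Classical in
/-- Chebyshev's inequality for the number of the events which happen -/
theorem chebyshev (hH : 0 < H) {m : ℕ} (G : Fin m → κ → Finset (Fin H))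
    (hind : ∀ a b, a ≠ b → ∀ c, G a c = univ ∨ G b c = univ) {p : ℝ} (hp : 0 < p) (hm : 0 < m)
    (hge : ∀ a, p ≤ Pr (Bx (G a))) :
    Pr (fun ω : κ → Fin H => ((Finset.univ.filter (fun a => Bx (G a) ω)).card : ℝ) < p * m / 2) ≤
      4 / (p * m) := by
  have hm' : (0:ℝ) < m := by exact_mod_cast hm
  set X : (κ → Fin H) → ℝ := fun ω => ∑ a, if Bx (G a) ω then (1:ℝ) else 0 with hX
  set μ : ℝ := ∑ a, Pr (Bx (G a)) with hμ
  have hμp : p * m ≤ μ := by
    rw [hμ]
    calc p * m = ∑ _a : Fin m, p := by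
          rw [Finset.sum_const, Finset.card_univ, Fintype.card_fin, nsmul_eq_mul]; ring
      _ ≤ _ := Finset.sum_le_sum fun a _ => hge a
  have hμ0 : 0 < μ := lt_of_lt_of_le (by positivity) hμp
  have hcard : ∀ ω, ((Finset.univ.filter (fun a => Bx (G a) ω)).card : ℝ) = X ω := by
    intro ω
    rw [hX, Finset.card_filter]
    push_cast
    rfl
  have hEX : Ex X = μ := by
    rw [hX, Ex_sum, hμ]
    exact Finset.sum_congr rfl fun a _ => (Pr_eq _).symm
  have hEX2 : Ex (fun ω => X ω ^ 2) ≤ μ ^ 2 + μ := by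
    have e1 : (fun ω => X ω ^ 2) = fun ω => ∑ a, ∑ b, (if Bx (G a) ω ∧ Bx (G b) ω then (1:ℝ) else 0) := by
      funext ω
      rw [hX, sq, Finset.sum_mul_sum]
      refine Finset.sum_congr rfl fun a _ => Finset.sum_congr rfl fun b _ => ?_
      by_cases h1 : Bx (G a) ω <;> by_cases h2 : Bx (G b) ω <;> simp [h1, h2]
    rw [e1, Ex_sum]
    have e2 : ∀ a ∈ (Finset.univ : Finset (Fin m)),
        Ex (fun ω => ∑ b, (if Bx (G a) ω ∧ Bx (G b) ω then (1:ℝ) else 0)) ≤
          Pr (Bx (G a)) * μ + Pr (Bx (G a)) := by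
      intro a _
      rw [Ex_sum]
      have e3 : ∀ b ∈ (Finset.univ : Finset (Fin m)),
          Ex (fun ω => (if Bx (G a) ω ∧ Bx (G b) ω then (1:ℝ) else 0)) ≤
            Pr (Bx (G a)) * Pr (Bx (G b)) + if b = a then Pr (Bx (G a)) else 0 := by
        intro b _
        rw [← Pr_eq]
        by_cases hab : b = a
        · subst hab
          rw [if_pos rfl]
          have h1 := Pr_nonneg (Bx (G b))
          have h2 : Pr (fun ω => Bx (G b) ω ∧ Bx (G b) ω) = Pr (Bx (G b)) := by
            congr 1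
            funext ω
            simp
          rw [h2]
          nlinarith
        · rw [if_neg hab, add_zero, Pr_Bx_and hH _ _ (hind a b (fun h => hab h.symm))]
      refine (Finset.sum_le_sum e3).trans (le_of_eq ?_)
      rw [Finset.sum_add_distrib, ← Finset.mul_sum, Finset.sum_ite_eq', if_pos (Finset.mem_univ _)]
    refine (Finset.sum_le_sum e2).trans (le_of_eq ?_)
    rw [Finset.sum_add_distrib, ← Finset.sum_mul]
    ring
  have hvar : Ex (fun ω => (X ω - μ) ^ 2) ≤ μ := by
    have e1 : (fun ω => (X ω - μ) ^ 2) = fun ω => (X ω ^ 2 - (2 * μ) * X ω) + μ ^ 2 := by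
      funext ω; ring
    rw [e1, Ex_add, Ex_sub, Ex_mul_left, hEX, Ex_const hH]
    nlinarith
  have h1 : Pr (fun ω : κ → Fin H => ((Finset.univ.filter (fun a => Bx (G a) ω)).card : ℝ) < p * m / 2) ≤
      Pr (fun ω => μ ^ 2 / 4 ≤ (X ω - μ) ^ 2) := by
    apply Pr_mono
    intro ω hω
    rw [hcard] at hω
    have h2 : X ω < μ / 2 := by linarith
    have h3 : μ / 2 ≤ μ - X ω := by linarith
    have h4 : (μ / 2) ^ 2 ≤ (μ - X ω) ^ 2 := pow_le_pow_left₀ (by positivity) h3 2
    calc μ ^ 2 / 4 = (μ / 2) ^ 2 := by ring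
      _ ≤ (μ - X ω) ^ 2 := h4
      _ = _ := by ring
  have h2 := markov (f := fun ω => (X ω - μ) ^ 2) (fun ω => sq_nonneg _)
    (c := μ ^ 2 / 4) (by positivity)
  calc _ ≤ _ := h1
    _ ≤ _ := h2
    _ ≤ μ / (μ ^ 2 / 4) := by gcongr
    _ = 4 / μ := by field_simp
    _ ≤ 4 / (p * m) := by gcongr

/-- the deviation of a sum of indicators from the sum of the conditional means -/
theorem cond_chebyshev (hH : 0 < H) {m : ℕ} (c : Fin m → κ) (f : Fin m → (κ → Fin H) → ℝ)
    (h01 : ∀ a ω, 0 ≤ f a ω ∧ f a ω ≤ 1)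
    (hdep : ∀ a b, a ≠ b → ∀ ω x, f b (Function.update ω (c a) x) = f b ω)
    (hc : Function.Injective c) {Q : ℝ} (hQ : 0 < Q) :
    Pr (fun ω => Q ≤ |∑ a, f a ω - ∑ a, (∑ x : Fin H, f a (Function.update ω (c a) x)) / H|) ≤
      m / Q ^ 2 := by
  have hH' : (0 : ℝ) < H := by exact_mod_cast hH
  set q : Fin m → (κ → Fin H) → ℝ := fun a ω => (∑ x : Fin H, f a (Function.update ω (c a) x)) / H with hq
  have hq01 : ∀ a ω, 0 ≤ q a ω ∧ q a ω ≤ 1 := by
    intro a ω
    simp only [hq]
    constructor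
    · exact div_nonneg (Finset.sum_nonneg fun x _ => (h01 a _).1) hH'.le
    · rw [div_le_one hH']
      calc _ ≤ ∑ _x : Fin H, (1:ℝ) := Finset.sum_le_sum fun x _ => (h01 a _).2
        _ = H := by simp
  have hqself : ∀ a ω x, q a (Function.update ω (c a) x) = q a ω := by
    intro a ω x
    simp only [hq, Function.update_idem]
  have hqdep : ∀ a b, a ≠ b → ∀ ω x, q b (Function.update ω (c a) x) = q b ω := by
    intro a b hab ω x
    simp only [hq]
    congr 1
    refine Finset.sum_congr rfl fun y _ => ?_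
    rw [Function.update_comm (fun h => hab (hc h)), hdep a b hab]
  have hcross : ∀ a b, a ≠ b → Ex (fun ω => (f a ω - q a ω) * (f b ω - q b ω)) = 0 := by
    intro a b hab
    rw [Ex_coord hH (c a)]
    have : ∀ ω : κ → Fin H, (∑ x : Fin H, (f a (Function.update ω (c a) x) - q a (Function.update ω (c a) x)) *
        (f b (Function.update ω (c a) x) - q b (Function.update ω (c a) x))) / H = 0 := by
      intro ω
      have e : ∀ x, (f a (Function.update ω (c a) x) - q a (Function.update ω (c a) x)) *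
        (f b (Function.update ω (c a) x) - q b (Function.update ω (c a) x)) =
          (f a (Function.update ω (c a) x) - q a ω) * (f b ω - q b ω) := by
        intro x
        rw [hdep a b hab, hqdep a b hab, hqself]
      simp only [e]
      rw [← Finset.sum_mul, Finset.sum_sub_distrib, Finset.sum_const, Finset.card_univ,
        Fintype.card_fin, nsmul_eq_mul]
      have e2 : (H : ℝ) * q a ω = ∑ x : Fin H, f a (Function.update ω (c a) x) := by
        simp only [hq]; field_simp
      rw [e2, sub_self, zero_mul, zero_div]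
    simp only [this]
    unfold Ex
    simp
  have hvar : Ex (fun ω => (∑ a, f a ω - ∑ a, q a ω) ^ 2) ≤ m := by
    have e1 : (fun ω => (∑ a, f a ω - ∑ a, q a ω) ^ 2) =
        fun ω => ∑ a, ∑ b, (f a ω - q a ω) * (f b ω - q b ω) := by
      funext ω
      rw [← Finset.sum_sub_distrib, sq, Finset.sum_mul_sum]
    rw [e1, Ex_sum]
    have e2 : ∀ a ∈ (Finset.univ : Finset (Fin m)),
        Ex (fun ω => ∑ b, (f a ω - q a ω) * (f b ω - q b ω)) ≤ 1 := by
      intro a _
      rw [Ex_sum, Finset.sum_eq_single a (fun b _ hb => hcross a b hb.symm)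
        (fun h => absurd (Finset.mem_univ _) h)]
      refine (Ex_mono (g := fun _ => (1:ℝ)) ?_).trans (le_of_eq (Ex_const hH 1))
      intro ω
      have h1 := h01 a ω
      have h2 := hq01 a ω
      nlinarith
    calc _ ≤ ∑ _a : Fin m, (1:ℝ) := Finset.sum_le_sum e2
      _ = m := by simp
  have h1 : Pr (fun ω => Q ≤ |∑ a, f a ω - ∑ a, q a ω|) ≤
      Pr (fun ω => Q ^ 2 ≤ (∑ a, f a ω - ∑ a, q a ω) ^ 2) := by
    apply Pr_mono
    intro ω hω
    rw [← sq_abs (∑ a, f a ω - ∑ a, q a ω)]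
    exact pow_le_pow_left₀ hQ.le hω 2
  have h2 := markov (f := fun ω => (∑ a, f a ω - ∑ a, q a ω) ^ 2) (fun ω => sq_nonneg _)
    (c := Q ^ 2) (by positivity)
  calc _ ≤ _ := h1
    _ ≤ _ := h2
    _ ≤ m / Q ^ 2 := by gcongr

end Pool.Agent.V8H81.Urp
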