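import Pool.Agent.V8H81.Urp.Count
import Pool.Agent.V8H81.Urp.Prob

/-!
# Two edges between opposite corners of a square
-/

set_option autoImplicit false

namespace Pool.Agent.V8H81.Urp

open Finset

theorem ratio {m a b : ℝ} (hm : 0 < m) (h1 : m ≤ a) (h2 : a ≤ 5 * m) (h3 : m ≤ b) (h4 : b ≤ 5 * m) :
    1 / 6 ≤ a / (a + b) ∧ a / (a + b) ≤ 5 / 6 := by
  have h5 : 0 < a + b := by linarith
  constructor
  · rw [div_le_div_iff₀ (by norm_num) h5]; linarith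
  · rw [div_le_div_iff₀ h5 (by norm_num)]; linarith

/-- the first parameter -/
theorem corner1 {H a1 a2 b1 b2 c1 c2 d1 d2 : ℝ} (hH : 0 < H)
    (ha1 : 0 ≤ a1) (ha1' : a1 ≤ H / 4) (ha2 : 0 ≤ a2) (ha2' : a2 ≤ H / 4)
    (hb1 : 3 * H / 4 ≤ b1) (hb1' : b1 ≤ H) (hb2 : 3 * H / 4 ≤ b2) (hb2' : b2 ≤ H)
    (hc1 : 0 ≤ c1) (hc1' : c1 ≤ H / 4) (hc2 : 3 * H / 4 ≤ c2) (hc2' : c2 ≤ H)
    (hd1 : 3 * H / 4 ≤ d1) (hd1' : d1 ≤ H) (hd2 : 0 ≤ d2) (hd2' : d2 ≤ H / 4) :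
    1 / 6 ≤ det ((c1, c2) - (a1, a2)) ((d1, d2) - (c1, c2)) /
        det ((b1, b2) - (a1, a2)) ((d1, d2) - (c1, c2)) ∧
      det ((c1, c2) - (a1, a2)) ((d1, d2) - (c1, c2)) /
        det ((b1, b2) - (a1, a2)) ((d1, d2) - (c1, c2)) ≤ 5 / 6 := by
  set v1 := d1 - c1 with hv1
  set v2 := c2 - d2 with hv2
  have g1 : H / 2 ≤ v1 := by rw [hv1]; linarith
  have g2 : H / 2 ≤ v2 := by rw [hv2]; linarith
  have p1 : 0 < v1 := by linarith
  have p2 : 0 < v2 := by linarith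
  -- φ p = p.1 * v2 + p.2 * v1
  have e0 : c1 * v2 + c2 * v1 = d1 * v2 + d2 * v1 := by rw [hv1, hv2]; ring
  have f1 := mul_nonneg ha1 p2.le
  have f2 := mul_le_mul_of_nonneg_right ha1' p2.le
  have f3 := mul_nonneg ha2 p1.le
  have f4 := mul_le_mul_of_nonneg_right ha2' p1.le
  have f5 := mul_le_mul_of_nonneg_right hb1 p2.le
  have f6 := mul_le_mul_of_nonneg_right hb1' p2.le
  have f7 := mul_le_mul_of_nonneg_right hb2 p1.le
  have f8 := mul_le_mul_of_nonneg_right hb2' p1.le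
  have f9 := mul_nonneg hc1 p2.le
  have f10 := mul_le_mul_of_nonneg_right hc1' p2.le
  have f11 := mul_le_mul_of_nonneg_right hc2 p1.le
  have f12 := mul_le_mul_of_nonneg_right hc2' p1.le
  have f13 := mul_le_mul_of_nonneg_right hd1 p2.le
  have f14 := mul_le_mul_of_nonneg_right hd1' p2.le
  have f15 := mul_nonneg hd2 p1.le
  have f16 := mul_le_mul_of_nonneg_right hd2' p1.le
  have hm : 0 < H / 8 * (v1 + v2) := by positivity
  have key := ratio (m := H / 8 * (v1 + v2)) (a := (c1 - a1) * v2 + (c2 - a2) * v1)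
    (b := (b1 - c1) * v2 + (b2 - c2) * v1) hm (by nlinarith) (by nlinarith) (by nlinarith) (by nlinarith)
  have e1 : det ((c1, c2) - (a1, a2)) ((d1, d2) - (c1, c2)) = -((c1 - a1) * v2 + (c2 - a2) * v1) := by
    unfold det
    simp only [Prod.mk_sub_mk]
    rw [hv1, hv2]
    ring
  have e2 : det ((b1, b2) - (a1, a2)) ((d1, d2) - (c1, c2)) =
      -(((c1 - a1) * v2 + (c2 - a2) * v1) + ((b1 - c1) * v2 + (b2 - c2) * v1)) := by
    unfold det
    simp only [Prod.mk_sub_mk]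
    rw [hv1, hv2]
    ring
  rw [e1, e2, neg_div_neg_eq]
  exact key

/-- the second parameter -/
theorem corner2 {H a1 a2 b1 b2 c1 c2 d1 d2 : ℝ} (hH : 0 < H)
    (ha1 : 0 ≤ a1) (ha1' : a1 ≤ H / 4) (ha2 : 0 ≤ a2) (ha2' : a2 ≤ H / 4)
    (hb1 : 3 * H / 4 ≤ b1) (hb1' : b1 ≤ H) (hb2 : 3 * H / 4 ≤ b2) (hb2' : b2 ≤ H)
    (hc1 : 0 ≤ c1) (hc1' : c1 ≤ H / 4) (hc2 : 3 * H / 4 ≤ c2) (hc2' : c2 ≤ H)
    (hd1 : 3 * H / 4 ≤ d1) (hd1' : d1 ≤ H) (hd2 : 0 ≤ d2) (hd2' : d2 ≤ H / 4) :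
    1 / 6 ≤ det ((a1, a2) - (c1, c2)) ((b1, b2) - (a1, a2)) /
        det ((d1, d2) - (c1, c2)) ((b1, b2) - (a1, a2)) ∧
      det ((a1, a2) - (c1, c2)) ((b1, b2) - (a1, a2)) /
        det ((d1, d2) - (c1, c2)) ((b1, b2) - (a1, a2)) ≤ 5 / 6 := by
  set v1 := b1 - a1 with hv1
  set v2 := b2 - a2 with hv2
  have g1 : H / 2 ≤ v1 := by rw [hv1]; linarith
  have g2 : H / 2 ≤ v2 := by rw [hv2]; linarith
  have p1 : 0 < v1 := by linarith
  have p2 : 0 < v2 := by linarith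
  -- ψ p = p.1 * v2 - p.2 * v1
  have e0 : a1 * v2 - a2 * v1 = b1 * v2 - b2 * v1 := by rw [hv1, hv2]; ring
  have f1 := mul_nonneg ha1 p2.le
  have f2 := mul_le_mul_of_nonneg_right ha1' p2.le
  have f3 := mul_nonneg ha2 p1.le
  have f4 := mul_le_mul_of_nonneg_right ha2' p1.le
  have f5 := mul_le_mul_of_nonneg_right hb1 p2.le
  have f6 := mul_le_mul_of_nonneg_right hb1' p2.le
  have f7 := mul_le_mul_of_nonneg_right hb2 p1.le
  have f8 := mul_le_mul_of_nonneg_right hb2' p1.le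
  have f9 := mul_nonneg hc1 p2.le
  have f10 := mul_le_mul_of_nonneg_right hc1' p2.le
  have f11 := mul_le_mul_of_nonneg_right hc2 p1.le
  have f12 := mul_le_mul_of_nonneg_right hc2' p1.le
  have f13 := mul_le_mul_of_nonneg_right hd1 p2.le
  have f14 := mul_le_mul_of_nonneg_right hd1' p2.le
  have f15 := mul_nonneg hd2 p1.le
  have f16 := mul_le_mul_of_nonneg_right hd2' p1.le
  have hm : 0 < H / 8 * (v1 + v2) := by positivity
  have key := ratio (m := H / 8 * (v1 + v2)) (a := (a1 - c1) * v2 + (c2 - a2) * v1)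
    (b := (d1 - a1) * v2 + (a2 - d2) * v1) hm (by nlinarith) (by nlinarith) (by nlinarith) (by nlinarith)
  have e1 : det ((a1, a2) - (c1, c2)) ((b1, b2) - (a1, a2)) = (a1 - c1) * v2 + (c2 - a2) * v1 := by
    unfold det
    simp only [Prod.mk_sub_mk]
    rw [hv1, hv2]
    ring
  have e2 : det ((d1, d2) - (c1, c2)) ((b1, b2) - (a1, a2)) =
      ((a1 - c1) * v2 + (c2 - a2) * v1) + ((d1 - a1) * v2 + (a2 - d2) * v1) := by
    unfold det
    simp only [Prod.mk_sub_mk]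
    rw [hv1, hv2]
    ring
  rw [e1, e2]
  exact key

/-- the threshold is not near the ends -/
theorem window {H p s zj zj' zi w : ℝ} (hH : 64 ≤ H) (hp : 1 / 6 ≤ p) (hp' : p ≤ 5 / 6) (hs : 0 ≤ s) (hs' : s ≤ 1)
    (h1 : 31 * H / 64 ≤ zj) (h1' : zj ≤ 33 * H / 64) (h2 : 31 * H / 64 ≤ zj') (h2' : zj' ≤ 33 * H / 64)
    (h3 : 31 * H / 64 ≤ zi) (h3' : zi ≤ 33 * H / 64) (hw : 0 ≤ w) (hw' : w < 1) :
    H / 4 ≤ ((1 - s) * zj + s * zj' - p * zi) / (1 - p) - w ∧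
      ((1 - s) * zj + s * zj' - p * zi) / (1 - p) - w ≤ 3 * H / 4 - 1 := by
  have hq : 0 < 1 - p := by linarith
  have a1 : 31 * H / 64 ≤ (1 - s) * zj + s * zj' := by nlinarith
  have a2 : (1 - s) * zj + s * zj' ≤ 33 * H / 64 := by nlinarith
  have b1 : p * (31 * H / 64) ≤ p * zi := by
    apply mul_le_mul_of_nonneg_left h3 (by linarith)
  have b2 : p * zi ≤ p * (33 * H / 64) := by
    apply mul_le_mul_of_nonneg_left h3' (by linarith)
  have b3 : p * H ≤ 5 / 6 * H := by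
    apply mul_le_mul_of_nonneg_right hp' (by linarith)
  constructor
  · have : H / 4 + 1 ≤ ((1 - s) * zj + s * zj' - p * zi) / (1 - p) := by
      rw [le_div_iff₀ hq]
      nlinarith
    linarith
  · have : ((1 - s) * zj + s * zj' - p * zi) / (1 - p) ≤ 3 * H / 4 - 1 := by
      rw [div_le_iff₀ hq]
      nlinarith
    linarith

end Pool.Agent.V8H81.Urp
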