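import Pool.Agent.V8H81.Urp.Geo

/-!
# The layout of the moving vertices and of the used edges
-/

set_option autoImplicit false

namespace Pool.Agent.V8H81.Urp

open Finset

variable {n : ℕ} [NeZero n]

theorem succ_val {a : Fin n} (h : (a : ℕ) + 1 < n) : ((a + 1 : Fin n) : ℕ) = a + 1 := by
  rw [Fin.val_add, Fin.val_one', Nat.mod_eq_of_lt (show 1 < n by omega), Nat.mod_eq_of_lt h]

theorem succ_val' {a : Fin n} (h : (a : ℕ) + 1 = n) : ((a + 1 : Fin n) : ℕ) = 0 := by
  rw [Fin.val_add, Fin.val_one']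
  rcases Nat.lt_or_ge 1 n with h1 | h1
  · rw [Nat.mod_eq_of_lt h1, h, Nat.mod_self]
  · have : n = 1 := by omega
    subst this
    omega

theorem succ_ne {a : Fin n} (h : 1 < n) : a + 1 ≠ a := by
  intro e
  have h1 := congrArg Fin.val e
  rcases Nat.lt_or_ge ((a : ℕ) + 1) n with h2 | h2
  · rw [succ_val h2] at h1; omega
  · have := a.2
    rw [succ_val' (by omega)] at h1; omega

theorem succ_succ_ne {a : Fin n} (h : 2 < n) : a + 1 + 1 ≠ a := by
  intro e
  have h1 := congrArg Fin.val e
  rcases Nat.lt_or_ge ((a : ℕ) + 1) n with h2 | h2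
  · have h3 := succ_val h2
    rcases Nat.lt_or_ge (((a + 1 : Fin n) : ℕ) + 1) n with h4 | h4
    · rw [succ_val h4] at h1; omega
    · have := (a + 1).2
      rw [succ_val' (by omega)] at h1; omega
  · have := a.2
    have h3 := succ_val' (a := a) (by omega)
    rw [succ_val (by omega)] at h1; omega

/-- the sizes -/
structure Siz (n M m0 m1 : ℕ) : Prop where
  h1 : 2 * M ≤ m0
  h2 : 2 * m1 ≤ m0
  h3 : 4 * m0 ≤ n
  h4 : 0 < m0

/-- the moving vertices of the kind `s` -/
def mvn (m0 : ℕ) (s : Bool) (a : ℕ) : ℕ := (if s then m0 else 0) + 2 * a + 1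

/-- the used edges of the kind `s` -/
def ptn (m0 : ℕ) (s : Bool) (b : ℕ) : ℕ := (if s then 3 * m0 else 2 * m0) + 2 * b

variable {M m0 m1 : ℕ}

/-- the kinds -/
def knd (M : ℕ) (s : Bool) (a : Fin M) : Fin M ⊕ Fin M := if s then Sum.inr a else Sum.inl a

/-- the numbers of the moving vertices -/
def mvx (m0 : ℕ) : Fin M ⊕ Fin M → ℕ := Sum.elim (fun a => mvn m0 false a) (fun a => mvn m0 true a)

theorem mvx_lt (h : Siz n M m0 m1) (t : Fin M ⊕ Fin M) : mvx m0 t < 2 * m0 := by
  have := h.h1
  have := h.h4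
  rcases t with a | a
  · have := a.2
    simp only [mvx, mvn, Sum.elim_inl, Bool.false_eq_true, if_false]
    omega
  · have := a.2
    simp only [mvx, mvn, Sum.elim_inr, if_true]
    omega

/-- the layout -/
def lay (h : Siz n M m0 m1) : Lay n (Fin M ⊕ Fin M) where
  mv t := ⟨mvx m0 t, by have := mvx_lt h t; have := h.h3; omega⟩
  pt i j := ∃ (s : Bool) (a b : ℕ), a < M ∧ b < m1 ∧ (i : ℕ) = mvn m0 s a ∧ (j : ℕ) = ptn m0 s b
  inj := by
    intro t t' htt
    have h1 := congrArg Fin.val htt
    have := h.h1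
    rcases t with a | a <;> rcases t' with b | b <;> have := a.2 <;> have := b.2 <;>
      simp only [mvx, mvn, Sum.elim_inl, Sum.elim_inr, Bool.false_eq_true, if_false, if_true] at h1
    · congr 1
      exact Fin.ext (by omega)
    · omega
    · omega
    · congr 1
      exact Fin.ext (by omega)
  sep := by
    intro t t' htt
    have h1 := congrArg Fin.val htt
    have h2 := h.h1
    have h3 := h.h3
    have h4 := mvx_lt h t
    rw [succ_val (by simp only; omega)] at h1
    simp only at h1
    rcases t with a | a <;> rcases t' with b | b <;> have := a.2 <;> have := b.2 <;>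
      simp only [mvx, mvn, Sum.elim_inl, Sum.elim_inr, Bool.false_eq_true, if_false, if_true] at h1 <;> omega
  sta := by
    rintro i j ⟨s, a, b, ha, hb, hi, hj⟩ t
    have h1 := mvx_lt h t
    have h2 := h.h2
    have h3 := h.h3
    have h5 : 2 * m0 ≤ (j : ℕ) ∧ (j : ℕ) + 1 < 4 * m0 := by
      rw [hj]
      unfold ptn
      cases s <;> simp <;> omega
    constructor
    · intro e
      have := congrArg Fin.val e
      simp only at this
      omega
    · intro e
      have := congrArg Fin.val e
      rw [succ_val (by omega)] at this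
      simp only at this
      omega
  lt := by
    rintro i j ⟨s, a, b, ha, hb, hi, hj⟩
    have h1 := h.h1
    rw [Fin.lt_def, hi, hj]
    unfold mvn ptn
    cases s <;> simp <;> omega

theorem lay_ordered (h : Siz n M m0 m1) : (lay h).Ordered := by
  rintro a b j j' ⟨s, x, y, hx, hy, hi, hj⟩ ⟨s', x', y', hx', hy', hi', hj'⟩
  have h1 := h.h1
  have h2 := h.h2
  have := a.2
  have := b.2
  have e1 : (((lay h).mv (Sum.inl a) : Fin n) : ℕ) = 2 * a + 1 := by
    simp [lay, mvx, mvn]
  have e2 : (((lay h).mv (Sum.inr b) : Fin n) : ℕ) = m0 + 2 * b + 1 := by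
    simp [lay, mvx, mvn]
  rw [e1] at hi
  rw [e2] at hi'
  rw [Fin.lt_def, Fin.lt_def, Fin.lt_def, e1, e2, hj, hj']
  unfold mvn ptn at *
  cases s <;> cases s' <;> simp at hi hi' ⊢ <;> omega

/-- the moving vertex of the kind `s` with the number `a` -/
def ii (h : Siz n M m0 m1) (s : Bool) (a : Fin M) : Fin n := (lay h).mv (knd M s a)

/-- the used edge of the kind `s` with the number `b` -/
def jj (h : Siz n M m0 m1) (s : Bool) (b : Fin m1) : Fin n :=
  ⟨ptn m0 s b, by
    have := b.2
    have := h.h2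
    have := h.h3
    unfold ptn
    cases s <;> simp <;> omega⟩

theorem ii_val (h : Siz n M m0 m1) (s : Bool) (a : Fin M) : ((ii h s a : Fin n) : ℕ) = mvn m0 s a := by
  cases s <;> simp [ii, lay, knd, mvx]

theorem jj_val (h : Siz n M m0 m1) (s : Bool) (b : Fin m1) : ((jj h s b : Fin n) : ℕ) = ptn m0 s b := rfl

theorem pt_ij (h : Siz n M m0 m1) (s : Bool) (a : Fin M) (b : Fin m1) : (lay h).pt (ii h s a) (jj h s b) :=
  ⟨s, a, b, a.2, b.2, ii_val h s a, jj_val h s b⟩

theorem ii_mo (h : Siz n M m0 m1) (s : Bool) (a : Fin M) : (lay h).mo (ii h s a) := ⟨_, rfl⟩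

theorem ii_inj (h : Siz n M m0 m1) (s : Bool) : Function.Injective (ii h s) := by
  intro a b hab
  have h1 := (lay h).inj hab
  cases s <;> simpa [knd] using h1

theorem jj_inj (h : Siz n M m0 m1) (s : Bool) : Function.Injective (jj h s) := by
  intro a b hab
  have h1 := congrArg Fin.val hab
  rw [jj_val, jj_val] at h1
  unfold ptn at h1
  exact Fin.ext (by omega)

theorem ii_sep (h : Siz n M m0 m1) (s : Bool) (a b : Fin M) : ii h s a + 1 ≠ ii h s b := (lay h).sep _ _

theorem jj_succ (h : Siz n M m0 m1) (s : Bool) (a : Fin m1) : ((jj h s a + 1 : Fin n) : ℕ) = ptn m0 s a + 1 := by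
  have h0 : ((jj h s a : Fin n) : ℕ) + 1 < n := by
    rw [jj_val]
    have := a.2
    have := h.h2
    have := h.h3
    unfold ptn
    cases s <;> simp <;> omega
  rw [succ_val h0, jj_val]

theorem jj_sep (h : Siz n M m0 m1) (s : Bool) (a b : Fin m1) : jj h s a + 1 ≠ jj h s b := by
  intro e
  have h1 := congrArg Fin.val e
  rw [jj_succ, jj_val] at h1
  unfold ptn at h1
  omega

/-- the edge `j` does not come close to the vertex `i` -/
theorem jj_far (h : Siz n M m0 m1) (s : Bool) (a : Fin M) (b : Fin m1) : jj h s b + 1 + 1 ≠ ii h s a := by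
  intro e
  have h1 := congrArg Fin.val e
  rw [ii_val] at h1
  have h2 := jj_succ h s b
  have := h.h1
  have := a.2
  rcases Nat.lt_or_ge (((jj h s b + 1 : Fin n) : ℕ) + 1) n with h3 | h3
  · rw [succ_val h3, h2] at h1
    unfold ptn mvn at h1
    cases s <;> simp at h1 <;> omega
  · have := (jj h s b + 1).2
    rw [succ_val' (by omega)] at h1
    unfold mvn at h1
    omega

end Pool.Agent.V8H81.Urp
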