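import Pool.Agent.V8H81.Urp.Conf

/-!
# Random polygons on a fine grid
-/

set_option autoImplicit false

namespace Pool.Agent.V8H81.Urp

open Finset LaurentPolynomial Pool.Agent.H891R2.Jones Pool.Agent.H832R3.VJ Pool.Agent.R811
  Pool.Agent.V8H81.Rnd
open Pool.Agent.R811.Cross hiding sg

variable {n : ℕ} [NeZero n] {H : ℕ} {u : Co n → ℝ} {r : ℕ} {M m0 m1 : ℕ}

theorem Pr_noNear (h : Siz n M m0 m1) (hn : 1 < n) (hH : 0 < H) (hr : 0 < r) :
    Pr (fun ω : Co n → Fin H => ¬ NoNear (lay h) (PP u ω) (uz u) r (kz ω)) ≤ 16 * (M : ℝ) ^ 2 * (34 * r / H) := by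
  set ed : (Fin M ⊕ Fin M) × Bool → Fin n := fun x => if x.2 then (lay h).mv x.1 else (lay h).mv x.1 - 1 with hed
  have hme : ∀ a, (lay h).me a → ∃ x, ed x = a := by
    intro a ha
    obtain ⟨t, ht | ht⟩ := (me_iff a).1 ha
    · exact ⟨(t, true), by simp [hed, ht]⟩
    · refine ⟨(t, false), ?_⟩
      simp only [hed, Bool.false_eq_true, if_false]
      rw [← ht]
      simp
  have h1 : Pr (fun ω : Co n → Fin H => ¬ NoNear (lay h) (PP u ω) (uz u) r (kz ω)) ≤
      Pr (fun ω : Co n → Fin H => ∃ x ∈ (Finset.univ : Finset (((Fin M ⊕ Fin M) × Bool) × ((Fin M ⊕ Fin M) × Bool))),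
        Cross (PP u ω) (ed x.1) (ed x.2) ∧ |dif u (ed x.1) (ed x.2) ω| < 4 * r) := by
    apply Pr_mono
    intro ω hω
    unfold NoNear at hω
    push Not at hω
    obtain ⟨a, b, h2, h3, h4, h5⟩ := hω
    obtain ⟨x, rfl⟩ := hme a h3
    obtain ⟨y, rfl⟩ := hme b h4
    exact ⟨(x, y), Finset.mem_univ _, h2, h5⟩
  refine h1.trans ((Pr_exists _ _).trans ?_)
  have h2 : ∀ x ∈ (Finset.univ : Finset (((Fin M ⊕ Fin M) × Bool) × ((Fin M ⊕ Fin M) × Bool))),
      Pr (fun ω : Co n → Fin H => Cross (PP u ω) (ed x.1) (ed x.2) ∧ |dif u (ed x.1) (ed x.2) ω| < 4 * r) ≤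
        34 * r / H := fun x _ => Pr_near hn hH hr _ _
  refine (Finset.sum_le_sum h2).trans (le_of_eq ?_)
  rw [Finset.sum_const, Finset.card_univ, Fintype.card_prod, Fintype.card_prod, Fintype.card_bool,
    Fintype.card_sum, Fintype.card_fin, nsmul_eq_mul]
  push_cast
  ring

theorem Pr_act (hu : ∀ c, 0 ≤ u c ∧ u c < 1) (h : Siz n M m0 m1) (s : Bool) (hn : 2 < n) (hH : 128 ≤ H)
    (hr : 0 < r) (hr4 : 4 * r ≤ H) (hM : 0 < M) (hm : 0 < m1) {Q : ℝ} (hQ : 0 < Q)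
    (hQ' : Q ≤ 2 * r / H * (p0 ^ 2 * M * m1 / 8)) :
    Pr (fun ω : Co n → Fin H => ∑ a : Fin M, ff h s u r a ω < Q / 2) ≤
      4 / (p0 * M) + 4 / (p0 * m1) + (62 * n * r / H) * 8 / p0 ^ 2 + 4 * M / Q ^ 2 := by
  have hp := p0_pos
  have hM' : (0:ℝ) < M := by exact_mod_cast hM
  have hm' : (0:ℝ) < m1 := by exact_mod_cast hm
  have hH' : (0:ℝ) < H := by exact_mod_cast (show 0 < H by omega)
  have hr' : (0:ℝ) < r := by exact_mod_cast hr
  set X : (Co n → Fin H) → ℝ := fun ω => ∑ a : Fin M, ff h s u r a ω with hX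
  set Y : (Co n → Fin H) → ℝ := fun ω =>
    ∑ a : Fin M, (∑ c : Fin H, ff h s u r a (Function.update ω (Sum.inr (ii h s a)) c)) / H with hY
  set C : (Co n → Fin H) → ℝ := fun ω => ∑ a : Fin M, (CC h s u r a ω : ℝ) with hC
  have e1 := Pr_AA (H := H) h s hH hM
  have e2 := Pr_KK (H := H) h s hH hm
  have e3 : Pr (fun ω : Co n → Fin H => p0 ^ 2 * M * m1 / 8 ≤ C ω) ≤ (62 * n * r / H) * 8 / p0 ^ 2 := by
    refine (markov (f := C) (fun ω => Finset.sum_nonneg fun a _ => Nat.cast_nonneg _)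
      (c := p0 ^ 2 * M * m1 / 8) (by positivity)).trans ?_
    have h1 := Ex_CC hu h s (H := H) hn (by omega) hr
    calc Ex C / (p0 ^ 2 * M * m1 / 8) ≤ (M * m1 * (62 * n * r / H)) / (p0 ^ 2 * M * m1 / 8) := by
          gcongr
      _ = _ := by field_simp
  have e4 : Pr (fun ω : Co n → Fin H => Q / 2 ≤ |X ω - Y ω|) ≤ 4 * M / Q ^ 2 := by
    have key := cond_chebyshev (κ := Co n) (H := H) (by omega) (fun a : Fin M => Sum.inr (ii h s a))
      (fun a => ff h s u r a) (fun a ω => ff_bounds h s u r a ω) (fun a b hab ω x => ff_dep h s u r a b hab ω x)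
      (fun a b hab => ii_inj h s (Sum.inr.inj hab)) (Q := Q / 2) (by positivity)
    refine key.trans (le_of_eq ?_)
    field_simp
    ring
  have e5 : Pr (fun ω : Co n → Fin H => X ω < Q / 2) ≤
      Pr (fun ω : Co n → Fin H => (((AA h s ω : ℝ) < p0 * M / 2 ∨ (KK h s ω : ℝ) < p0 * m1 / 2) ∨
        p0 ^ 2 * M * m1 / 8 ≤ C ω) ∨ Q / 2 ≤ |X ω - Y ω|) := by
    apply Pr_mono
    intro ω hω
    by_contra hc
    push Not at hc
    obtain ⟨⟨⟨h1, h2⟩, h3⟩, h4⟩ := hc
    have h5 := ff_total hu h s (show 1 < n by omega) hH hr4 ω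
    have h6 : (p0 * M / 2) * (p0 * m1 / 2) ≤ (AA h s ω : ℝ) * KK h s ω :=
      mul_le_mul h1 h2 (by positivity) (Nat.cast_nonneg _)
    have h7 : Q ≤ Y ω := by
      refine le_trans ?_ h5
      refine hQ'.trans ?_
      rw [div_mul_eq_mul_div]
      apply div_le_div_of_nonneg_right _ hH'.le
      apply mul_le_mul_of_nonneg_left _ (by positivity)
      have h8 : ∑ a : Fin M, (CC h s u r a ω : ℝ) < p0 ^ 2 * M * m1 / 8 := h3
      nlinarith
    rw [abs_lt] at h4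
    linarith [h4.1]
  have e6 := (Pr_or (A := fun ω : Co n → Fin H => ((AA h s ω : ℝ) < p0 * M / 2 ∨ (KK h s ω : ℝ) < p0 * m1 / 2) ∨
    p0 ^ 2 * M * m1 / 8 ≤ C ω) (B := fun ω : Co n → Fin H => Q / 2 ≤ |X ω - Y ω|))
  have e7 := (Pr_or (A := fun ω : Co n → Fin H => (AA h s ω : ℝ) < p0 * M / 2 ∨ (KK h s ω : ℝ) < p0 * m1 / 2)
    (B := fun ω : Co n → Fin H => p0 ^ 2 * M * m1 / 8 ≤ C ω))
  have e8 := (Pr_or (A := fun ω : Co n → Fin H => (AA h s ω : ℝ) < p0 * M / 2)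
    (B := fun ω : Co n → Fin H => (KK h s ω : ℝ) < p0 * m1 / 2))
  linarith

theorem sum_ff (h : Siz n M m0 m1) (s : Bool) (ω : Co n → Fin H) :
    ∑ a : Fin M, ff h s u r a ω =
      ((actives (lay h) (PP u ω) (uz u) r (knd M s) (kz ω)).card : ℝ) := by
  classical
  unfold actives
  rw [Finset.card_filter]
  push_cast
  refine Finset.sum_congr rfl fun a _ => ?_
  unfold ff ii
  congr

theorem Pr_bad (hu : ∀ c, 0 ≤ u c ∧ u c < 1) (h : Siz n M m0 m1) (hn : 2 < n) (hH : 128 ≤ H)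
    (hr : 0 < r) (hr4 : 4 * r ≤ H) (hM : 0 < M) (hm : 0 < m1) {Q : ℝ} (hQ : 0 < Q)
    (hQ' : Q ≤ 2 * r / H * (p0 ^ 2 * M * m1 / 8)) :
    Pr (fun ω : Co n → Fin H => ¬ (NoNear (lay h) (PP u ω) (uz u) r (kz ω) ∧
      ⌈Q / 2⌉₊ ≤ (actives (lay h) (PP u ω) (uz u) r Sum.inl (kz ω)).card ∧
      ⌈Q / 2⌉₊ ≤ (actives (lay h) (PP u ω) (uz u) r Sum.inr (kz ω)).card)) ≤
      16 * (M : ℝ) ^ 2 * (34 * r / H) +
        2 * (4 / (p0 * M) + 4 / (p0 * m1) + (62 * n * r / H) * 8 / p0 ^ 2 + 4 * M / Q ^ 2) := by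
  have e1 := Pr_noNear (u := u) h (H := H) (show 1 < n by omega) (by omega) hr
  have e2 := Pr_act hu h false hn hH hr hr4 hM hm hQ hQ'
  have e3 := Pr_act hu h true hn hH hr hr4 hM hm hQ hQ'
  have e4 : Pr (fun ω : Co n → Fin H => ¬ (NoNear (lay h) (PP u ω) (uz u) r (kz ω) ∧
      ⌈Q / 2⌉₊ ≤ (actives (lay h) (PP u ω) (uz u) r Sum.inl (kz ω)).card ∧
      ⌈Q / 2⌉₊ ≤ (actives (lay h) (PP u ω) (uz u) r Sum.inr (kz ω)).card)) ≤
      Pr (fun ω : Co n → Fin H => (¬ NoNear (lay h) (PP u ω) (uz u) r (kz ω) ∨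
        ∑ a : Fin M, ff h false u r a ω < Q / 2) ∨ ∑ a : Fin M, ff h true u r a ω < Q / 2) := by
    apply Pr_mono
    intro ω hω
    by_contra hc
    push Not at hc
    obtain ⟨⟨h1, h2⟩, h3⟩ := hc
    apply hω
    rw [sum_ff] at h2 h3
    exact ⟨h1, Nat.ceil_le.2 h2, Nat.ceil_le.2 h3⟩
  have e6 := (Pr_or (A := fun ω : Co n → Fin H => ¬ NoNear (lay h) (PP u ω) (uz u) r (kz ω) ∨
        ∑ a : Fin M, ff h false u r a ω < Q / 2) (B := fun ω : Co n → Fin H =>
        ∑ a : Fin M, ff h true u r a ω < Q / 2))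
  have e7 := (Pr_or (A := fun ω : Co n → Fin H => ¬ NoNear (lay h) (PP u ω) (uz u) r (kz ω))
    (B := fun ω : Co n → Fin H => ∑ a : Fin M, ff h false u r a ω < Q / 2))
  linarith

/-! ### fibres over the projections -/

/-- the projection -/
noncomputable def PX (u : Co n → ℝ) (x : Fin n ⊕ Fin n → Fin H) (a : Fin n) : ℝ × ℝ :=
  (u (Sum.inl (Sum.inl a)) + ((x (Sum.inl a) : ℕ) : ℝ), u (Sum.inl (Sum.inr a)) + ((x (Sum.inr a) : ℕ) : ℝ))

theorem PP_elim (u : Co n → ℝ) (x : Fin n ⊕ Fin n → Fin H) (k : Fin n → Fin H) :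
    PP u (Sum.elim x k) = PX u x := rfl

theorem kz_elim (x : Fin n ⊕ Fin n → Fin H) (k : Fin n → Fin H) : kz (Sum.elim x k) = k := rfl

open Classical in
/-- the number of the heights with a property -/
noncomputable def cnt (A : (Fin n → Fin H) → Prop) : ℝ := ((Finset.univ.filter A).card : ℝ)

theorem cnt_nonneg (A : (Fin n → Fin H) → Prop) : 0 ≤ cnt A := by unfold cnt; positivity

open Classical in
theorem Pr_fibres (A : (Co n → Fin H) → Prop) :
    Pr A = (∑ x : Fin n ⊕ Fin n → Fin H, cnt (fun k : Fin n → Fin H => A (Sum.elim x k))) /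
      (H : ℝ) ^ Fintype.card (Co n) := by
  unfold Pr cnt
  congr 1
  have e1 : ((Finset.univ.filter A).card : ℝ) = ∑ ω : Co n → Fin H, if A ω then (1:ℝ) else 0 := by
    rw [Finset.card_filter]
    push_cast
    rfl
  rw [e1, ← Equiv.sum_comp (Equiv.sumArrowEquivProdArrow (Fin n ⊕ Fin n) (Fin n) (Fin H)).symm,
    Fintype.sum_prod_type]
  refine Finset.sum_congr rfl fun x _ => ?_
  rw [Finset.card_filter]
  push_cast
  refine Finset.sum_congr rfl fun k _ => ?_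
  congr

theorem Pr_moment (h : Siz n M m0 m1) (hH : 0 < H) (hr : 0 < r) {ν : ℕ} (hν : 0 < ν) (c : ℤ) :
    Pr (fun ω : Co n → Fin H => ∃ hg : General (PP u ω), moment 2 (lift (PP u ω) hg (zz (uz u) (kz ω))).fPoly = c) ≤
      (162 / ν : ℝ) ^ (1 / 4 : ℝ) +
      Pr (fun ω : Co n → Fin H => ¬ (NoNear (lay h) (PP u ω) (uz u) r (kz ω) ∧
        ν ≤ (actives (lay h) (PP u ω) (uz u) r Sum.inl (kz ω)).card ∧
        ν ≤ (actives (lay h) (PP u ω) (uz u) r Sum.inr (kz ω)).card)) := by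
  have hH' : (0:ℝ) < H := by exact_mod_cast hH
  rw [Pr_fibres, Pr_fibres]
  have h1 : ∀ x ∈ (Finset.univ : Finset (Fin n ⊕ Fin n → Fin H)),
      cnt (fun k : Fin n → Fin H => ∃ hg : General (PX u x), moment 2 (lift (PX u x) hg (zz (uz u) k)).fPoly = c) ≤
      (162 / ν : ℝ) ^ (1 / 4 : ℝ) * (H : ℝ) ^ n +
      cnt (fun k : Fin n → Fin H => ¬ (NoNear (lay h) (PX u x) (uz u) r k ∧
        ν ≤ (actives (lay h) (PX u x) (uz u) r Sum.inl k).card ∧
        ν ≤ (actives (lay h) (PX u x) (uz u) r Sum.inr k).card)) := by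
    intro x _
    by_cases hg : General (PX u x)
    · have h2 := count_heights (H := H) (u := uz u) (r := r) hg (lay_ordered h) hr hν c
      have e3 : cnt (fun k : Fin n → Fin H => ¬ (NoNear (lay h) (PX u x) (uz u) r k ∧
        ν ≤ (actives (lay h) (PX u x) (uz u) r Sum.inl k).card ∧
        ν ≤ (actives (lay h) (PX u x) (uz u) r Sum.inr k).card)) =
          ((bad (lay h) (PX u x) (uz u) r ν H).card : ℝ) := by
        unfold cnt bad
        congr
      rw [e3]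
      refine le_trans ?_ h2
      have : ∀ A B : (Fin n → Fin H) → Prop, (∀ k, A k → B k) → cnt A ≤ cnt B := by
        intro A B hAB
        classical
        unfold cnt
        have h3 : (Finset.univ.filter A).card ≤ (Finset.univ.filter B).card := by
          apply Finset.card_le_card
          intro k hk
          rw [Finset.mem_filter] at hk ⊢
          exact ⟨hk.1, hAB k hk.2⟩
        exact_mod_cast h3
      refine (this _ (fun k : Fin n → Fin H => moment 2 (lift (PX u x) hg (zz (uz u) k)).fPoly = c)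
        (fun k hk => hk.choose_spec)).trans (le_of_eq ?_)
      unfold cnt
      congr
    · have e0 : cnt (fun k : Fin n → Fin H => ∃ hg : General (PX u x),
          moment 2 (lift (PX u x) hg (zz (uz u) k)).fPoly = c) = 0 := by
        have : ∀ A : (Fin n → Fin H) → Prop, (∀ k, ¬ A k) → cnt A = 0 := by
          intro A hA
          classical
          unfold cnt
          rw [Finset.filter_false_of_mem (fun ω _ => hA ω)]
          simp
        exact this _ (fun k hk => hg hk.choose)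
      rw [e0]
      have := cnt_nonneg (fun k : Fin n → Fin H => ¬ (NoNear (lay h) (PX u x) (uz u) r k ∧
        ν ≤ (actives (lay h) (PX u x) (uz u) r Sum.inl k).card ∧
        ν ≤ (actives (lay h) (PX u x) (uz u) r Sum.inr k).card))
      positivity
  have h2 := Finset.sum_le_sum h1
  rw [Finset.sum_add_distrib, Finset.sum_const, Finset.card_univ, Fintype.card_fun, Fintype.card_sum,
    Fintype.card_fin, Fintype.card_fin, nsmul_eq_mul] at h2
  have e2 : (((H ^ (n + n) : ℕ) : ℝ)) * ((162 / ν : ℝ) ^ (1 / 4 : ℝ) * (H : ℝ) ^ n) =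
      (162 / ν : ℝ) ^ (1 / 4 : ℝ) * (H : ℝ) ^ Fintype.card (Co n) := by
    rw [Fintype.card_sum, Fintype.card_sum, Fintype.card_fin]
    push_cast
    ring
  rw [e2] at h2
  have h3 : (0:ℝ) < (H : ℝ) ^ Fintype.card (Co n) := by positivity
  rw [div_le_iff₀ h3, add_mul, div_mul_cancel₀ _ h3.ne']
  exact h2

end Pool.Agent.V8H81.Urp
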