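import Pool.Agent.V8H81.Urp.Prob

/-!
# From grids to the Lebesgue measure
-/

set_option autoImplicit false

namespace Pool.Agent.V8H81.Urp

open Finset MeasureTheory ENNReal Pointwise

variable {κ : Type} [Fintype κ] [DecidableEq κ]

/-- a set is null if it has at most one point on every line parallel to one axis -/
theorem null_of_coord (c : κ) {A : Set (κ → ℝ)} (hA : MeasurableSet A)
    (h : ∀ V : κ → ℝ, {t : ℝ | Function.update V c t ∈ A}.Subsingleton) : volume A = 0 := by
  have h1 : volume A = ∫⁻ V : κ → ℝ, A.indicator (fun _ => (1 : ℝ≥0∞)) V := by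
    rw [lintegral_indicator hA, setLIntegral_one]
  have hm : Measurable (A.indicator (fun _ => (1 : ℝ≥0∞))) := measurable_const.indicator hA
  rw [h1]
  have h2 := lintegral_eq_lmarginal_univ (μ := fun _ : κ => (volume : Measure ℝ))
    (f := A.indicator (fun _ => (1 : ℝ≥0∞))) (fun _ => (0:ℝ))
  rw [lmarginal_erase' _ hm (Finset.mem_univ c)] at h2
  have h3 : (fun V : κ → ℝ => ∫⁻ t, A.indicator (fun _ => (1 : ℝ≥0∞)) (Function.update V c t)) = fun _ => 0 := by
    funext V
    have h4 : ∀ t, A.indicator (fun _ => (1 : ℝ≥0∞)) (Function.update V c t) =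
        ({t : ℝ | Function.update V c t ∈ A}).indicator (fun _ => (1 : ℝ≥0∞)) t := by
      intro t
      by_cases h5 : Function.update V c t ∈ A
      · rw [Set.indicator_of_mem h5, Set.indicator_of_mem (by exact h5)]
      · rw [Set.indicator_of_notMem h5, Set.indicator_of_notMem (by exact h5)]
    simp only [h4]
    have h6 : MeasurableSet {t : ℝ | Function.update V c t ∈ A} := (h V).measurableSet
    rw [lintegral_indicator h6, setLIntegral_one]
    exact (h V).measure_zero _
  rw [h3] at h2
  have h5 : (∫⋯∫⁻_(Finset.univ.erase c), (fun _ : κ → ℝ => (0 : ℝ≥0∞)) ∂(fun _ : κ => (volume : Measure ℝ)))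
      (fun _ => (0:ℝ)) = 0 := by
    unfold lmarginal
    simp
  rw [h5] at h2
  exact h2

/-- the half open cube -/
def cube (κ : Type) (h : ℝ) : Set (κ → ℝ) := {V | ∀ c, 0 ≤ V c ∧ V c < h}

omit [DecidableEq κ] in
theorem cube_eq (h : ℝ) : cube κ h = Set.pi Set.univ (fun _ : κ => Set.Ico 0 h) := by
  ext V
  simp [cube]

omit [DecidableEq κ] in
theorem cube_measurable (h : ℝ) : MeasurableSet (cube κ h) := by
  rw [cube_eq]
  exact MeasurableSet.univ_pi (fun _ => measurableSet_Ico)

omit [DecidableEq κ] in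
theorem volume_cube : volume (cube κ 1) = 1 := by
  rw [cube_eq, Real.volume_pi_Ico]
  simp

/-- a place of the grid -/
noncomputable def grd {H : ℕ} (ω : κ → Fin H) (c : κ) : ℝ := ((ω c : ℕ) : ℝ)

/-- If a set is stable under the scaling by `H`, and if for all offsets `u` in the unit cube its intersection with
the shifted grid `u + {0, …, H - 1}^κ` has at most the proportion `p`, then the volume of its intersection with the
unit cube is at most `p`. -/
theorem vol_le {A : Set (κ → ℝ)} (hA : MeasurableSet A) {H : ℕ} (hH : 0 < H)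
    (hsc : ∀ V, V ∈ A → (H : ℝ) • V ∈ A) {p : ℝ}
    (hgrid : ∀ u : κ → ℝ, (∀ c, 0 ≤ u c ∧ u c < 1) → Pr (fun ω : κ → Fin H => (u + grd ω) ∈ A) ≤ p) :
    volume (A ∩ cube κ 1) ≤ ENNReal.ofReal p := by
  classical
  have hH' : (0:ℝ) < H := by exact_mod_cast hH
  set N : ℝ := (H : ℝ) ^ Fintype.card κ with hN
  have hN0 : 0 < N := by positivity
  -- scaling
  have h1 : volume ((H : ℝ) • (A ∩ cube κ 1)) = ENNReal.ofReal N * volume (A ∩ cube κ 1) := by
    rw [Measure.addHaar_smul, Module.finrank_fintype_fun_eq_card, abs_of_nonneg (by positivity)]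
  have h2 : (H : ℝ) • (A ∩ cube κ 1) ⊆ A ∩ cube κ H := by
    rintro _ ⟨V, ⟨hV1, hV2⟩, rfl⟩
    refine ⟨hsc V hV1, fun c => ?_⟩
    have := hV2 c
    simp only [Pi.smul_apply, smul_eq_mul]
    constructor
    · exact mul_nonneg hH'.le this.1
    · calc (H:ℝ) * V c < H * 1 := by gcongr; exact this.2
        _ = H := mul_one _
  -- the pieces
  set S : (κ → Fin H) → Set (κ → ℝ) := fun ω => cube κ 1 ∩ (fun u => u + grd ω) ⁻¹' A with hS
  have hSm : ∀ ω, MeasurableSet (S ω) := fun ω =>
    (cube_measurable 1).inter ((measurable_id.add_const _) hA)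
  have h3 : A ∩ cube κ H ⊆ ⋃ ω ∈ (Finset.univ : Finset (κ → Fin H)), (fun V => V + (-grd ω)) ⁻¹' (S ω) := by
    rintro V ⟨hV1, hV2⟩
    have hlt : ∀ c, ⌊V c⌋₊ < H := by
      intro c
      rw [Nat.floor_lt (hV2 c).1]
      exact (hV2 c).2
    refine Set.mem_biUnion (x := fun c => ⟨⌊V c⌋₊, hlt c⟩) (Finset.mem_coe.2 (Finset.mem_univ _)) ?_
    simp only [hS, Set.mem_preimage, Set.mem_inter_iff]
    constructor
    · intro c
      have e : (V + -grd (fun c => (⟨⌊V c⌋₊, hlt c⟩ : Fin H))) c = V c - (⌊V c⌋₊ : ℝ) := by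
        simp [grd, sub_eq_add_neg]
      rw [e]
      have := Nat.floor_le (hV2 c).1
      have := Nat.lt_floor_add_one (V c)
      constructor <;> linarith
    · have e : V + -grd (fun c => (⟨⌊V c⌋₊, hlt c⟩ : Fin H)) + grd (fun c => (⟨⌊V c⌋₊, hlt c⟩ : Fin H)) = V := by
        simp
      rw [e]
      exact hV1
  have h4 : volume (A ∩ cube κ H) ≤ ∑ ω : κ → Fin H, volume (S ω) := by
    refine (measure_mono h3).trans ((measure_biUnion_finset_le _ _).trans (le_of_eq ?_))
    refine Finset.sum_congr rfl fun ω _ => ?_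
    exact measure_preimage_add_right volume _ _
  have h5 : ∑ ω : κ → Fin H, volume (S ω) ≤ ENNReal.ofReal (p * N) := by
    have e1 : ∀ ω : κ → Fin H, volume (S ω) = ∫⁻ u in cube κ 1, ((fun u => u + grd ω) ⁻¹' A).indicator
        (fun _ => (1:ℝ≥0∞)) u := by
      intro ω
      have hm : MeasurableSet ((fun u : κ → ℝ => u + grd ω) ⁻¹' A) := (measurable_id.add_const _) hA
      rw [lintegral_indicator hm, setLIntegral_one, Measure.restrict_apply hm, Set.inter_comm]
    simp only [e1]
    rw [← lintegral_finsetSum]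
    · have e2 : ∫⁻ u in cube κ 1, ∑ ω : κ → Fin H, ((fun u => u + grd ω) ⁻¹' A).indicator
          (fun _ => (1:ℝ≥0∞)) u ≤ ∫⁻ _u in cube κ 1, ENNReal.ofReal (p * N) := by
        apply setLIntegral_mono measurable_const
        intro u hu
        have h6 := hgrid u hu
        have h7 : ∑ ω : κ → Fin H, ((fun u => u + grd ω) ⁻¹' A).indicator (fun _ => (1:ℝ≥0∞)) u =
            (((Finset.univ.filter (fun ω : κ → Fin H => (u + grd ω) ∈ A)).card : ℕ) : ℝ≥0∞) := by
          rw [Finset.card_filter]
          push_cast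
          refine Finset.sum_congr rfl fun ω _ => ?_
          by_cases h8 : u + grd ω ∈ A
          · rw [if_pos h8, Set.indicator_of_mem (by exact h8)]
          · rw [if_neg h8, Set.indicator_of_notMem (by exact h8)]
        rw [h7]
        unfold Pr at h6
        rw [div_le_iff₀ hN0] at h6
        have h8 : (((Finset.univ.filter (fun ω : κ → Fin H => (u + grd ω) ∈ A)).card : ℕ) : ℝ≥0∞) =
            ENNReal.ofReal ((((Finset.univ.filter (fun ω : κ → Fin H => (u + grd ω) ∈ A)).card : ℕ) : ℝ)) := by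
          rw [ENNReal.ofReal_natCast]
        rw [h8]
        apply ENNReal.ofReal_le_ofReal
        convert h6 using 2
      refine e2.trans (le_of_eq ?_)
      rw [setLIntegral_const, volume_cube, mul_one]
    · intro ω _
      exact measurable_const.indicator ((measurable_id.add_const _) hA)
  have h6 : ENNReal.ofReal N * volume (A ∩ cube κ 1) ≤ ENNReal.ofReal N * ENNReal.ofReal p := by
    rw [← h1, ← ENNReal.ofReal_mul hN0.le, mul_comm N p]
    exact (measure_mono h2).trans (h4.trans h5)
  have hN1 : ENNReal.ofReal N ≠ 0 := by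
    rw [Ne, ENNReal.ofReal_eq_zero, not_le]
    exact hN0
  exact (ENNReal.mul_le_mul_iff_right hN1 ENNReal.ofReal_ne_top).1 h6

end Pool.Agent.V8H81.Urp
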