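import Pool.Agent.V8H81.Urp.Cube

/-!
# Moving the heights of some vertices
-/

set_option autoImplicit false

namespace Pool.Agent.V8H81.Urp

open Finset LaurentPolynomial Pool.Agent.H891R2.Jones Pool.Agent.H832R3.VJ Pool.Agent.R811
  Pool.Agent.V8H81.Rnd
open Pool.Agent.R811.Cross hiding sg

variable {n : ℕ} [NeZero n] {H : ℕ}

/-- the heights -/
noncomputable def zz (u : Fin n → ℝ) (k : Fin n → Fin H) (a : Fin n) : ℝ := u a + ((k a : ℕ) : ℝ)

/-- the coefficient of the height of the vertex `i` in the height of the edge `e` (with `e = i` or `e + 1 = i`) over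
its crossing with `g` -/
noncomputable def coef (P : Fin n → ℝ × ℝ) (i e g : Fin n) : ℝ := if e = i then 1 - par P e g else par P e g

/-- the other vertex of the edge -/
def oth (i e : Fin n) : Fin n := if e = i then i + 1 else e

/-- the real threshold -/
noncomputable def thr (P : Fin n → ℝ × ℝ) (u : Fin n → ℝ) (k : Fin n → Fin H) (i e g : Fin n) : ℝ :=
  (hgt P (zz u k) g e - (1 - coef P i e g) * zz u k (oth i e)) / coef P i e g - u i

/-- the threshold: the edge `e` is the lower one iff `k i < tau` -/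
noncomputable def tau (P : Fin n → ℝ × ℝ) (u : Fin n → ℝ) (k : Fin n → Fin H) (i e g : Fin n) : ℤ :=
  ⌈thr P u k i e g⌉

theorem coef_pos {P : Fin n → ℝ × ℝ} {i e g : Fin n} (h : Cross P e g) : 0 < coef P i e g := by
  unfold coef
  split_ifs
  · linarith [h.1.2]
  · exact h.1.1

theorem hgt_coef {P : Fin n → ℝ × ℝ} (z : Fin n → ℝ) {i e g : Fin n} (hi : e = i ∨ e + 1 = i) :
    hgt P z e g = coef P i e g * z i + (1 - coef P i e g) * z (oth i e) := by
  unfold hgt coef oth
  by_cases h : e = i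
  · subst h
    simp only [if_true]
    ring
  · rw [if_neg h, if_neg h]
    have h2 := hi.resolve_left h
    rw [h2]
    ring

theorem low_iff {P : Fin n → ℝ × ℝ} {u : Fin n → ℝ} {k : Fin n → Fin H} {i e g : Fin n}
    (hi : e = i ∨ e + 1 = i) (h : Cross P e g) :
    hgt P (zz u k) e g < hgt P (zz u k) g e ↔ ((k i : ℕ) : ℤ) < tau P u k i e g := by
  have hc := coef_pos (i := i) h
  rw [hgt_coef (zz u k) hi]
  unfold tau
  rw [Int.lt_ceil]
  unfold thr
  rw [lt_sub_iff_add_lt, lt_div_iff₀ hc]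
  have e1 : zz u k i = u i + ((k i : ℕ) : ℝ) := rfl
  rw [e1]
  push_cast
  constructor <;> intro h1 <;> nlinarith

theorem high_iff {P : Fin n → ℝ × ℝ} {u : Fin n → ℝ} {k : Fin n → Fin H} {i e g : Fin n}
    (hi : e = i ∨ e + 1 = i) (h : Cross P e g) :
    hgt P (zz u k) g e < hgt P (zz u k) e g ↔ ⌊thr P u k i e g⌋ < ((k i : ℕ) : ℤ) := by
  have hc := coef_pos (i := i) h
  rw [hgt_coef (zz u k) hi]
  rw [Int.floor_lt]
  unfold thr
  rw [sub_lt_iff_lt_add, div_lt_iff₀ hc]
  have e1 : zz u k i = u i + ((k i : ℕ) : ℝ) := rfl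
  rw [e1]
  push_cast
  constructor <;> intro h1 <;> nlinarith

theorem hgt_congr {P : Fin n → ℝ × ℝ} {z z' : Fin n → ℝ} {a b : Fin n} (h1 : z a = z' a)
    (h2 : z (a + 1) = z' (a + 1)) : hgt P z a b = hgt P z' a b := by
  unfold hgt; rw [h1, h2]

theorem thr_congr {P : Fin n → ℝ × ℝ} {u : Fin n → ℝ} {k k' : Fin n → Fin H} {i e g : Fin n}
    (h1 : k g = k' g) (h2 : k (g + 1) = k' (g + 1)) (h3 : k (oth i e) = k' (oth i e)) :
    thr P u k i e g = thr P u k' i e g := by
  unfold thr
  have e1 : zz u k g = zz u k' g := by unfold zz; rw [h1]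
  have e2 : zz u k (g + 1) = zz u k' (g + 1) := by unfold zz; rw [h2]
  have e3 : zz u k (oth i e) = zz u k' (oth i e) := by unfold zz; rw [h3]
  rw [hgt_congr e1 e2, e3]

theorem not_cross_succ (P : Fin n → ℝ × ℝ) (a : Fin n) : ¬ Cross P a (a + 1) := by
  intro h
  have h1 := h.1
  have e : par P a (a + 1) = det (dir P a) (dir P (a+1)) / det (dir P a) (dir P (a+1)) := rfl
  rw [e] at h1
  by_cases h0 : det (dir P a) (dir P (a+1)) = 0
  · rw [h0, div_zero] at h1; exact lt_irrefl _ h1.1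
  · rw [div_self h0] at h1; exact lt_irrefl _ h1.2

/-- which vertices move, and which crossings are used -/
structure Lay (n : ℕ) [NeZero n] (ι : Type) where
  mv : ι → Fin n
  pt : Fin n → Fin n → Prop
  inj : Function.Injective mv
  sep : ∀ t t', mv t + 1 ≠ mv t'
  sta : ∀ i j, pt i j → ∀ t, mv t ≠ j ∧ mv t ≠ j + 1
  lt : ∀ i j, pt i j → i < j

variable {ι : Type} (L : Lay n ι)

/-- the vertex moves -/
def Lay.mo (a : Fin n) : Prop := ∃ t, L.mv t = a

/-- an endpoint of the edge moves -/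
def Lay.me (a : Fin n) : Prop := L.mo a ∨ L.mo (a + 1)

variable (P : Fin n → ℝ × ℝ) (u : Fin n → ℝ) (r : ℕ)

/-- the crossing of the edges `i` and `j` is isolated -/
def Iso (k : Fin n → Fin H) (i j : Fin n) : Prop :=
  L.pt i j ∧ Cross P i j ∧ (r : ℤ) ≤ tau P u k i i j ∧ tau P u k i i j + r ≤ H ∧
    ∀ e g, (e = i ∨ e + 1 = i) → Cross P e g → ¬ L.me g → ¬ (e = i ∧ g = j) →
      (2 * r : ℤ) ≤ |tau P u k i e g - tau P u k i i j|

/-- the crossing is isolated and the height of the vertex `i` is close to the threshold -/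
def Act (k : Fin n → Fin H) (i j : Fin n) : Prop :=
  Iso L P u r k i j ∧ tau P u k i i j - r ≤ ((k i : ℕ) : ℤ) ∧ ((k i : ℕ) : ℤ) < tau P u k i i j + r

variable {L P u r}

theorem not_me_of_pt {i j : Fin n} (h : L.pt i j) : ¬ L.me j := by
  rintro (⟨t, ht⟩ | ⟨t, ht⟩)
  · exact (L.sta i j h t).1 ht
  · exact (L.sta i j h t).2 ht

theorem Act.unique {k : Fin n → Fin H} {i j j' : Fin n} (h : Act L P u r k i j) (h' : Act L P u r k i j') :
    j = j' := by
  by_contra hne
  have h1 := h.1.2.2.2.2 i j' (Or.inl rfl) h'.1.2.1 (not_me_of_pt h'.1.1) (fun c => hne c.2.symm)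
  have h2 := h.2
  have h3 := h'.2
  rw [le_abs] at h1
  omega

open Classical in
/-- the reflection of the height of the vertex `i` at the threshold, if this is possible -/
noncomputable def refl (L : Lay n ι) (P : Fin n → ℝ × ℝ) (u : Fin n → ℝ) (r : ℕ) (k : Fin n → Fin H)
    (i : Fin n) : Fin H :=
  if h : ∃ j, Act L P u r k i j then
    ⟨(2 * tau P u k i i h.choose - 1 - ((k i : ℕ) : ℤ)).toNat, by
      have h1 := h.choose_spec
      have h2 := h1.1.2.2.1
      have h3 := h1.1.2.2.2.1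
      have h4 := h1.2
      have h5 := (k i).2
      omega⟩
  else k i

theorem refl_act {k : Fin n → Fin H} {i j : Fin n} (h : Act L P u r k i j) :
    ((refl L P u r k i : ℕ) : ℤ) = 2 * tau P u k i i j - 1 - ((k i : ℕ) : ℤ) := by
  have hex : ∃ j, Act L P u r k i j := ⟨j, h⟩
  have hj : hex.choose = j := hex.choose_spec.unique h
  unfold refl
  rw [dif_pos hex]
  simp only [hj]
  have h2 := h.1.2.2.1
  have h4 := h.2
  omega

theorem refl_not {k : Fin n → Fin H} {i : Fin n} (h : ¬ ∃ j, Act L P u r k i j) :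
    refl L P u r k i = k i := by
  unfold refl
  rw [dif_neg h]

open Classical in
/-- reflect some heights -/
noncomputable def mov (L : Lay n ι) (P : Fin n → ℝ × ℝ) (u : Fin n → ℝ) (r : ℕ) (ε : ι → Bool)
    (k : Fin n → Fin H) (a : Fin n) : Fin H :=
  if ∃ t, L.mv t = a ∧ ε t = true then refl L P u r k a else k a

theorem mov_static {ε : ι → Bool} {k : Fin n → Fin H} {a : Fin n} (h : ¬ L.mo a) :
    mov L P u r ε k a = k a := by
  unfold mov
  rw [if_neg]
  rintro ⟨t, ht, _⟩
  exact h ⟨t, ht⟩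

theorem mov_mv (ε : ι → Bool) (k : Fin n → Fin H) (t : ι) :
    mov L P u r ε k (L.mv t) = if ε t then refl L P u r k (L.mv t) else k (L.mv t) := by
  unfold mov
  by_cases h : ε t = true
  · rw [if_pos ⟨t, rfl, h⟩, if_pos h]
  · rw [if_neg h, if_neg]
    rintro ⟨t', ht', h'⟩
    rw [L.inj ht'] at h'
    exact h h'

theorem mo_oth {i e : Fin n} (hi : L.mo i) (he : e = i ∨ e + 1 = i) : ¬ L.mo (oth i e) := by
  obtain ⟨t, rfl⟩ := hi
  rintro ⟨t', ht'⟩
  unfold oth at ht'
  by_cases h : e = L.mv t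
  · rw [if_pos h] at ht'
    exact L.sep t t' ht'.symm
  · rw [if_neg h] at ht'
    have h2 := he.resolve_left h
    rw [← ht'] at h2
    exact L.sep t' t h2

theorem thr_mov {ε : ι → Bool} {k : Fin n → Fin H} {i e g : Fin n} (hi : L.mo i) (he : e = i ∨ e + 1 = i)
    (hg : ¬ L.me g) : thr P u (mov L P u r ε k) i e g = thr P u k i e g := by
  apply thr_congr
  · exact mov_static (fun h => hg (Or.inl h))
  · exact mov_static (fun h => hg (Or.inr h))
  · exact mov_static (mo_oth hi he)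

theorem tau_mov {ε : ι → Bool} {k : Fin n → Fin H} {i e g : Fin n} (hi : L.mo i) (he : e = i ∨ e + 1 = i)
    (hg : ¬ L.me g) : tau P u (mov L P u r ε k) i e g = tau P u k i e g := by
  unfold tau; rw [thr_mov hi he hg]

theorem iso_mov {ε : ι → Bool} {k : Fin n → Fin H} {i j : Fin n} (hi : L.mo i) :
    Iso L P u r (mov L P u r ε k) i j ↔ Iso L P u r k i j := by
  unfold Iso
  by_cases hp : L.pt i j
  · have e1 : tau P u (mov L P u r ε k) i i j = tau P u k i i j :=
      tau_mov hi (Or.inl rfl) (not_me_of_pt hp)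
    rw [e1]
    refine and_congr_right fun _ => and_congr_right fun _ => and_congr_right fun _ =>
      and_congr_right fun _ => ?_
    constructor
    · intro h e g h1 h2 h3 h4
      have := h e g h1 h2 h3 h4
      rwa [tau_mov hi h1 h3] at this
    · intro h e g h1 h2 h3 h4
      rw [tau_mov hi h1 h3]
      exact h e g h1 h2 h3 h4
  · simp [hp]

theorem act_mov {ε : ι → Bool} {k : Fin n → Fin H} {i j : Fin n} (hi : L.mo i) :
    Act L P u r (mov L P u r ε k) i j ↔ Act L P u r k i j := by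
  unfold Act
  rw [iso_mov hi]
  constructor
  · rintro ⟨h1, h2⟩
    rw [tau_mov hi (Or.inl rfl) (not_me_of_pt h1.1)] at h2
    refine ⟨h1, ?_⟩
    obtain ⟨t, rfl⟩ := hi
    rw [mov_mv] at h2
    split_ifs at h2 with hε
    · by_cases hex : ∃ j, Act L P u r k (L.mv t) j
      · obtain ⟨j', hj'⟩ := hex
        rw [refl_act hj'] at h2
        have hjj : j = j' := by
          by_contra hne
          have h5 := h1.2.2.2.2 (L.mv t) j' (Or.inl rfl) hj'.1.2.1 (not_me_of_pt hj'.1.1)
            (fun c => hne c.2.symm)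
          have h6 := hj'.2
          rw [le_abs] at h5
          omega
        subst hjj
        omega
      · rw [refl_not hex] at h2
        exact h2
    · exact h2
  · rintro ⟨h1, h2⟩
    refine ⟨h1, ?_⟩
    rw [tau_mov hi (Or.inl rfl) (not_me_of_pt h1.1)]
    obtain ⟨t, rfl⟩ := hi
    rw [mov_mv]
    split_ifs with hε
    · rw [refl_act ⟨h1, h2⟩]
      omega
    · exact h2

/-- the movement is an involution -/
theorem mov_mov (ε : ι → Bool) (k : Fin n → Fin H) : mov L P u r ε (mov L P u r ε k) = k := by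
  funext a
  by_cases ha : L.mo a
  · obtain ⟨t, rfl⟩ := ha
    rw [mov_mv]
    split_ifs with hε
    · by_cases hex : ∃ j, Act L P u r k (L.mv t) j
      · obtain ⟨j, hj⟩ := hex
        have h1 := (act_mov (ε := ε) ⟨t, rfl⟩).2 hj
        apply Fin.ext
        have h2 := refl_act h1
        rw [tau_mov ⟨t, rfl⟩ (Or.inl rfl) (not_me_of_pt hj.1.1), mov_mv, if_pos hε, refl_act hj] at h2
        omega
      · have h1 : ¬ ∃ j, Act L P u r (mov L P u r ε k) (L.mv t) j := by
          rintro ⟨j, hj⟩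
          exact hex ⟨j, (act_mov ⟨t, rfl⟩).1 hj⟩
        rw [refl_not h1, mov_mv, if_pos hε, refl_not hex]
    · rw [mov_mv, if_neg hε]
  · rw [mov_static ha, mov_static ha]

/-- the movement as a permutation -/
noncomputable def movE (L : Lay n ι) (P : Fin n → ℝ × ℝ) (u : Fin n → ℝ) (r : ℕ) (ε : ι → Bool) :
    Equiv.Perm (Fin n → Fin H) where
  toFun := mov L P u r ε
  invFun := mov L P u r ε
  left_inv := mov_mov ε
  right_inv := mov_mov ε

theorem refl_near (k : Fin n → Fin H) (i : Fin n) (hr : 0 < r) :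
    |((refl L P u r k i : ℕ) : ℝ) - ((k i : ℕ) : ℝ)| ≤ 2 * r - 1 := by
  have hr' : (1:ℝ) ≤ r := by exact_mod_cast hr
  by_cases hex : ∃ j, Act L P u r k i j
  · obtain ⟨j, hj⟩ := hex
    have h1 := refl_act hj
    have h2 := hj.2
    have h3 : |((refl L P u r k i : ℕ) : ℤ) - ((k i : ℕ) : ℤ)| ≤ 2 * r - 1 := by
      rw [abs_le]
      omega
    exact_mod_cast h3
  · rw [refl_not hex, sub_self, abs_zero]
    linarith

theorem mov_near (ε : ι → Bool) (k : Fin n → Fin H) (a : Fin n) (hr : 0 < r) :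
    |zz u (mov L P u r ε k) a - zz u k a| ≤ 2 * r - 1 := by
  have hr' : (1:ℝ) ≤ r := by exact_mod_cast hr
  have e : zz u (mov L P u r ε k) a - zz u k a = ((mov L P u r ε k a : ℕ) : ℝ) - ((k a : ℕ) : ℝ) := by
    unfold zz; ring
  rw [e]
  unfold mov
  split_ifs
  · exact refl_near k a hr
  · rw [sub_self, abs_zero]
    linarith

theorem hgt_near (ε : ι → Bool) (k : Fin n → Fin H) {a b : Fin n} (hab : Cross P a b) (hr : 0 < r) :
    |hgt P (zz u (mov L P u r ε k)) a b - hgt P (zz u k) a b| ≤ 2 * r - 1 := by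
  have h1 := mov_near (L := L) (P := P) (u := u) ε k a hr
  have h2 := mov_near (L := L) (P := P) (u := u) ε k (a + 1) hr
  rw [abs_le] at h1 h2 ⊢
  have h3 := hab.1
  unfold hgt
  constructor <;> nlinarith

/-- no moving edges are nearly at the same height over a crossing -/
def NoNear (L : Lay n ι) (P : Fin n → ℝ × ℝ) (u : Fin n → ℝ) (r : ℕ) (k : Fin n → Fin H) : Prop :=
  ∀ a b, Cross P a b → L.me a → L.me b → (4 * r : ℝ) ≤ |hgt P (zz u k) a b - hgt P (zz u k) b a|

theorem low_of_noNear {k : Fin n → Fin H} (hk : NoNear L P u r k) (hr : 0 < r) (ε : ι → Bool) {a b : Fin n}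
    (hab : Cross P a b) (ha : L.me a) (hb : L.me b) :
    hgt P (zz u (mov L P u r ε k)) a b < hgt P (zz u (mov L P u r ε k)) b a ↔
      hgt P (zz u k) a b < hgt P (zz u k) b a := by
  have h1 := hk a b hab ha hb
  have h2 := hgt_near (L := L) (u := u) ε k hab hr
  have h3 := hgt_near (L := L) (u := u) ε k hab.symm hr
  have hr' : (1:ℝ) ≤ r := by exact_mod_cast hr
  rw [abs_le] at h2 h3
  rw [le_abs] at h1
  rcases h1 with h1 | h1
  · constructor <;> intro h4 <;> linarith
  · constructor <;> intro h4 <;> linarith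

/-- a crossing of a moving edge with a static edge which is not the active one -/
theorem low_moving_static {k : Fin n → Fin H} (hr : 0 < r) (ε : ι → Bool) {t : ι}
    {e g : Fin n} (he : e = L.mv t ∨ e + 1 = L.mv t) (hc : Cross P e g) (hg : ¬ L.me g)
    (hna : ∀ j, Act L P u r k (L.mv t) j → ¬ (e = L.mv t ∧ g = j)) :
    (hgt P (zz u (mov L P u r ε k)) e g < hgt P (zz u (mov L P u r ε k)) g e ↔
      hgt P (zz u k) e g < hgt P (zz u k) g e) ∧
    (hgt P (zz u (mov L P u r ε k)) g e < hgt P (zz u (mov L P u r ε k)) e g ↔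
      hgt P (zz u k) g e < hgt P (zz u k) e g) := by
  rw [low_iff he hc, low_iff he hc, high_iff he hc, high_iff he hc, tau_mov ⟨t, rfl⟩ he hg,
    thr_mov ⟨t, rfl⟩ he hg, mov_mv]
  split_ifs with hε
  · by_cases hex : ∃ j, Act L P u r k (L.mv t) j
    · obtain ⟨j, hj⟩ := hex
      rw [refl_act hj]
      have h1 := hj.1.2.2.2.2 e g he hc hg (hna j hj)
      have h2 := hj.2
      have h3 : ⌊thr P u k (L.mv t) e g⌋ ≤ tau P u k (L.mv t) e g := Int.floor_le_ceil _
      have h4 : tau P u k (L.mv t) e g ≤ ⌊thr P u k (L.mv t) e g⌋ + 1 := Int.ceil_le_floor_add_one _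
      rw [le_abs] at h1
      constructor <;> constructor <;> intro h5 <;> omega
    · rw [refl_not hex]
      exact ⟨Iff.rfl, Iff.rfl⟩
  · exact ⟨Iff.rfl, Iff.rfl⟩

/-- the active crossing -/
theorem low_active {k : Fin n → Fin H} (ε : ι → Bool) {t : ι} {j : Fin n}
    (hj : Act L P u r k (L.mv t) j) :
    (hgt P (zz u (mov L P u r ε k)) (L.mv t) j < hgt P (zz u (mov L P u r ε k)) j (L.mv t) ↔
      (if ε t = true then ¬ (hgt P (zz u k) (L.mv t) j < hgt P (zz u k) j (L.mv t)) else
        hgt P (zz u k) (L.mv t) j < hgt P (zz u k) j (L.mv t))) := by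
  rw [low_iff (Or.inl rfl) hj.1.2.1, low_iff (Or.inl rfl) hj.1.2.1,
    tau_mov ⟨t, rfl⟩ (Or.inl rfl) (not_me_of_pt hj.1.1), mov_mv]
  split_ifs with hε
  · rw [refl_act hj]
    have h2 := hj.2
    omega
  · exact Iff.rfl

theorem me_iff (a : Fin n) : L.me a ↔ ∃ t, a = L.mv t ∨ a + 1 = L.mv t := by
  unfold Lay.me Lay.mo
  constructor
  · rintro (⟨t, ht⟩ | ⟨t, ht⟩)
    · exact ⟨t, Or.inl ht.symm⟩
    · exact ⟨t, Or.inr ht.symm⟩
  · rintro ⟨t, ht | ht⟩
    · exact Or.inl ⟨t, ht.symm⟩
    · exact Or.inr ⟨t, ht.symm⟩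

/-- the crossing does not change -/
theorem low_same {k : Fin n → Fin H} (hk : NoNear L P u r k) (hr : 0 < r) (ε : ι → Bool) {a b : Fin n}
    (hlt : a < b) (hab : Cross P a b) (hna : ∀ t, Act L P u r k (L.mv t) b → a ≠ L.mv t) :
    hgt P (zz u (mov L P u r ε k)) a b < hgt P (zz u (mov L P u r ε k)) b a ↔
      hgt P (zz u k) a b < hgt P (zz u k) b a := by
  by_cases ha : L.me a
  · by_cases hb : L.me b
    · exact low_of_noNear hk hr ε hab ha hb
    · obtain ⟨t, ht⟩ := (me_iff a).1 ha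
      refine (low_moving_static hr ε ht hab hb ?_).1
      rintro j hj ⟨h1, h2⟩
      subst h2
      exact hna t hj h1
  · by_cases hb : L.me b
    · obtain ⟨t, ht⟩ := (me_iff b).1 hb
      refine (low_moving_static hr ε ht hab.symm ha ?_).2
      rintro j hj ⟨h1, h2⟩
      subst h2
      have := L.lt _ _ hj.1.1
      rw [← h1] at this
      exact absurd hlt (not_lt.2 this.le)
    · have e1 : ∀ c, ¬ L.me c → ∀ d, hgt P (zz u (mov L P u r ε k)) c d = hgt P (zz u k) c d := by
        intro c hc d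
        apply hgt_congr
        · unfold zz; rw [mov_static (fun h => hc (Or.inl h))]
        · unfold zz; rw [mov_static (fun h => hc (Or.inr h))]
      rw [e1 a ha, e1 b hb]

end Pool.Agent.V8H81.Urp
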