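import Pool.Agent.V8H81.Urp.Sets

/-!
# Coincidences are improbable
-/

set_option autoImplicit false

namespace Pool.Agent.V8H81.Urp

open Finset

variable {n : ℕ} [NeZero n] {H : ℕ}

theorem zz_update (w : Fin n → ℝ) (k : Fin n → Fin H) (v : Fin n) (c : Fin H) (x : Fin n) :
    zz w (Function.update k v c) x = if x = v then w v + ((c : ℕ) : ℝ) else zz w k x := by
  unfold zz
  by_cases h : x = v
  · subst h
    rw [Function.update_self, if_pos rfl]
  · rw [Function.update_of_ne h, if_neg h]

theorem card_linear (g : Fin H → ℝ) (A B : ℝ) (hg : ∀ c : Fin H, g c = A * ((c : ℕ) : ℝ) + B) {α : ℝ}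
    (hα : 0 < α) (hA : α ≤ |A|) {η : ℝ} (hη : 0 ≤ η) (s : Finset (Fin H)) (hs : ∀ c ∈ s, |g c| < η) :
    (s.card : ℝ) ≤ 2 * η / α + 1 := by
  apply card_expanding g α η hα hη _ s hs
  intro c c'
  rw [hg, hg]
  have e : A * ((c : ℕ) : ℝ) + B - (A * ((c' : ℕ) : ℝ) + B) = A * (((c : ℕ) : ℝ) - ((c' : ℕ) : ℝ)) := by ring
  rw [e, abs_mul]
  exact mul_le_mul_of_nonneg_right hA (abs_nonneg _)

variable {u : Co n → ℝ} {r : ℕ}

/-- the difference of the heights of two edges over their crossing -/
noncomputable def dif (u : Co n → ℝ) (a b : Fin n) (ω : Co n → Fin H) : ℝ :=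
  hgt (PP u ω) (zz (uz u) (kz ω)) a b - hgt (PP u ω) (zz (uz u) (kz ω)) b a

theorem Pr_near (hn : 1 < n) (hH : 0 < H) (hr : 0 < r) (a b : Fin n) :
    Pr (fun ω : Co n → Fin H => Cross (PP u ω) a b ∧ |dif u a b ω| < 4 * r) ≤ 34 * r / H := by
  have hr' : (1:ℝ) ≤ r := by exact_mod_cast hr
  have h1 : Pr (fun ω : Co n → Fin H => (Cross (PP u ω) a b ∧ par (PP u ω) a b ≤ 1 / 2) ∧ |dif u a b ω| < 4 * r) ≤
      17 * r / H := by
    apply Pr_coord hH (Sum.inr a)
    intro ω s hs
    rcases s.eq_empty_or_nonempty with h0 | ⟨c0, hc0⟩
    · rw [h0]; simp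
    · have hc := (hs c0 hc0).1
      rw [PP_update] at hc
      set P := PP u ω with hP
      have ab : a ≠ b := hc.1.ne
      have ab1 : b + 1 ≠ a := by
        rintro rfl
        exact not_cross_succ P b hc.1.symm
      have key := card_linear (fun c => dif u a b (Function.update ω (Sum.inr a) c)) (1 - par P a b)
        ((1 - par P a b) * uz u a + par P a b * zz (uz u) (kz ω) (a + 1) -
          hgt P (zz (uz u) (kz ω)) b a) ?_ (α := 1 / 2) (by norm_num) ?_ (η := 4 * r) (by positivity) s
          (fun c h => (hs c h).2)
      · linarith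
      · intro c
        unfold dif hgt
        rw [PP_update, kz_update]
        simp only [zz_update]
        rw [if_pos trivial, if_neg (succ_ne hn), if_neg ab.symm, if_neg ab1, ← hP]
        ring
      · rw [abs_of_nonneg (by linarith [hc.2])]
        linarith [hc.2]
  have h2 : Pr (fun ω : Co n → Fin H => (Cross (PP u ω) a b ∧ 1 / 2 ≤ par (PP u ω) a b) ∧ |dif u a b ω| < 4 * r) ≤
      17 * r / H := by
    apply Pr_coord hH (Sum.inr (a + 1))
    intro ω s hs
    rcases s.eq_empty_or_nonempty with h0 | ⟨c0, hc0⟩
    · rw [h0]; simp
    · have hc := (hs c0 hc0).1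
      rw [PP_update] at hc
      set P := PP u ω with hP
      have ab : a ≠ b := hc.1.ne
      have ab1 : b ≠ a + 1 := by
        rintro rfl
        exact not_cross_succ P a hc.1
      have ab2 : b + 1 ≠ a + 1 := fun e => ab (add_right_cancel e).symm
      have key := card_linear (fun c => dif u a b (Function.update ω (Sum.inr (a + 1)) c)) (par P a b)
        ((1 - par P a b) * zz (uz u) (kz ω) a + par P a b * uz u (a + 1) -
          hgt P (zz (uz u) (kz ω)) b a) ?_ (α := 1 / 2) (by norm_num) ?_ (η := 4 * r) (by positivity) s
          (fun c h => (hs c h).2)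
      · linarith
      · intro c
        unfold dif hgt
        rw [PP_update, kz_update]
        simp only [zz_update]
        rw [if_pos trivial, if_neg (succ_ne hn).symm, if_neg ab1, if_neg ab2, ← hP]
        ring
      · rw [abs_of_nonneg (by linarith [hc.2])]
        linarith [hc.2]
  refine (Pr_mono ?_).trans ((Pr_or (A := fun ω : Co n → Fin H =>
    (Cross (PP u ω) a b ∧ par (PP u ω) a b ≤ 1 / 2) ∧ |dif u a b ω| < 4 * r) (B := fun ω : Co n → Fin H =>
    (Cross (PP u ω) a b ∧ 1 / 2 ≤ par (PP u ω) a b) ∧ |dif u a b ω| < 4 * r)).trans ?_)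
  · rintro ω ⟨h3, h4⟩
    rcases le_total (par (PP u ω) a b) (1 / 2) with h5 | h5
    · exact Or.inl ⟨⟨h3, h5⟩, h4⟩
    · exact Or.inr ⟨⟨h3, h5⟩, h4⟩
  · calc _ ≤ 17 * (r:ℝ) / H + 17 * r / H := add_le_add h1 h2
      _ = _ := by ring

/-- the threshold as a function of the heights -/
theorem thr_formula (P : Fin n → ℝ × ℝ) (w : Fin n → ℝ) (k : Fin n → Fin H) (i j : Fin n) :
    thr P w k i i j = ((1 - par P j i) * zz w k j + par P j i * zz w k (j + 1) - par P i j * zz w k (i + 1)) /
      (1 - par P i j) - w i := by
  unfold thr hgt coef oth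
  rw [if_pos rfl, if_pos rfl, sub_sub_cancel]

theorem div_ge {x y : ℝ} (hx : 1 / 6 ≤ x) (hy : 1 / 6 ≤ y) (hy' : y ≤ 5 / 6) : 1 / 5 ≤ |x / y| := by
  have hy0 : 0 < y := by linarith
  rw [abs_of_nonneg (div_nonneg (by linarith) hy0.le), le_div_iff₀ hy0]
  linarith

variable (hu : ∀ c, 0 ≤ u c ∧ u c < 1)

include hu

theorem Pr_conf1 (hn : 2 < n) (hH : 0 < H) (hr : 0 < r) {i j e g : Fin n} (hij : i ≠ j) (hij1 : i + 1 ≠ j)
    (hji1 : j + 1 ≠ i) (hfar : j + 1 + 1 ≠ i) (he : e = i ∨ e + 1 = i) (hgi : g ≠ i) (hgi1 : g + 1 ≠ i)
    (hne : ¬ (e = i ∧ g = j)) :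
    Pr (fun ω : Co n → Fin H => (Wp i ω ∧ Vp j ω) ∧
      |thr (PP u ω) (uz u) (kz ω) i e g - thr (PP u ω) (uz u) (kz ω) i i j| < 2 * r + 1) ≤ 31 * r / H := by
  have hr' : (1:ℝ) ≤ r := by exact_mod_cast hr
  have hH' : (0:ℝ) < H := by exact_mod_cast hH
  have n1 : 1 < n := by omega
  have hij2 : i + 1 ≠ j + 1 := fun e => hij (add_right_cancel e)
  by_cases hgj : g = j
  · -- the edge `e` is the one before `i`
    have he2 : e ≠ i := fun h => hne ⟨h, hgj⟩
    have he1 := he.resolve_left he2
    have hei : e ≠ i + 1 := by
      rintro rfl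
      exact succ_succ_ne hn he1
    apply Pr_coord hH (Sum.inr (i + 1))
    intro ω s hs
    rcases s.eq_empty_or_nonempty with h0 | ⟨c0, hc0⟩
    · rw [h0]; simp
    · have hp := special_par hu hH (succ_ne n1) (succ_ne n1) (hs c0 hc0).1.1 (hs c0 hc0).1.2
      rw [PP_update] at hp
      set P := PP u ω with hP
      have hq : 1 - par P i j ≠ 0 := by linarith [hp.1.2]
      have key := card_linear (fun c =>
        thr (PP u (Function.update ω (Sum.inr (i + 1)) c)) (uz u) (kz (Function.update ω (Sum.inr (i + 1)) c)) i e g -
          thr (PP u (Function.update ω (Sum.inr (i + 1)) c)) (uz u)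
            (kz (Function.update ω (Sum.inr (i + 1)) c)) i i j) (par P i j / (1 - par P i j))
        (thr P (uz u) (kz ω) i e g - (((1 - par P j i) * zz (uz u) (kz ω) j +
          par P j i * zz (uz u) (kz ω) (j + 1) - par P i j * uz u (i + 1)) /
            (1 - par P i j) - uz u i)) ?_ (α := 1 / 5) (by norm_num) ?_ (η := 2 * r + 1) (by positivity) s
          (fun c h => (hs c h).2)
      · linarith
      · intro c
        have e1 : thr (PP u (Function.update ω (Sum.inr (i + 1)) c)) (uz u)
            (kz (Function.update ω (Sum.inr (i + 1)) c)) i e g = thr P (uz u) (kz ω) i e g := by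
          rw [PP_update, kz_update]
          apply thr_congr
          · rw [Function.update_of_ne]; rw [hgj]; exact hij1.symm
          · rw [Function.update_of_ne]; rw [hgj]; exact hij2.symm
          · rw [Function.update_of_ne]
            unfold oth
            rw [if_neg he2]
            exact hei
        simp only [e1]
        rw [PP_update, kz_update, thr_formula]
        simp only [zz_update]
        rw [if_neg hij1.symm, if_neg hij2.symm, if_pos trivial, ← hP]
        field_simp
        ring
      · exact div_ge hp.1.1 (by linarith [hp.1.2]) (by linarith [hp.1.1])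
  · by_cases hgj1 : g + 1 = j
    · -- vary the height of `j + 1`
      have hg1 : g ≠ j + 1 := by
        intro h
        rw [← hgj1] at h
        exact succ_succ_ne hn h.symm
      apply Pr_coord hH (Sum.inr (j + 1))
      intro ω s hs
      rcases s.eq_empty_or_nonempty with h0 | ⟨c0, hc0⟩
      · rw [h0]; simp
      · have hp := special_par hu hH (succ_ne n1) (succ_ne n1) (hs c0 hc0).1.1 (hs c0 hc0).1.2
        rw [PP_update] at hp
        set P := PP u ω with hP
        have hq : 1 - par P i j ≠ 0 := by linarith [hp.1.2]
        have key := card_linear (fun c =>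
          thr (PP u (Function.update ω (Sum.inr (j + 1)) c)) (uz u) (kz (Function.update ω (Sum.inr (j + 1)) c)) i e g -
            thr (PP u (Function.update ω (Sum.inr (j + 1)) c)) (uz u)
              (kz (Function.update ω (Sum.inr (j + 1)) c)) i i j) (-(par P j i / (1 - par P i j)))
          (thr P (uz u) (kz ω) i e g - (((1 - par P j i) * zz (uz u) (kz ω) j +
            par P j i * uz u (j + 1) - par P i j * zz (uz u) (kz ω) (i + 1)) /
              (1 - par P i j) - uz u i)) ?_ (α := 1 / 5) (by norm_num) ?_ (η := 2 * r + 1) (by positivity) s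
            (fun c h => (hs c h).2)
        · linarith
        · intro c
          have e1 : thr (PP u (Function.update ω (Sum.inr (j + 1)) c)) (uz u)
              (kz (Function.update ω (Sum.inr (j + 1)) c)) i e g = thr P (uz u) (kz ω) i e g := by
            rw [PP_update, kz_update]
            apply thr_congr
            · rw [Function.update_of_ne hg1]
            · rw [Function.update_of_ne]; rw [hgj1]; exact (succ_ne n1).symm
            · rw [Function.update_of_ne]
              unfold oth
              by_cases h : e = i
              · rw [if_pos h]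
                exact hij2
              · rw [if_neg h]
                rintro rfl
                exact hfar (he.resolve_left h)
          simp only [e1]
          rw [PP_update, kz_update, thr_formula]
          simp only [zz_update]
          rw [if_neg (succ_ne n1).symm, if_pos trivial, if_neg hij2, ← hP]
          field_simp
          ring
        · rw [abs_neg]
          exact div_ge hp.2.1 (by linarith [hp.1.2]) (by linarith [hp.1.1])
    · -- vary the height of `j`
      apply Pr_coord hH (Sum.inr j)
      intro ω s hs
      rcases s.eq_empty_or_nonempty with h0 | ⟨c0, hc0⟩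
      · rw [h0]; simp
      · have hp := special_par hu hH (succ_ne n1) (succ_ne n1) (hs c0 hc0).1.1 (hs c0 hc0).1.2
        rw [PP_update] at hp
        set P := PP u ω with hP
        have hq : 1 - par P i j ≠ 0 := by linarith [hp.1.2]
        have key := card_linear (fun c =>
          thr (PP u (Function.update ω (Sum.inr j) c)) (uz u) (kz (Function.update ω (Sum.inr j) c)) i e g -
            thr (PP u (Function.update ω (Sum.inr j) c)) (uz u)
              (kz (Function.update ω (Sum.inr j) c)) i i j) (-((1 - par P j i) / (1 - par P i j)))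
          (thr P (uz u) (kz ω) i e g - (((1 - par P j i) * uz u j +
            par P j i * zz (uz u) (kz ω) (j + 1) - par P i j * zz (uz u) (kz ω) (i + 1)) /
              (1 - par P i j) - uz u i)) ?_ (α := 1 / 5) (by norm_num) ?_ (η := 2 * r + 1) (by positivity) s
            (fun c h => (hs c h).2)
        · linarith
        · intro c
          have e1 : thr (PP u (Function.update ω (Sum.inr j) c)) (uz u)
              (kz (Function.update ω (Sum.inr j) c)) i e g = thr P (uz u) (kz ω) i e g := by
            rw [PP_update, kz_update]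
            apply thr_congr
            · rw [Function.update_of_ne hgj]
            · rw [Function.update_of_ne hgj1]
            · rw [Function.update_of_ne]
              unfold oth
              by_cases h : e = i
              · rw [if_pos h]
                exact hij1
              · rw [if_neg h]
                rintro rfl
                exact hji1 (he.resolve_left h)
          simp only [e1]
          rw [PP_update, kz_update, thr_formula]
          simp only [zz_update]
          rw [if_pos trivial, if_neg (succ_ne n1), if_neg hij1, ← hP]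
          field_simp
          ring
        · rw [abs_neg]
          exact div_ge (by linarith [hp.2.2]) (by linarith [hp.1.2]) (by linarith [hp.1.1])

end Pool.Agent.V8H81.Urp
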