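import Pool.Agent.V8H81.Urp.Final

/-!
# The polynomial depends only on finitely many comparisons
-/

set_option autoImplicit false

namespace Pool.Agent.V8H81.Urp

open Finset LaurentPolynomial Pool.Agent.H891R2.Jones Pool.Agent.H832R3.VJ Pool.Agent.R811
  Pool.Agent.V8H81.Rnd
open Pool.Agent.R811.Cross hiding sg

variable {n : ℕ} [NeZero n]

/-- two polygons in space with the same comparisons -/
structure Same (P P' : Fin n → ℝ × ℝ) (z z' : Fin n → ℝ) : Prop where
  cross : ∀ a b, Cross P a b ↔ Cross P' a b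
  lt : ∀ a b c, par P a b < par P a c ↔ par P' a b < par P' a c
  side : ∀ a b, 0 < det (dir P a) (dir P b) ↔ 0 < det (dir P' a) (dir P' b)
  low : ∀ a b, hgt P z a b < hgt P z b a ↔ hgt P' z' a b < hgt P' z' b a

theorem fPoly_of_val {m m' : ℕ} (e : m = m') (D : Diagram (Fin m)) (D' : Diagram (Fin m')) (ha : D.arcs = [])
    (ha' : D'.arcs = []) (hc : D.crossings.map (Crossing.map Fin.val) = D'.crossings.map (Crossing.map Fin.val)) :
    D.fPoly = D'.fPoly := by
  subst e
  have hinj : Function.Injective (Crossing.map (Fin.val : Fin m → ℕ)) := by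
    rintro ⟨a, b, c, d, s, t⟩ ⟨a', b', c', d', s', t'⟩ h
    simp only [Crossing.map, Crossing.mk.injEq] at h
    obtain ⟨h1, h2, h3, h4, h5, h6⟩ := h
    rw [Fin.ext h1, Fin.ext h2, Fin.ext h3, Fin.ext h4, h5, h6]
  have h1 := (List.map_injective_iff.2 hinj) hc
  obtain ⟨x, y⟩ := D
  obtain ⟨x', y'⟩ := D'
  simp only at ha ha' h1
  subst ha ha' h1
  rfl

/-- the crossing with natural numbers as marked points -/
def cN (m p q : ℕ) (left low : Bool) : Crossing ℕ :=
  let x : Crossing ℕ := if left then ⟨p, q, (p + 1) % (2 * m), (q + 1) % (2 * m), true, true⟩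
    else ⟨p, (q + 1) % (2 * m), (p + 1) % (2 * m), q, true, false⟩
  if low then x else switch x

open Classical in
theorem crossingAt_val (P : Fin n → ℝ × ℝ) (h : General P) (z : Fin n → ℝ) (i : Fin (dps P).card) :
    (crossingAt P h z i).map Fin.val = cN (dps P).card (number h (dp P i).1 (dp P i).2 (dp_cross P i) : ℕ)
      (number h (dp P i).2 (dp P i).1 (dp_cross P i).symm : ℕ)
      (decide (0 < det (dir P (dp P i).1) (dir P (dp P i).2)))
      (decide (hgt P z (dp P i).1 (dp P i).2 < hgt P z (dp P i).2 (dp P i).1)) := by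
  have e1 : (layered P h).left i = decide (0 < det (dir P (dp P i).1) (dir P (dp P i).2)) := by
    unfold layered
    congr
  have e2 : (layered P h).p i = number h (dp P i).1 (dp P i).2 (dp_cross P i) := rfl
  have e3 : (layered P h).q i = number h (dp P i).2 (dp P i).1 (dp_cross P i).symm := rfl
  unfold crossingAt cN Shadow.crossing
  rw [e1, e2, e3]
  by_cases h1 : hgt P z (dp P i).1 (dp P i).2 < hgt P z (dp P i).2 (dp P i).1 <;>
    by_cases h2 : 0 < det (dir P (dp P i).1) (dir P (dp P i).2) <;>
    simp [h1, h2, Crossing.map, switch, next]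

theorem rank_iso {α : Type*} [LinearOrder α] (s : Finset α) {k : ℕ} (hk : s.card = k) (x : s) :
    (((s.orderIsoOfFin hk).symm x : Fin k) : ℕ) = (s.filter (fun y : α => y < (x : α))).card := by
  set f := s.orderIsoOfFin hk with hf
  have h1 : (s.filter (fun y : α => y < (x : α))) = (Finset.Iio (f.symm x)).map
      ⟨fun i => (f i : α), fun i j hij => f.injective (Subtype.ext hij)⟩ := by
    ext y
    rw [Finset.mem_filter, Finset.mem_map]
    simp only [Finset.mem_Iio]
    constructor
    · rintro ⟨hy, hyx⟩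
      refine ⟨f.symm ⟨y, hy⟩, ?_, ?_⟩
      · rw [OrderIso.lt_iff_lt]
        exact hyx
      · show ((f (f.symm ⟨y, hy⟩) : s) : α) = y
        rw [OrderIso.apply_symm_apply]
    · rintro ⟨i, hi, rfl⟩
      refine ⟨(f i).2, ?_⟩
      have h2 : f i < f (f.symm x) := f.lt_iff_lt.2 hi
      rw [OrderIso.apply_symm_apply] at h2
      exact h2
  rw [h1, Finset.card_map, Fin.card_Iio]

open Classical in
theorem number_val {P : Fin n → ℝ × ℝ} (h : General P) (a b : Fin n) (hab : Cross P a b) :
    (number h a b hab : ℕ) = (Finset.univ.filter (fun x : Fin n × Fin n => Cross P x.1 x.2 ∧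
      (x.1 < a ∨ (x.1 = a ∧ par P a x.2 < par P a b)))).card := by
  unfold number
  rw [rank_iso]
  have e : (passages P).filter (fun y => y < toLex (a, par P a b)) =
      (Finset.univ.filter (fun x : Fin n × Fin n => Cross P x.1 x.2 ∧
      (x.1 < a ∨ (x.1 = a ∧ par P a x.2 < par P a b)))).image (fun x => toLex (x.1, par P x.1 x.2)) := by
    ext y
    unfold passages
    simp only [Finset.mem_filter, Finset.mem_image, Finset.mem_univ, true_and]
    constructor
    · rintro ⟨⟨x, hx, rfl⟩, hy⟩
      refine ⟨x, ⟨hx, ?_⟩, rfl⟩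
      rw [Prod.Lex.lt_iff] at hy
      rcases hy with h1 | ⟨h1, h2⟩
      · exact Or.inl h1
      · simp only [ofLex_toLex] at h1 h2
        rw [h1] at h2
        exact Or.inr ⟨h1, h2⟩
    · rintro ⟨x, ⟨hx, hlt⟩, rfl⟩
      refine ⟨⟨x, hx, rfl⟩, ?_⟩
      rw [Prod.Lex.lt_iff]
      rcases hlt with h1 | ⟨h1, h2⟩
      · exact Or.inl h1
      · right
        simp only [ofLex_toLex]
        refine ⟨h1, ?_⟩
        rw [h1]
        exact h2
  have e2 : ((passages P).filter (fun y => y < toLex (a, par P a b))).card = ((Finset.univ.filter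
      (fun x : Fin n × Fin n => Cross P x.1 x.2 ∧
      (x.1 < a ∨ (x.1 = a ∧ par P a x.2 < par P a b)))).image (fun x => toLex (x.1, par P x.1 x.2))).card :=
    congrArg Finset.card e
  refine e2.trans ?_
  rw [Finset.card_image_of_injOn]
  intro x hx y hy hxy
  rw [Finset.mem_coe, Finset.mem_filter] at hx hy
  have h1 : x.1 = y.1 := congrArg (fun z => (ofLex z).1) hxy
  have h2 : par P x.1 x.2 = par P y.1 y.2 := congrArg (fun z => (ofLex z).2) hxy
  refine Prod.ext h1 ?_
  by_contra hne
  rw [← h1] at h2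
  have hy' := hy.2.1
  rw [← h1] at hy'
  exact h.triple x.1 x.2 y.2 hx.2.1 hy' hne h2

theorem dps_same {P P' : Fin n → ℝ × ℝ} {z z' : Fin n → ℝ} (hs : Same P P' z z') : dps P = dps P' := by
  classical
  ext x
  unfold dps
  rw [Finset.mem_filter, Finset.mem_filter, hs.cross]

theorem equivFin_same {α : Type*} {S S' : Finset α} (e : S = S') (i : Fin S.card) (i' : Fin S'.card)
    (hi : (i : ℕ) = i') : ((S.equivFin.symm i : S) : α) = ((S'.equivFin.symm i' : S') : α) := by
  subst e
  rw [Fin.ext hi]

theorem number_same {P P' : Fin n → ℝ × ℝ} {z z' : Fin n → ℝ} (hs : Same P P' z z') (h : General P)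
    (h' : General P') (a b : Fin n) (hab : Cross P a b) (hab' : Cross P' a b) :
    (number h a b hab : ℕ) = number h' a b hab' := by
  classical
  rw [number_val, number_val]
  congr 1
  ext x
  rw [Finset.mem_filter, Finset.mem_filter, hs.cross, hs.lt]

theorem fPoly_same {P P' : Fin n → ℝ × ℝ} {z z' : Fin n → ℝ} (hs : Same P P' z z') (h : General P)
    (h' : General P') : (lift P h z).fPoly = (lift P' h' z').fPoly := by
  classical
  have hc : (dps P).card = (dps P').card := by rw [dps_same hs]
  refine fPoly_of_val (by rw [hc]) (lift P h z) (lift P' h' z') rfl rfl ?_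
  unfold lift
  simp only [List.map_map]
  apply List.ext_getElem
  · simp [hc]
  · intro k h1 h2
    simp only [List.getElem_map, List.getElem_finRange, Function.comp_apply]
    rw [crossingAt_val, crossingAt_val]
    simp only [List.length_map, List.length_finRange] at h1 h2
    have e : dp P ⟨k, h1⟩ = dp P' ⟨k, h2⟩ := equivFin_same (dps_same hs) _ _ rfl
    have e' : ∀ x x' : Fin n × Fin n, ∀ (hx : Cross P x.1 x.2) (hx' : Cross P' x'.1 x'.2), x = x' →
        cN (dps P).card (number h x.1 x.2 hx : ℕ) (number h x.2 x.1 hx.symm : ℕ)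
          (decide (0 < det (dir P x.1) (dir P x.2))) (decide (hgt P z x.1 x.2 < hgt P z x.2 x.1)) =
        cN (dps P').card (number h' x'.1 x'.2 hx' : ℕ) (number h' x'.2 x'.1 hx'.symm : ℕ)
          (decide (0 < det (dir P' x'.1) (dir P' x'.2))) (decide (hgt P' z' x'.1 x'.2 < hgt P' z' x'.2 x'.1)) := by
      intro x x' hx hx' hxx
      subst hxx
      rw [number_same hs h h' _ _ hx hx', number_same hs h h' _ _ hx.symm hx'.symm, hc]
      congr 1
      · exact decide_eq_decide.2 (hs.side _ _)
      · exact decide_eq_decide.2 (hs.low _ _)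
    exact e' _ _ _ _ e

end Pool.Agent.V8H81.Urp
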