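import Pool.Agent.V8H81.Urp.Dep

/-!
# Random polygons on a grid and the special positions of their edges
-/

set_option autoImplicit false

namespace Pool.Agent.V8H81.Urp

open Finset

variable {n : ℕ} [NeZero n] {H : ℕ}

/-- the coordinates of the vertices: `inl (inl a)`, `inl (inr a)` and `inr a` are the first, second and third
coordinate of the vertex `a` -/
abbrev Co (n : ℕ) : Type := (Fin n ⊕ Fin n) ⊕ Fin n

/-- the position of a coordinate: its offset and its place in the grid -/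
noncomputable def pl (u : Co n → ℝ) (ω : Co n → Fin H) (c : Co n) : ℝ := u c + ((ω c : ℕ) : ℝ)

/-- the projection of a polygon to the plane -/
noncomputable def PP (u : Co n → ℝ) (ω : Co n → Fin H) (a : Fin n) : ℝ × ℝ :=
  (pl u ω (Sum.inl (Sum.inl a)), pl u ω (Sum.inl (Sum.inr a)))

/-- the places of the heights -/
def kz (ω : Co n → Fin H) (a : Fin n) : Fin H := ω (Sum.inr a)

/-- the offsets of the heights -/
def uz (u : Co n → ℝ) (a : Fin n) : ℝ := u (Sum.inr a)

theorem zz_eq (u : Co n → ℝ) (ω : Co n → Fin H) (a : Fin n) : zz (uz u) (kz ω) a = pl u ω (Sum.inr a) := rfl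

theorem PP_update (u : Co n → ℝ) (ω : Co n → Fin H) (a : Fin n) (c : Fin H) :
    PP u (Function.update ω (Sum.inr a) c) = PP u ω := by
  funext b
  unfold PP pl
  rw [Function.update_of_ne (by simp), Function.update_of_ne (by simp)]

theorem kz_update (ω : Co n → Fin H) (a : Fin n) (c : Fin H) :
    kz (Function.update ω (Sum.inr a) c) = Function.update (kz ω) a c := by
  funext b
  unfold kz
  by_cases h : b = a
  · subst h
    rw [Function.update_self, Function.update_self]
  · rw [Function.update_of_ne (by simpa using h), Function.update_of_ne h]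

/-- small places -/
def lo (H : ℕ) : Finset (Fin H) := Finset.univ.filter (fun c : Fin H => 0 ≤ (c : ℕ) ∧ (c : ℕ) < H / 4)

/-- big places -/
def hi (H : ℕ) : Finset (Fin H) := Finset.univ.filter (fun c : Fin H => (3 * H + 3) / 4 ≤ (c : ℕ) ∧ (c : ℕ) < H)

/-- places in the middle -/
def mid (H : ℕ) : Finset (Fin H) :=
  Finset.univ.filter (fun c : Fin H => (31 * H + 63) / 64 ≤ (c : ℕ) ∧ (c : ℕ) < 33 * H / 64)

theorem card_lo (hH : 128 ≤ H) : (1 / 64 : ℝ) * H ≤ ((lo H).card : ℝ) := by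
  have h : (lo H).card = H / 4 - 0 := card_fin_Ico (by omega)
  have h1 : H ≤ 64 * (lo H).card := by omega
  have h2 : (H : ℝ) ≤ 64 * ((lo H).card : ℝ) := by exact_mod_cast h1
  linarith

theorem card_hi (hH : 128 ≤ H) : (1 / 64 : ℝ) * H ≤ ((hi H).card : ℝ) := by
  have h : (hi H).card = H - (3 * H + 3) / 4 := card_fin_Ico le_rfl
  have h1 : H ≤ 64 * (hi H).card := by omega
  have h2 : (H : ℝ) ≤ 64 * ((hi H).card : ℝ) := by exact_mod_cast h1
  linarith

theorem card_mid (hH : 128 ≤ H) : (1 / 64 : ℝ) * H ≤ ((mid H).card : ℝ) := by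
  have h : (mid H).card = 33 * H / 64 - (31 * H + 63) / 64 := card_fin_Ico (by omega)
  have h1 : H ≤ 64 * (mid H).card := by omega
  have h2 : (H : ℝ) ≤ 64 * ((mid H).card : ℝ) := by exact_mod_cast h1
  linarith

variable {u : Co n → ℝ} (hu : ∀ c, 0 ≤ u c ∧ u c < 1)

include hu

theorem pl_lo {ω : Co n → Fin H} {c : Co n} (h : ω c ∈ lo H) : 0 ≤ pl u ω c ∧ pl u ω c ≤ H / 4 := by
  unfold lo at h
  rw [Finset.mem_filter] at h
  have h1 := hu c
  have h2 : (4:ℝ) * (((ω c : ℕ) : ℝ) + 1) ≤ H := by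
    have : 4 * ((ω c : ℕ) + 1) ≤ H := by omega
    exact_mod_cast this
  unfold pl
  have h3 : (0:ℝ) ≤ ((ω c : ℕ) : ℝ) := Nat.cast_nonneg _
  constructor <;> linarith

theorem pl_hi {ω : Co n → Fin H} {c : Co n} (h : ω c ∈ hi H) : 3 * H / 4 ≤ pl u ω c ∧ pl u ω c ≤ H := by
  unfold hi at h
  rw [Finset.mem_filter] at h
  have h1 := hu c
  have h2 : (3:ℝ) * H ≤ 4 * ((ω c : ℕ) : ℝ) := by
    have : 3 * H ≤ 4 * (ω c : ℕ) := by omega
    exact_mod_cast this
  have h4 : ((ω c : ℕ) : ℝ) + 1 ≤ H := by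
    have : (ω c : ℕ) + 1 ≤ H := by omega
    exact_mod_cast this
  unfold pl
  constructor <;> linarith

theorem pl_mid {ω : Co n → Fin H} {c : Co n} (h : ω c ∈ mid H) :
    31 * H / 64 ≤ pl u ω c ∧ pl u ω c ≤ 33 * H / 64 := by
  unfold mid at h
  rw [Finset.mem_filter] at h
  have h1 := hu c
  have h2 : (31:ℝ) * H ≤ 64 * ((ω c : ℕ) : ℝ) := by
    have : 31 * H ≤ 64 * (ω c : ℕ) := by omega
    exact_mod_cast this
  have h4 : (64:ℝ) * (((ω c : ℕ) : ℝ) + 1) ≤ 33 * H := by
    have : 64 * ((ω c : ℕ) + 1) ≤ 33 * H := by omega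
    exact_mod_cast this
  unfold pl
  constructor <;> linarith

omit hu

/-- the prescribed places of the coordinates for an edge `i` from the south-west to the north-east whose last vertex
has a height in the middle -/
def GW (H : ℕ) (i : Fin n) : Co n → Finset (Fin H)
  | Sum.inl (Sum.inl a) => if a = i then lo H else if a = i + 1 then hi H else univ
  | Sum.inl (Sum.inr a) => if a = i then lo H else if a = i + 1 then hi H else univ
  | Sum.inr a => if a = i + 1 then mid H else univ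

/-- the prescribed places of the coordinates for an edge `j` from the north-west to the south-east whose vertices
have heights in the middle -/
def GV (H : ℕ) (j : Fin n) : Co n → Finset (Fin H)
  | Sum.inl (Sum.inl a) => if a = j then lo H else if a = j + 1 then hi H else univ
  | Sum.inl (Sum.inr a) => if a = j then hi H else if a = j + 1 then lo H else univ
  | Sum.inr a => if a = j ∨ a = j + 1 then mid H else univ

/-- the coordinates of an edge -/
def cof (i : Fin n) : Finset (Co n) :=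
  {Sum.inl (Sum.inl i), Sum.inl (Sum.inl (i + 1)), Sum.inl (Sum.inr i), Sum.inl (Sum.inr (i + 1)),
    Sum.inr i, Sum.inr (i + 1)}

theorem card_cof (i : Fin n) : (cof i).card ≤ 6 := Finset.card_le_six

theorem GW_univ {i : Fin n} {c : Co n} (h : c ∉ cof i) : GW H i c = univ := by
  unfold cof at h
  simp only [Finset.mem_insert, Finset.mem_singleton, not_or] at h
  obtain ⟨h1, h2, h3, h4, h5, h6⟩ := h
  rcases c with (a | a) | a
  · have e1 : a ≠ i := fun e => h1 (by rw [e])
    have e2 : a ≠ i + 1 := fun e => h2 (by rw [e])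
    simp [GW, e1, e2]
  · have e1 : a ≠ i := fun e => h3 (by rw [e])
    have e2 : a ≠ i + 1 := fun e => h4 (by rw [e])
    simp [GW, e1, e2]
  · have e2 : a ≠ i + 1 := fun e => h6 (by rw [e])
    simp [GW, e2]

theorem GV_univ {i : Fin n} {c : Co n} (h : c ∉ cof i) : GV H i c = univ := by
  unfold cof at h
  simp only [Finset.mem_insert, Finset.mem_singleton, not_or] at h
  obtain ⟨h1, h2, h3, h4, h5, h6⟩ := h
  rcases c with (a | a) | a
  · have e1 : a ≠ i := fun e => h1 (by rw [e])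
    have e2 : a ≠ i + 1 := fun e => h2 (by rw [e])
    simp [GV, e1, e2]
  · have e1 : a ≠ i := fun e => h3 (by rw [e])
    have e2 : a ≠ i + 1 := fun e => h4 (by rw [e])
    simp [GV, e1, e2]
  · have e1 : a ≠ i := fun e => h5 (by rw [e])
    have e2 : a ≠ i + 1 := fun e => h6 (by rw [e])
    simp [GV, e1, e2]

theorem card_univ_ge : (1 / 64 : ℝ) * H ≤ ((Finset.univ : Finset (Fin H)).card : ℝ) := by
  rw [Finset.card_univ, Fintype.card_fin]
  have : (0:ℝ) ≤ H := Nat.cast_nonneg _
  linarith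

theorem GW_card (hH : 128 ≤ H) (i : Fin n) (c : Co n) : (1 / 64 : ℝ) * H ≤ ((GW H i c).card : ℝ) := by
  rcases c with (a | a) | a
  · simp only [GW]
    split_ifs
    · exact card_lo hH
    · exact card_hi hH
    · exact card_univ_ge
  · simp only [GW]
    split_ifs
    · exact card_lo hH
    · exact card_hi hH
    · exact card_univ_ge
  · simp only [GW]
    split_ifs
    · exact card_mid hH
    · exact card_univ_ge

theorem GV_card (hH : 128 ≤ H) (i : Fin n) (c : Co n) : (1 / 64 : ℝ) * H ≤ ((GV H i c).card : ℝ) := by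
  rcases c with (a | a) | a
  · simp only [GV]
    split_ifs
    · exact card_lo hH
    · exact card_hi hH
    · exact card_univ_ge
  · simp only [GV]
    split_ifs
    · exact card_hi hH
    · exact card_lo hH
    · exact card_univ_ge
  · simp only [GV]
    split_ifs
    · exact card_mid hH
    · exact card_univ_ge

/-- a lower bound of the probability of a special position -/
noncomputable def p0 : ℝ := (1 / 64) ^ 6

theorem p0_pos : 0 < p0 := by unfold p0; positivity

theorem Pr_W (hH : 128 ≤ H) (i : Fin n) : p0 ≤ Pr (Bx (GW H i)) :=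
  Pr_Bx_ge (by omega) _ (cof i) (1 / 64) (by norm_num) (fun _ h => GW_univ h) (fun c _ => GW_card hH i c) 6
    (card_cof i) (by norm_num)

theorem Pr_V (hH : 128 ≤ H) (i : Fin n) : p0 ≤ Pr (Bx (GV H i)) :=
  Pr_Bx_ge (by omega) _ (cof i) (1 / 64) (by norm_num) (fun _ h => GV_univ h) (fun c _ => GV_card hH i c) 6
    (card_cof i) (by norm_num)

theorem cof_disj {i j : Fin n} (h1 : i ≠ j) (h2 : i + 1 ≠ j) (h3 : j + 1 ≠ i) (c : Co n) :
    c ∉ cof i ∨ c ∉ cof j := by
  by_contra hc
  rw [not_or, not_not, not_not] at hc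
  obtain ⟨h4, h5⟩ := hc
  unfold cof at h4 h5
  have h6 : i + 1 ≠ j + 1 := fun e => h1 (add_right_cancel e)
  simp only [Finset.mem_insert, Finset.mem_singleton] at h4 h5
  rcases h4 with rfl | rfl | rfl | rfl | rfl | rfl <;> simp [h1, h2, h6, h3.symm] at h5

/-- the edge `i` is special -/
abbrev Wp (i : Fin n) (ω : Co n → Fin H) : Prop := Bx (GW H i) ω

/-- the edge `j` is special -/
abbrev Vp (j : Fin n) (ω : Co n → Fin H) : Prop := Bx (GV H j) ω

include hu

theorem special_par (hH : 0 < H) {i j : Fin n} {ω : Co n → Fin H} (hi1 : i + 1 ≠ i) (hj1 : j + 1 ≠ j)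
    (hW : Wp i ω) (hV : Vp j ω) :
    (1 / 6 ≤ par (PP u ω) i j ∧ par (PP u ω) i j ≤ 5 / 6) ∧
      (1 / 6 ≤ par (PP u ω) j i ∧ par (PP u ω) j i ≤ 5 / 6) := by
  have hH' : (0:ℝ) < H := by exact_mod_cast hH
  have a1 := pl_lo hu (c := Sum.inl (Sum.inl i)) (by have := hW (Sum.inl (Sum.inl i)); simpa [GW] using this)
  have a2 := pl_lo hu (c := Sum.inl (Sum.inr i)) (by have := hW (Sum.inl (Sum.inr i)); simpa [GW] using this)
  have b1 := pl_hi hu (c := Sum.inl (Sum.inl (i + 1)))
    (by have := hW (Sum.inl (Sum.inl (i + 1))); simpa [GW, hi1] using this)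
  have b2 := pl_hi hu (c := Sum.inl (Sum.inr (i + 1)))
    (by have := hW (Sum.inl (Sum.inr (i + 1))); simpa [GW, hi1] using this)
  have c1 := pl_lo hu (c := Sum.inl (Sum.inl j)) (by have := hV (Sum.inl (Sum.inl j)); simpa [GV] using this)
  have c2 := pl_hi hu (c := Sum.inl (Sum.inr j)) (by have := hV (Sum.inl (Sum.inr j)); simpa [GV] using this)
  have d1 := pl_hi hu (c := Sum.inl (Sum.inl (j + 1)))
    (by have := hV (Sum.inl (Sum.inl (j + 1))); simpa [GV, hj1] using this)
  have d2 := pl_lo hu (c := Sum.inl (Sum.inr (j + 1)))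
    (by have := hV (Sum.inl (Sum.inr (j + 1))); simpa [GV, hj1] using this)
  exact ⟨corner1 hH' a1.1 a1.2 a2.1 a2.2 b1.1 b1.2 b2.1 b2.2 c1.1 c1.2 c2.1 c2.2 d1.1 d1.2 d2.1 d2.2,
    corner2 hH' a1.1 a1.2 a2.1 a2.2 b1.1 b1.2 b2.1 b2.2 c1.1 c1.2 c2.1 c2.2 d1.1 d1.2 d2.1 d2.2⟩

theorem special_cross (hH : 0 < H) {i j : Fin n} {ω : Co n → Fin H} (hi1 : i + 1 ≠ i) (hj1 : j + 1 ≠ j)
    (hW : Wp i ω) (hV : Vp j ω) : Cross (PP u ω) i j := by
  have h := special_par hu hH hi1 hj1 hW hV
  exact ⟨⟨by linarith [h.1.1], by linarith [h.1.2]⟩, ⟨by linarith [h.2.1], by linarith [h.2.2]⟩⟩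

theorem special_thr (hH : 128 ≤ H) {i j : Fin n} {ω : Co n → Fin H} (hi1 : i + 1 ≠ i) (hj1 : j + 1 ≠ j)
    (hW : Wp i ω) (hV : Vp j ω) :
    (H : ℝ) / 4 ≤ thr (PP u ω) (uz u) (kz ω) i i j ∧ thr (PP u ω) (uz u) (kz ω) i i j ≤ 3 * H / 4 - 1 := by
  have hH' : (64:ℝ) ≤ H := by
    have : (128:ℝ) ≤ H := by exact_mod_cast hH
    linarith
  have h := special_par hu (by omega) hi1 hj1 hW hV
  have z1 := pl_mid hu (c := Sum.inr (i + 1)) (by have := hW (Sum.inr (i + 1)); simpa [GW] using this)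
  have z2 := pl_mid hu (c := Sum.inr j) (by have := hV (Sum.inr j); simpa [GV] using this)
  have z3 := pl_mid hu (c := Sum.inr (j + 1)) (by have := hV (Sum.inr (j + 1)); simpa [GV] using this)
  have key := window (w := u (Sum.inr i)) (s := par (PP u ω) j i) (p := par (PP u ω) i j) hH' h.1.1 h.1.2
    (by linarith [h.2.1]) (by linarith [h.2.2]) z2.1 z2.2 z3.1 z3.2 z1.1 z1.2 (hu _).1 (hu _).2
  have e : thr (PP u ω) (uz u) (kz ω) i i j = ((1 - par (PP u ω) j i) * pl u ω (Sum.inr j) +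
      par (PP u ω) j i * pl u ω (Sum.inr (j + 1)) - par (PP u ω) i j * pl u ω (Sum.inr (i + 1))) /
        (1 - par (PP u ω) i j) - u (Sum.inr i) := by
    unfold thr hgt coef oth
    rw [if_pos rfl, if_pos rfl, zz_eq, zz_eq, zz_eq, sub_sub_cancel]
    rfl
  rw [e]
  exact key

end Pool.Agent.V8H81.Urp
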