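import Pool.Agent.V8H81.Urp.Same
import Pool.Agent.V8H81.Urp.Meas

/-!
# Uniform random polygons in the cube
-/

set_option autoImplicit false

namespace Pool.Agent.V8H81.Urp

open Finset MeasureTheory LaurentPolynomial Pool.Agent.H891R2.Jones Pool.Agent.H832R3.VJ Pool.Agent.R811
  Pool.Agent.V8H81.Rnd
open Pool.Agent.R811.Cross hiding sg

variable {n : ℕ} [NeZero n]

/-- the projection to the plane of the closed polygon in space with the vertices `(V (a, 0), V (a, 1), V (a, 2))` -/
def shade (V : Fin n × Fin 3 → ℝ) (a : Fin n) : ℝ × ℝ := (V (a, 0), V (a, 1))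

/-- the heights of the vertices -/
def height (V : Fin n × Fin 3 → ℝ) (a : Fin n) : ℝ := V (a, 2)

/-- the coordinates -/
def eco (n : ℕ) : Co n ≃ Fin n × Fin 3 where
  toFun := Sum.elim (Sum.elim (fun a => (a, 0)) (fun a => (a, 1))) (fun a => (a, 2))
  invFun x := if x.2 = 0 then Sum.inl (Sum.inl x.1) else if x.2 = 1 then Sum.inl (Sum.inr x.1) else Sum.inr x.1
  left_inv x := by rcases x with (a | a) | a <;> simp
  right_inv x := by
    obtain ⟨a, i⟩ := x
    fin_cases i <;> simp

theorem Pr_reindex {κ κ' : Type} [Fintype κ] [DecidableEq κ] [Fintype κ'] [DecidableEq κ'] (e : κ ≃ κ') {H : ℕ}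
    (A : (κ → Fin H) → Prop) : Pr (fun ω : κ' → Fin H => A (ω ∘ e)) = Pr A := by
  classical
  unfold Pr
  rw [Fintype.card_congr e]
  congr 2
  apply Finset.card_bij (fun ω _ => ω ∘ e)
  · intro ω hω
    rw [Finset.mem_filter] at hω ⊢
    exact ⟨Finset.mem_univ _, hω.2⟩
  · intro ω _ ω' _ h
    funext x
    have := congrFun h (e.symm x)
    simpa using this
  · intro ω hω
    rw [Finset.mem_filter] at hω
    refine ⟨ω ∘ e.symm, ?_, ?_⟩
    · rw [Finset.mem_filter]
      refine ⟨Finset.mem_univ _, ?_⟩
      have e1 : (ω ∘ e.symm) ∘ e = ω := by funext x; simp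
      rw [e1]
      exact hω.2
    · funext x; simp

/-! ### measurability -/

section meas

variable (a b c : Fin n)

theorem meas_det (f g : (Fin n × Fin 3 → ℝ) → ℝ × ℝ) (hf : Measurable f) (hg : Measurable g) :
    Measurable (fun V => det (f V) (g V)) := by
  unfold det
  exact (hf.fst.mul hg.snd).sub (hf.snd.mul hg.fst)

theorem meas_shade : Measurable (fun V : Fin n × Fin 3 → ℝ => shade V a) := by
  unfold shade
  fun_prop

theorem meas_dir : Measurable (fun V : Fin n × Fin 3 → ℝ => dir (shade V) a) := by
  unfold dir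
  exact (meas_shade _).sub (meas_shade _)

theorem meas_par : Measurable (fun V : Fin n × Fin 3 → ℝ => par (shade V) a b) := by
  unfold par
  exact (meas_det _ _ ((meas_shade _).sub (meas_shade _)) (meas_dir _)).div (meas_det _ _ (meas_dir _) (meas_dir _))

theorem meas_hgt : Measurable (fun V : Fin n × Fin 3 → ℝ => hgt (shade V) (height V) a b) := by
  unfold hgt height
  exact ((measurable_const.sub (meas_par a b)).mul (measurable_pi_apply _)).add
    ((meas_par a b).mul (measurable_pi_apply _))

theorem meas_cross : MeasurableSet {V : Fin n × Fin 3 → ℝ | Cross (shade V) a b} := by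
  unfold Cross
  have h1 : ∀ a b : Fin n, MeasurableSet {V : Fin n × Fin 3 → ℝ | 0 < par (shade V) a b} := fun a b =>
    measurableSet_lt measurable_const (meas_par a b)
  have h2 : ∀ a b : Fin n, MeasurableSet {V : Fin n × Fin 3 → ℝ | par (shade V) a b < 1} := fun a b =>
    measurableSet_lt (meas_par a b) measurable_const
  exact ((h1 a b).inter (h2 a b)).inter ((h1 b a).inter (h2 b a))

theorem meas_general : MeasurableSet {V : Fin n × Fin 3 → ℝ | General (shade V)} := by
  have e : {V : Fin n × Fin 3 → ℝ | General (shade V)} =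
      (⋂ (a : Fin n) (b : Fin n) (c : Fin n), {V | a ≠ b → a ≠ c → b ≠ c →
        det (shade V b - shade V a) (shade V c - shade V a) ≠ 0}) ∩
      (⋂ (a : Fin n) (b : Fin n) (c : Fin n), {V | Cross (shade V) a b → Cross (shade V) a c → b ≠ c →
        par (shade V) a b ≠ par (shade V) a c}) := by
    ext V
    simp only [Set.mem_ofPred_eq, Set.mem_inter_iff, Set.mem_iInter]
    exact ⟨fun h => ⟨h.line, h.triple⟩, fun h => ⟨h.1, h.2⟩⟩
  rw [e]
  apply MeasurableSet.inter
  · refine MeasurableSet.iInter fun a => MeasurableSet.iInter fun b => MeasurableSet.iInter fun c => ?_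
    by_cases h : a ≠ b ∧ a ≠ c ∧ b ≠ c
    · have e2 : {V : Fin n × Fin 3 → ℝ | a ≠ b → a ≠ c → b ≠ c →
          det (shade V b - shade V a) (shade V c - shade V a) ≠ 0} =
          {V | det (shade V b - shade V a) (shade V c - shade V a) = 0}ᶜ := by
        ext V
        simp only [Set.mem_ofPred_eq, Set.mem_compl_iff]
        exact ⟨fun h1 => h1 h.1 h.2.1 h.2.2, fun h1 _ _ _ => h1⟩
      rw [e2]
      exact (measurableSet_eq_fun (meas_det _ _ ((meas_shade _).sub (meas_shade _))
        ((meas_shade _).sub (meas_shade _))) measurable_const).compl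
    · have e2 : {V : Fin n × Fin 3 → ℝ | a ≠ b → a ≠ c → b ≠ c →
          det (shade V b - shade V a) (shade V c - shade V a) ≠ 0} = Set.univ := by
        ext V
        simp only [Set.mem_ofPred_eq, Set.mem_univ, iff_true]
        intro h1 h2 h3
        exact absurd ⟨h1, h2, h3⟩ h
      rw [e2]
      exact MeasurableSet.univ
  · refine MeasurableSet.iInter fun a => MeasurableSet.iInter fun b => MeasurableSet.iInter fun c => ?_
    by_cases h : b ≠ c
    · have e2 : {V : Fin n × Fin 3 → ℝ | Cross (shade V) a b → Cross (shade V) a c → b ≠ c →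
          par (shade V) a b ≠ par (shade V) a c} =
          ({V | Cross (shade V) a b} ∩ {V | Cross (shade V) a c} ∩
            {V | par (shade V) a b = par (shade V) a c})ᶜ := by
        ext V
        simp only [Set.mem_ofPred_eq, Set.mem_compl_iff, Set.mem_inter_iff, not_and]
        exact ⟨fun h1 h2 => h1 h2.1 h2.2 h, fun h1 h2 h3 _ => h1 ⟨h2, h3⟩⟩
      rw [e2]
      exact (((meas_cross a b).inter (meas_cross a c)).inter
        (measurableSet_eq_fun (meas_par _ _) (meas_par _ _))).compl
    · have e2 : {V : Fin n × Fin 3 → ℝ | Cross (shade V) a b → Cross (shade V) a c → b ≠ c →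
          par (shade V) a b ≠ par (shade V) a c} = Set.univ := by
        ext V
        simp only [Set.mem_ofPred_eq, Set.mem_univ, iff_true]
        intro _ _ h3
        exact absurd h3 h
      rw [e2]
      exact MeasurableSet.univ

open Classical in
/-- the comparisons -/
noncomputable def data (V : Fin n × Fin 3 → ℝ) :
    ((Fin n × Fin n → Bool) × (Fin n × Fin n × Fin n → Bool)) × ((Fin n × Fin n → Bool) × (Fin n × Fin n → Bool)) :=
  ((fun x => decide (Cross (shade V) x.1 x.2), fun x => decide (par (shade V) x.1 x.2.1 < par (shade V) x.1 x.2.2)),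
    (fun x => decide (0 < det (dir (shade V) x.1) (dir (shade V) x.2)),
      fun x => decide (hgt (shade V) (height V) x.1 x.2 < hgt (shade V) (height V) x.2 x.1)))

theorem meas_decide {α : Type*} [MeasurableSpace α] {p : α → Prop} [DecidablePred p] (h : MeasurableSet {x | p x}) :
    Measurable (fun x => decide (p x)) := by
  apply measurable_to_bool
  have e : (fun x => decide (p x)) ⁻¹' {true} = {x | p x} := by
    ext x
    simp
  rw [e]
  exact h

theorem meas_data : Measurable (data : (Fin n × Fin 3 → ℝ) → _) := by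
  classical
  unfold data
  refine Measurable.prodMk (Measurable.prodMk ?_ ?_) (Measurable.prodMk ?_ ?_)
  · exact measurable_pi_iff.2 fun x => meas_decide (meas_cross _ _)
  · exact measurable_pi_iff.2 fun x => meas_decide (measurableSet_lt (meas_par _ _) (meas_par _ _))
  · exact measurable_pi_iff.2 fun x => meas_decide (measurableSet_lt measurable_const
      (meas_det _ _ (meas_dir _) (meas_dir _)))
  · exact measurable_pi_iff.2 fun x => meas_decide (measurableSet_lt (meas_hgt _ _) (meas_hgt _ _))

theorem same_of_data {V V' : Fin n × Fin 3 → ℝ} (h : data V = data V') :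
    Same (shade V) (shade V') (height V) (height V') := by
  unfold data at h
  simp only [Prod.mk.injEq] at h
  obtain ⟨⟨h1, h2⟩, h3, h4⟩ := h
  refine ⟨fun a b => ?_, fun a b c => ?_, fun a b => ?_, fun a b => ?_⟩
  · have := congrFun h1 (a, b)
    simpa using this
  · have := congrFun h2 (a, b, c)
    simpa using this
  · have := congrFun h3 (a, b)
    simpa using this
  · have := congrFun h4 (a, b)
    simpa using this

/-- the polygons in general position whose `f`-polynomial has a property -/
def EV (n : ℕ) [NeZero n] (Q : ℤ[T;T⁻¹] → Prop) : Set (Fin n × Fin 3 → ℝ) :=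
  {V | ∃ h : General (shade V), Q (lift (shade V) h (height V)).fPoly}

theorem meas_EV (Q : ℤ[T;T⁻¹] → Prop) : MeasurableSet (EV n Q) := by
  have e : EV n Q = {V | General (shade V)} ∩ data ⁻¹' (data '' EV n Q) := by
    ext V
    constructor
    · intro hV
      exact ⟨hV.choose, V, hV, rfl⟩
    · rintro ⟨h1, V', ⟨h2, h3⟩, h4⟩
      refine ⟨h1, ?_⟩
      rw [← fPoly_same (same_of_data h4) h2 h1]
      exact h3
  rw [e]
  exact meas_general.inter (meas_data ((Set.toFinite _).measurableSet))

end meas

/-! ### scaling -/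

theorem shade_smul (c : ℝ) (V : Fin n × Fin 3 → ℝ) (a : Fin n) : shade (c • V) a = c • shade V a := by
  unfold shade
  simp

theorem det_smul (c : ℝ) (p q : ℝ × ℝ) : det (c • p) (c • q) = c ^ 2 * det p q := by
  unfold det
  simp only [Prod.smul_fst, Prod.smul_snd, smul_eq_mul]
  ring

theorem dir_smul (c : ℝ) (V : Fin n × Fin 3 → ℝ) (a : Fin n) : dir (shade (c • V)) a = c • dir (shade V) a := by
  unfold dir
  rw [shade_smul, shade_smul, smul_sub]

theorem par_smul {c : ℝ} (hc : 0 < c) (V : Fin n × Fin 3 → ℝ) (a b : Fin n) :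
    par (shade (c • V)) a b = par (shade V) a b := by
  unfold par
  rw [dir_smul, dir_smul, shade_smul, shade_smul, ← smul_sub, det_smul, det_smul]
  rw [mul_div_mul_left _ _ (by positivity)]

theorem hgt_smul {c : ℝ} (hc : 0 < c) (V : Fin n × Fin 3 → ℝ) (a b : Fin n) :
    hgt (shade (c • V)) (height (c • V)) a b = c * hgt (shade V) (height V) a b := by
  unfold hgt
  rw [par_smul hc]
  unfold height
  simp only [Pi.smul_apply, smul_eq_mul]
  ring

theorem cross_smul {c : ℝ} (hc : 0 < c) (V : Fin n × Fin 3 → ℝ) (a b : Fin n) :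
    Cross (shade (c • V)) a b ↔ Cross (shade V) a b := by
  unfold Cross
  rw [par_smul hc, par_smul hc]

theorem same_smul {c : ℝ} (hc : 0 < c) (V : Fin n × Fin 3 → ℝ) :
    Same (shade (c • V)) (shade V) (height (c • V)) (height V) := by
  refine ⟨fun a b => cross_smul hc V a b, fun a b d => ?_, fun a b => ?_, fun a b => ?_⟩
  · rw [par_smul hc, par_smul hc]
  · rw [dir_smul, dir_smul, det_smul]
    have : 0 < c ^ 2 := by positivity
    exact mul_pos_iff_of_pos_left this
  · rw [hgt_smul hc, hgt_smul hc]
    exact mul_lt_mul_iff_right₀ hc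

theorem general_smul {c : ℝ} (hc : 0 < c) {V : Fin n × Fin 3 → ℝ} (h : General (shade V)) :
    General (shade (c • V)) := by
  refine ⟨fun a b d h1 h2 h3 => ?_, fun a b d h1 h2 h3 => ?_⟩
  · rw [shade_smul, shade_smul, shade_smul, ← smul_sub, ← smul_sub, det_smul]
    exact mul_ne_zero (by positivity) (h.line a b d h1 h2 h3)
  · rw [cross_smul hc] at h1 h2
    rw [par_smul hc, par_smul hc]
    exact h.triple a b d h1 h2 h3

theorem EV_smul {Q : ℤ[T;T⁻¹] → Prop} {c : ℝ} (hc : 0 < c) {V : Fin n × Fin 3 → ℝ} (h : V ∈ EV n Q) :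
    c • V ∈ EV n Q := by
  obtain ⟨h1, h2⟩ := h
  refine ⟨general_smul hc h1, ?_⟩
  rw [fPoly_same (same_smul hc V) (general_smul hc h1) h1]
  exact h2

/-- the probability that the second moment has a given value -/
theorem vol_moment (c : ℤ) : volume (EV n (fun f => moment 2 f = c) ∩ cube (Fin n × Fin 3) 1) ≤
    ENNReal.ofReal ((2 * C0 + 2) * (n : ℝ) ^ (-(1 / 10) : ℝ)) := by
  have hn0 : 0 < n := Nat.pos_of_ne_zero (NeZero.ne n)
  refine vol_le (meas_EV _) (H := n ^ 2) (by positivity)
    (fun V hV => EV_smul (by positivity) hV) (fun u hu => ?_)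
  have key := moment_n (n := n) (H := n ^ 2) le_rfl (u := u ∘ eco n) (fun x => hu _) c
  rw [← Pr_reindex (eco n)] at key
  exact key

end Pool.Agent.V8H81.Urp
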